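import Pool.Agent.N748.MG.Ev
import Pool.Agent.N748.MJ.Stm
import Pool.Agent.N748.MJ.SM

set_option autoImplicit false

/-!
# The critical windows: statements of two parts
-/

namespace Run7.h291.WN

open Finset Filter MeasureTheory Topology Complex
open Pool.Agent.N748.MG Pool.Agent.N748.MJ

/-- (SUPW) large values in windows, the sharp bound (the refined form of `S_MAXU`; the same proof gives it).

Proof. As in `S_MAXU` (see the file `Stm2.lean`): (1) the window version of `NIC`, with `‖ζ(pw δ u) AS (-1) y K (pw δ u) - 1‖ ≤ δ^C`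
for all `u` in the window outside a set of measure `δ^(D+1) X`; (2) `∫_0^{2X} |AS q y K (pw δ' t)|² dt ≤ C X δ^(-q²)` for
`δ' ∈ [δ/2, 3δ/2]`, and `HM.SUP` for `Φ = AS q y K` with `κ' = κ^q / 2`; (3) `CMP`: `| |ζ|^(2q) - |AS q|² | ≤ 1/2`.
`S_MAXU` follows with `q = √(1+θ)`, `κ = δ^(-(q+ε))`. -/
def S_SUPW : Prop := ∀ q : ℝ, 0 < q → ∀ D : ℝ, 0 < D → ∃ C : ℝ, 0 < C ∧ Ev fun X δ =>
  ∀ H κ : ℝ, 1 ≤ H → H ≤ δ ^ (-D) → 2 ≤ κ →
  volume {t : ℝ | 0 ≤ t ∧ t ≤ X ∧ ∃ u : ℝ, t ≤ u ∧ u ≤ t + H ∧ κ ≤ mz δ u} ≤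
    ENNReal.ofReal ((C * H * δ ^ (-(q ^ 2 + 1)) * κ ^ (-(2 * q)) + δ ^ D) * X)

/-- (EQC) the arithmetic factor is a continuous function of the exponents, uniformly in the shifts.

Proof. `aV s r h = ∏_p gV s r h 0 p` (`aV`). By `gvbF : S_GVB` (`MJ/Fin.lean`) `‖gV s r h 0 p - 1‖ ≤ C / p²` for all exponents
of norm at most `R` and all `h`, hence the product over the primes `p > P` is within `ε'` of `1`, and the partial products are
bounded, uniformly. For a fixed prime `p` the local factor `gV s r h 0 p` depends on `h` only through the numbers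
`p^(-i h_j)`, that is, it has the period `2 π / log p` in each `h_j`; it is continuous in `(s, r, h)` (`POSV.gV_cont`), so it is
uniformly continuous for `‖s j‖, ‖r j‖ ≤ R`, `0 ≤ h j ≤ 2 π / log p` (compactness), and by the periodicity the modulus of
continuity in `(s, r)` is uniform in all real `h`. -/
def S_EQC : Prop := ∀ (m : ℕ) (R : ℝ), 0 ≤ R → ∀ ε : ℝ, 0 < ε → ∃ η : ℝ, 0 < η ∧ ∀ (s r s' r' : Fin m → ℂ),
  (∀ j, ‖s j‖ ≤ R) → (∀ j, ‖r j‖ ≤ R) → (∀ j, ‖s' j‖ ≤ R) → (∀ j, ‖r' j‖ ≤ R) →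
  (∀ j, ‖s j - s' j‖ ≤ η) → (∀ j, ‖r j - r' j‖ ≤ η) → ∀ h : Fin m → ℝ, ‖aV s r h - aV s' r' h‖ ≤ ε

/-- the normalised logarithm of zeta -/
noncomputable def YY (k δ t : ℝ) : ℝ :=
  (Real.log (mz δ t) - k * Real.log (1 / δ)) / Real.sqrt (Real.log (1 / δ) / 2)

/-- (LAW) the joint law of the normalised logarithms at distances at least one in the measures with the weight
`∏ |ζ|^(2k)`: independent normal variables.

Proof (`S_EQC → S_LAW`). Let `L = log (1/δ)`, `G = SM.G (fun _ => k) h δ t`.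
(1) Uniform form of the continuity theorem: for a bounded continuous function `Ψ` on `E = EuclideanSpace ℝ (Fin m)` and
`ε > 0` there are `R, τ > 0` such that `|∫ Ψ dμ - ∫ Ψ dγ| ≤ ε` for all probability measures `μ` on `E` with
`|charFun μ ξ - exp (-|ξ|²/2)| ≤ τ` for all `|ξ j| ≤ R` (`γ` is the standard normal law, the law of independent standard
normal variables): otherwise there is a sequence of measures with `R = n`, `τ = 1/n`, and the continuity theorem of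
Mathlib (`MeasureTheory.ProbabilityMeasure.tendsto_iff_tendsto_charFun`) gives a contradiction. Use `Ψ = ∏ φ (x j)`, with
`∫ Ψ dγ = (∫ φ)^m`.
(2) For good `X, δ` and `h`, let `N` be the set of (JM) (`jmF`, exponents of norm at most `k + 1`, error `ε'`), and `μ` the law
of `(YY k δ (t + h j))_j` under the measure with density `G / ∫_N G` on `N`. With `b j = k + i ξ j / √(2L)`:
`∏ ZZ (ζ(pw δ (t + h j))) (b j) 0 = G * exp (i ∑ ξ j log mz (t + h j) / √(L/2))`, hence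
`charFun μ ξ = exp (-i ∑ ξ j k L / √(L/2)) * (∫_N ∏ ZZ) / ∫_N G`, where
`∫_N ∏ ZZ = exp (LM b b h δ) (X aV b b h + O(ε' X))`, and the same for `b = k`, with `aV = a ≥ c > 0` by `posF` (see also
`Run7.h291.WN.jmr` in A1.lean). By `S_EQC` `aV b b h = a + O(ε')`. As `LZ (-u) = conj (LZ u)`,
`LM b b h δ - LM k k h δ = ∑_{j,l} (i k (τ j + τ l) - τ j τ l) Re LZ(h j - h l)`, `τ j = ξ j / √(2L)`; the terms `j = l` give
`i ∑ ξ j k L / √(L/2) - |ξ|²/2 + o(1)` (`LZ(0) = L + O(1)`: `LZre_bd` in A1.lean), the others are `o(1)`, as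
`-K ≤ Re LZ(u) = log |ζ(1 + 2δ + i u)| ≤ log (C (1 + log |u|)) ≤ C + C log L` for `1 ≤ |u| ≤ 2 δ^(-D)` (`LZre` in A1.lean; the bound
of zeta follows from the approximation of zeta by `∑_{n ≤ N} n^(-s)` in `Run7/h772/WN_ZML.lean`). -/
def S_LAW : Prop := ∀ (m : ℕ) (k D K W : ℝ), 0 < k → 0 < D → 0 < W → ∀ φ : ℝ → ℝ, Continuous φ → (∀ x, 0 ≤ φ x) →
  (∀ x, φ x ≤ 1) → ∀ ε : ℝ, 0 < ε → Ev fun X δ => ∀ h : Fin m → ℝ, (∀ j, |h j| ≤ δ ^ (-D)) →
  (∀ j l, j ≠ l → 1 ≤ |h j - h l| ∧ -K ≤ (LZ (1 + 2 * δ) (h j - h l)).re) →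
  ∃ N : Set ℝ, MeasurableSet N ∧ N ⊆ Set.Icc 0 X ∧ volume (Set.Icc 0 X \ N) ≤ ENNReal.ofReal (δ ^ W * X) ∧
    (∀ t ∈ N, ∀ j, 0 < mz δ (t + h j)) ∧
    ∃ a : ℝ, aV (fun _ => (k : ℂ)) (fun _ => (k : ℂ)) h = a ∧
    IntegrableOn (fun t => SM.G (fun _ => k) h δ t) N ∧
    |(∫ t in N, SM.G (fun _ => k) h δ t) - X * (a * Real.exp (SM.Lr (fun _ => k) h δ))| ≤
      ε * (X * Real.exp (SM.Lr (fun _ => k) h δ)) ∧
    |(∫ t in N, SM.G (fun _ => k) h δ t * ∏ j, φ (YY k δ (t + h j))) -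
      X * (a * Real.exp (SM.Lr (fun _ => k) h δ)) * (∫ x, φ x ∂(ProbabilityTheory.gaussianReal 0 1)) ^ m| ≤
      ε * (X * Real.exp (SM.Lr (fun _ => k) h δ))

end Run7.h291.WN
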