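import Pool.Agent.Run7.h291.WN.A3
import Pool.Agent.N748.HM.SUP
import Pool.Agent.Y755.Res

set_option autoImplicit false

/-! The maximum of zeta over windows is rarely larger than a power of the distance to the critical line -/

namespace Run7.h291.WN

open Finset Filter MeasureTheory Topology Complex
open Pool.Agent.N748.MG Pool.Agent.N748.MJ

/-- the size of the diagonal series -/
lemma DD_bd : ∃ C d0 : ℝ, 0 < C ∧ 0 < d0 ∧ ∀ δ : ℝ, 0 < δ → δ ≤ d0 → Pool.Agent.Y755.DD 1 δ ≤ C / δ := by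
  have h := Pool.Agent.Y755.DD_asym (α := 1) one_pos (δ := fun T => 1 / T)
    ((eventually_gt_atTop 0).mono fun T hT => by positivity)
    (by simpa using tendsto_inv_atTop_zero)
  have h2 := h.eventually_le_const (lt_add_one _)
  obtain ⟨T0, hT0⟩ := eventually_atTop.1 (h2.and (eventually_gt_atTop 0))
  set A : ℝ := |Pool.Agent.H306R2.aF 1 + 1| + 1 with hA
  refine ⟨A, 1 / max T0 1, by positivity, by positivity, fun δ h0 h1 => ?_⟩
  have h3 : max T0 1 ≤ 1 / δ := by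
    have hm : 0 < max T0 1 := lt_max_of_lt_right one_pos
    rw [le_div_iff₀ h0]
    rw [le_div_iff₀ hm] at h1
    linarith
  have h4 := (hT0 (1 / δ) ((le_max_left _ _).trans h3)).1
  simp only [one_div_one_div] at h4
  have h5 : (2 * δ) ^ ((1:ℝ) ^ 2) = 2 * δ := by
    norm_num
  rw [h5] at h4
  rw [le_div_iff₀ h0]
  have h6 := le_abs_self (Pool.Agent.H306R2.aF 1 + 1)
  have h7 := abs_nonneg (Pool.Agent.H306R2.aF 1 + 1)
  nlinarith

/-- the second moment of zeta near the critical line -/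
lemma msq_zeta : ∃ C : ℝ, 0 < C ∧ Ev fun X δ => ∀ δ' : ℝ, δ / 2 ≤ δ' → δ' ≤ 3 * δ / 2 →
    ∫ t in (0:ℝ)..X, ‖riemannZeta (1 / 2 + δ' + t * I)‖ ^ 2 ≤ C * X / δ := by
  obtain ⟨C, d0, hC, hd0, hD⟩ := DD_bd
  obtain ⟨lam, hl1, hmom⟩ := Pool.Agent.Y755.mom_up (α := 1) one_pos le_rfl (ε := 1) one_pos
  have h1 := hmom 0
  refine ⟨4 * C, by positivity, ((((Ev.of_ev h1).and (Ev.lam (2 * lam))).and
    (Ev.of_le (show 0 < d0 / 2 by positivity))).and (Ev.of_le (show (0:ℝ) < 1 / 24 by norm_num))).mono ?_⟩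
  rintro X δ hX1 h0 h1' ⟨⟨⟨h2, h3⟩, h4⟩, h5⟩ δ' hδ1 hδ2
  have hX0 : 0 < X := by linarith
  have hL := log_inv_ge h0 h1'
  have hδ'0 : 0 < δ' := by linarith
  have hlogX : 0 < Real.log X := by
    have : 0 < δ * Real.log X := by
      have : 0 < 2 * lam * Real.log (1 / δ) ^ 2 := by positivity
      linarith
    exact (mul_pos_iff_of_pos_left h0).1 this
  have h6 : lam / Real.log X ≤ δ' := by
    rw [div_le_iff₀ hlogX]
    have h7 : 2 * lam ≤ 2 * lam * Real.log (1 / δ) ^ 2 := by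
      have : 1 ≤ Real.log (1 / δ) ^ 2 := one_le_pow₀ hL
      nlinarith
    nlinarith
  have h8 := h2 δ' h6 (by linarith)
  have h9 := hD δ' hδ'0 (by linarith)
  have h10 : Pool.Agent.Y755.mom (2 * 1) (1 / 2 + δ') 0 X * X =
      ∫ t in (0:ℝ)..X, ‖riemannZeta (1 / 2 + δ' + t * I)‖ ^ 2 := by
    unfold Pool.Agent.Y755.mom
    have e1 := intervalIntegral.integral_comp_mul_right (a := 0) (b := 1)
      (fun t : ℝ => ‖riemannZeta (1 / 2 + δ' + t * I)‖ ^ 2) hX0.ne'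
    rw [zero_mul, one_mul, smul_eq_mul] at e1
    have e2 : ∫ t in (0:ℝ)..X, ‖riemannZeta (1 / 2 + δ' + t * I)‖ ^ 2 =
        X * ∫ x in (0:ℝ)..1, ‖riemannZeta (1 / 2 + δ' + ((x * X : ℝ) : ℂ) * I)‖ ^ 2 := by
      rw [e1, ← mul_assoc, mul_inv_cancel₀ hX0.ne', one_mul]
    rw [e2, mul_comm]
    congr 1
    refine intervalIntegral.integral_congr fun u _ => ?_
    show ‖riemannZeta _‖ ^ (2 * 1 : ℝ) = ‖riemannZeta _‖ ^ 2
    rw [mul_one, Real.rpow_two]
    congr 3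
    push_cast
    ring
  rw [← h10]
  have h11 : C / δ' ≤ 2 * C / δ := by
    rw [div_le_div_iff₀ hδ'0 h0]
    nlinarith
  calc Pool.Agent.Y755.mom (2 * 1) (1 / 2 + δ') 0 X * X ≤ ((1 + 1) * (2 * C / δ)) * X := by
        refine mul_le_mul_of_nonneg_right (h8.trans ?_) hX0.le
        exact mul_le_mul_of_nonneg_left (h9.trans h11) (by norm_num)
    _ = 4 * C * X / δ := by ring

/-- large values of the weight are rare in windows -/
lemma sup_bd (k D : ℝ) (hk : 0 < k) (hD : 0 ≤ D) : ∃ W0 : ℝ, ∀ W : ℝ, W0 ≤ W → ∀ ε : ℝ, 0 < ε → Ev fun X δ =>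
    volume {t : ℝ | 0 ≤ t ∧ t ≤ X ∧ ∃ u : ℝ, t ≤ u ∧ u ≤ t + δ ^ (-D) ∧ δ ^ (-W) < Zk k δ u} ≤
      ENNReal.ofReal (ε * X) := by
  obtain ⟨C1, hC1, E1⟩ := msq_zeta
  obtain ⟨C2, hC2, hS⟩ := Pool.Agent.N748.HM.SUP.main
  refine ⟨k * (D + 3), fun W hW ε hε => ?_⟩
  have ha := akp k
  set Ct : ℝ := 6 * (C2 * C1) / akR k ^ (1 / k) with hCt
  have hCt0 : 0 < Ct := by
    have := Real.rpow_pos_of_pos ha (1 / k)
    positivity
  have hX : ∀ᶠ X : ℝ in atTop, 1 ≤ ε / 2 * X ∧ 2 ≤ X := by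
    filter_upwards [eventually_ge_atTop (max (2 / ε) 2)] with X hX
    have h1 : 2 / ε ≤ X := (le_max_left _ _).trans hX
    rw [div_le_iff₀ hε] at h1
    exact ⟨by linarith, (le_max_right _ _).trans hX⟩
  refine ((((E1.up).and (Ev.of_ev hX)).and (Ev.win (D := D) (c := 1 / 2) (e := 1) (by norm_num) one_pos)).and
    (Ev.small (C := Ct) (c := 1) (e := ε / 2) one_pos (by positivity))).mono ?_
  rintro X δ hX1 h0 h1 ⟨⟨⟨E1, hXε, hX2⟩, w1⟩, s1⟩
  rw [Real.rpow_one] at w1 s1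
  have hX0 : 0 < X := by linarith
  have hE := E1 (2 * X) (by linarith)
  set κ : ℝ := (akR k * δ ^ (-W)) ^ (1 / (2 * k)) with hκ
  have hW0 : 0 < δ ^ (-W) := Real.rpow_pos_of_pos h0 _
  have hκ0 : 0 < κ := Real.rpow_pos_of_pos (by positivity) _
  have hκ2 : κ ^ 2 = akR k ^ (1 / k) * δ ^ (-(W / k)) := by
    rw [hκ, ← Real.rpow_natCast, ← Real.rpow_mul (by positivity), Real.mul_rpow ha.le hW0.le, ← Real.rpow_mul h0.le]
    congr 1
    · congr 1
      push_cast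
      field_simp
    · congr 1
      push_cast
      field_simp
  set H : ℝ := δ ^ (-D) with hH
  have hH1 : 1 ≤ H := Real.one_le_rpow_of_pos_of_le_one_of_nonpos h0 (by linarith) (by linarith)
  have hdiff : DifferentiableOn ℂ riemannZeta {s : ℂ | 1 / 2 < s.re ∧ s.re < 1} := fun s hs =>
    (differentiableAt_riemannZeta (by
      intro h
      have h2 := hs.2
      rw [h] at h2
      simp at h2)).differentiableWithinAt
  have hB := hS riemannZeta hdiff δ 0 (2 * X) (C1 * (2 * X) / δ) h0 h1 (by linarith) (by positivity) hE H κ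
    (by linarith) hκ0
  have hsub : {t : ℝ | 0 ≤ t ∧ t ≤ X ∧ ∃ u : ℝ, t ≤ u ∧ u ≤ t + H ∧ δ ^ (-W) < Zk k δ u} ⊆ Set.Icc 0 1 ∪
      {t : ℝ | 0 + 1 ≤ t ∧ t + H + 1 ≤ 2 * X ∧ ∃ u : ℝ, t ≤ u ∧ u ≤ t + H ∧ κ ≤ ‖riemannZeta (1 / 2 + δ + u * I)‖} := by
    rintro t ⟨t0, t1, u, u1, u2, u3⟩
    rcases le_or_gt t 1 with h | h
    · exact Or.inl ⟨t0, h⟩
    · refine Or.inr ⟨by linarith, by linarith, u, u1, u2, ?_⟩
      have h3 : akR k * δ ^ (-W) ≤ mz δ u ^ (2 * k) := by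
        have h4 : Zk k δ u ≤ 1 / akR k * mz δ u ^ (2 * k) := by
          unfold Zk
          have h5 : (2 * δ) ^ (k ^ 2) ≤ 1 := Real.rpow_le_one (by linarith) (by linarith) (by positivity)
          have h6 := Real.rpow_nonneg (TMA.mz_nn δ u) (2 * k)
          gcongr
        have h7 := (u3.trans_le h4).le
        rw [div_mul_eq_mul_div, one_mul, le_div_iff₀ ha] at h7
        linarith
      have h4 : κ ≤ (mz δ u ^ (2 * k)) ^ (1 / (2 * k)) := Real.rpow_le_rpow (by positivity) h3 (by positivity)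
      rw [← Real.rpow_mul (TMA.mz_nn _ _), mul_one_div_cancel (by positivity), Real.rpow_one] at h4
      exact h4
  refine (measure_mono hsub).trans ((measure_union_le _ _).trans ?_)
  have hv : volume (Set.Icc (0:ℝ) 1) = ENNReal.ofReal 1 := by
    rw [Real.volume_Icc]
    norm_num
  rw [hv]
  refine (add_le_add le_rfl hB).trans ?_
  rw [← ENNReal.ofReal_add zero_le_one (by positivity)]
  refine ENNReal.ofReal_le_ofReal ?_
  have hmain : C2 * (H + 2) * (C1 * (2 * X) / δ) / (δ * κ ^ 2) ≤ ε / 2 * X := by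
    rw [hκ2]
    have hp := Real.rpow_pos_of_pos ha (1 / k)
    have hq : 0 < δ ^ (-(W / k)) := Real.rpow_pos_of_pos h0 _
    have e1 : C2 * (H + 2) * (C1 * (2 * X) / δ) / (δ * (akR k ^ (1 / k) * δ ^ (-(W / k)))) =
        2 * (C2 * C1) / akR k ^ (1 / k) * (H + 2) * (δ ^ (-(2:ℝ)) * (δ ^ (-(W / k)))⁻¹) * X := by
      have e2 : δ ^ (-(2:ℝ)) = 1 / (δ * δ) := by
        rw [Real.rpow_neg h0.le, Real.rpow_two, sq, one_div]
      rw [e2]
      field_simp
    rw [e1, ← Real.rpow_neg h0.le, neg_neg, ← Real.rpow_add h0]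
    have e3 : H + 2 ≤ 3 * H := by linarith
    have e4 : H * δ ^ (-(2:ℝ) + W / k) ≤ δ := by
      rw [hH, ← Real.rpow_add h0]
      calc δ ^ (-D + (-(2:ℝ) + W / k)) ≤ δ ^ (1:ℝ) := by
            refine Real.rpow_le_rpow_of_exponent_ge h0 (by linarith) ?_
            have : D + 3 ≤ W / k := by
              rw [le_div_iff₀ hk]
              linarith
            linarith
        _ = δ := Real.rpow_one δ
    have hr : 0 < δ ^ (-(2:ℝ) + W / k) := Real.rpow_pos_of_pos h0 _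
    calc 2 * (C2 * C1) / akR k ^ (1 / k) * (H + 2) * δ ^ (-(2:ℝ) + W / k) * X
        ≤ 2 * (C2 * C1) / akR k ^ (1 / k) * (3 * H) * δ ^ (-(2:ℝ) + W / k) * X := by gcongr
      _ = Ct * (H * δ ^ (-(2:ℝ) + W / k)) * X := by
          rw [hCt]
          ring
      _ ≤ Ct * δ * X := by gcongr
      _ ≤ ε / 2 * X := mul_le_mul_of_nonneg_right s1 hX0.le
  linarith

end Run7.h291.WN
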