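import Pool.Agent.Run7.h291.WN.A8
import Pool.Agent.Run7.h291.WN.A9
import Pool.Agent.Run7.h311.LM.Wk

set_option autoImplicit false

/-! All moments in almost all windows -/

namespace Run7.h291.WN

open Finset Filter MeasureTheory Topology Complex
open Pool.Agent.N748.MG Pool.Agent.N748.MJ

lemma Av_cont {l : ℝ} {f : ℝ → ℝ} (hf : Continuous f) : Continuous (Av l f) := by
  unfold Av
  refine continuous_const.mul ?_
  refine intervalIntegral.continuous_parametric_intervalIntegral_of_continuous (f := fun t x =>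
    f (t + x)) ?_ continuous_const
  exact hf.comp (by fun_prop)

/-- the average in terms of the primitive -/
lemma Av_prim {l : ℝ} {f : ℝ → ℝ} (hf : Continuous f) (t : ℝ) :
    Av l f t = (1 / l) * ((∫ x in (0:ℝ)..(t + l), f x) - ∫ x in (0:ℝ)..t, f x) := by
  unfold Av
  rw [intervalIntegral.integral_comp_add_left, add_zero,
    intervalIntegral.integral_interval_sub_left (hf.intervalIntegrable _ _) (hf.intervalIntegrable _ _)]

/-- the integral of the averages in terms of the primitive -/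
lemma Av_int {l : ℝ} {f : ℝ → ℝ} (hf : Continuous f) (t s : ℝ) :
    ∫ u in t..s, Av l f u = (1 / l) * ((∫ u in s..(s + l), ∫ x in (0:ℝ)..u, f x) -
      ∫ u in t..(t + l), ∫ x in (0:ℝ)..u, f x) := by
  have hF : Continuous fun u : ℝ => ∫ x in (0:ℝ)..u, f x :=
    intervalIntegral.continuous_primitive (fun a b => hf.intervalIntegrable a b) 0
  have hF2 : Continuous fun u : ℝ => ∫ x in (0:ℝ)..(u + l), f x :=
    hF.comp (g := fun u : ℝ => ∫ x in (0:ℝ)..u, f x) (f := fun u => u + l) (by fun_prop)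
  simp_rw [Av_prim hf]
  rw [intervalIntegral.integral_const_mul, intervalIntegral.integral_sub (hF2.intervalIntegrable _ _)
    (hF.intervalIntegrable _ _), intervalIntegral.integral_comp_add_right (fun u => ∫ x in (0:ℝ)..u, f x)]
  congr 1
  have h1 := intervalIntegral.integral_add_adjacent_intervals (hF.intervalIntegrable t (t + l))
    (hF.intervalIntegrable (t + l) (s + l)) (μ := volume)
  have h2 := intervalIntegral.integral_add_adjacent_intervals (hF.intervalIntegrable t s)
    (hF.intervalIntegrable s (s + l)) (μ := volume)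
  linarith

lemma prim_mono {f : ℝ → ℝ} (hf : Continuous f) (h0 : ∀ x, 0 ≤ f x) {a b : ℝ} (hab : a ≤ b) :
    ∫ x in (0:ℝ)..a, f x ≤ ∫ x in (0:ℝ)..b, f x := by
  rw [← sub_nonneg, intervalIntegral.integral_interval_sub_left (hf.intervalIntegrable _ _)
    (hf.intervalIntegrable _ _)]
  exact intervalIntegral.integral_nonneg hab fun x _ => h0 x

/-- comparison of a window with its averages: lower bound -/
lemma win_ge {l : ℝ} {f : ℝ → ℝ} (hf : Continuous f) (h0 : ∀ x, 0 ≤ f x) (hl : 0 < l) (t s : ℝ) :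
    ∫ u in t..s, Av l f u ≤ ∫ u in t..(s + l), f u := by
  have hF : Continuous fun u : ℝ => ∫ x in (0:ℝ)..u, f x :=
    intervalIntegral.continuous_primitive (fun a b => hf.intervalIntegrable a b) 0
  rw [Av_int hf]
  have h1 : ∫ u in s..(s + l), ∫ x in (0:ℝ)..u, f x ≤ l * ∫ x in (0:ℝ)..(s + l), f x := by
    have h2 : ∫ u in s..(s + l), ∫ x in (0:ℝ)..u, f x ≤ ∫ u in s..(s + l), ∫ x in (0:ℝ)..(s + l), f x :=
      intervalIntegral.integral_mono_on (by linarith) (hF.intervalIntegrable _ _) (by simp) fun u hu =>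
        prim_mono hf h0 hu.2
    rw [intervalIntegral.integral_const, smul_eq_mul] at h2
    linarith
  have h3 : l * (∫ x in (0:ℝ)..t, f x) ≤ ∫ u in t..(t + l), ∫ x in (0:ℝ)..u, f x := by
    have h2 : ∫ u in t..(t + l), ∫ x in (0:ℝ)..t, f x ≤ ∫ u in t..(t + l), ∫ x in (0:ℝ)..u, f x :=
      intervalIntegral.integral_mono_on (by linarith) (by simp) (hF.intervalIntegrable _ _) fun u hu =>
        prim_mono hf h0 hu.1
    rw [intervalIntegral.integral_const, smul_eq_mul] at h2
    linarith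
  have h4 : ∫ u in t..(s + l), f u = (∫ x in (0:ℝ)..(s + l), f x) - ∫ x in (0:ℝ)..t, f x :=
    (intervalIntegral.integral_interval_sub_left (hf.intervalIntegrable _ _) (hf.intervalIntegrable _ _)).symm
  rw [h4, one_div, inv_mul_le_iff₀ hl]
  linarith

/-- comparison of a window with its averages: upper bound -/
lemma win_le {l : ℝ} {f : ℝ → ℝ} (hf : Continuous f) (h0 : ∀ x, 0 ≤ f x) (hl : 0 < l) (t s : ℝ) :
    ∫ u in t..s, f u ≤ l * Av l f t + ∫ u in t..s, Av l f u := by
  have hF : Continuous fun u : ℝ => ∫ x in (0:ℝ)..u, f x :=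
    intervalIntegral.continuous_primitive (fun a b => hf.intervalIntegrable a b) 0
  rw [Av_int hf, Av_prim hf]
  have h1 : l * (∫ x in (0:ℝ)..s, f x) ≤ ∫ u in s..(s + l), ∫ x in (0:ℝ)..u, f x := by
    have h2 : ∫ u in s..(s + l), ∫ x in (0:ℝ)..s, f x ≤ ∫ u in s..(s + l), ∫ x in (0:ℝ)..u, f x :=
      intervalIntegral.integral_mono_on (by linarith) (by simp) (hF.intervalIntegrable _ _) fun u hu =>
        prim_mono hf h0 hu.1
    rw [intervalIntegral.integral_const, smul_eq_mul] at h2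
    linarith
  have h3 : ∫ u in t..(t + l), ∫ x in (0:ℝ)..u, f x ≤ l * ∫ x in (0:ℝ)..(t + l), f x := by
    have h2 : ∫ u in t..(t + l), ∫ x in (0:ℝ)..u, f x ≤ ∫ u in t..(t + l), ∫ x in (0:ℝ)..(t + l), f x :=
      intervalIntegral.integral_mono_on (by linarith) (hF.intervalIntegrable _ _) (by simp) fun u hu =>
        prim_mono hf h0 hu.2
    rw [intervalIntegral.integral_const, smul_eq_mul] at h2
    linarith
  have h4 : ∫ u in t..s, f u = (∫ x in (0:ℝ)..s, f x) - ∫ x in (0:ℝ)..t, f x :=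
    (intervalIntegral.integral_interval_sub_left (hf.intervalIntegrable _ _) (hf.intervalIntegrable _ _)).symm
  rw [h4]
  have h5 : l * ((1 / l) * ((∫ x in (0:ℝ)..(t + l), f x) - ∫ x in (0:ℝ)..t, f x)) =
      (∫ x in (0:ℝ)..(t + l), f x) - ∫ x in (0:ℝ)..t, f x := by
    field_simp
  rw [h5]
  have h6 : (∫ x in (0:ℝ)..s, f x) - (∫ x in (0:ℝ)..(t + l), f x) ≤
      (1 / l) * ((∫ u in s..(s + l), ∫ x in (0:ℝ)..u, f x) - ∫ u in t..(t + l), ∫ x in (0:ℝ)..u, f x) := by
    rw [one_div, le_inv_mul_iff₀ hl]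
    linarith
  linarith

/-- the deterministic part of the argument -/
lemma det {Z F f : ℝ → ℝ} {l c t H : ℝ} (hF : Continuous F) (hf : Continuous f)
    (hf0 : ∀ x, 0 ≤ f x) (hfF : ∀ x, f x ≤ F x) (hl : 0 < l) (hlH : l ≤ H)
    (hZ : ∀ u ∈ Set.Icc t (t + H), Z u = F u)
    (h1 : ∫ s in t..(t + H), |Av l f s - 1| ≤ c * H) (h2 : ∫ s in t..(t + H), (F s - f s) ≤ c * H)
    (h3 : |Av l f t - 1| ≤ 1) :
    |(∫ u in t..(t + H), Z u) - H| ≤ 2 * l + 2 * (c * H) := by
  have hAc := Av_cont (l := l) hf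
  have hH : 0 < H := lt_of_lt_of_le hl hlH
  have eZ : ∫ u in t..(t + H), Z u = ∫ u in t..(t + H), F u := by
    refine intervalIntegral.integral_congr fun u hu => ?_
    rw [Set.uIcc_of_le (by linarith)] at hu
    exact hZ u hu
  have hi : ∀ {g : ℝ → ℝ}, Continuous g → ∀ a b : ℝ, IntervalIntegrable g volume a b := fun hg a b =>
    hg.intervalIntegrable a b
  have eF : ∫ u in t..(t + H), F u = (∫ u in t..(t + H), f u) + ∫ u in t..(t + H), (F u - f u) := by
    rw [intervalIntegral.integral_sub (hi hF _ _) (hi hf _ _)]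
    ring
  have hg0 : 0 ≤ ∫ u in t..(t + H), (F u - f u) :=
    intervalIntegral.integral_nonneg (by linarith) fun u _ => by linarith [hfF u]
  have habs : Continuous fun s => |Av l f s - 1| := (hAc.sub continuous_const).abs
  -- lower bound
  have l1 := win_ge hf hf0 hl t (t + H - l)
  have e1 : t + H - l + l = t + H := by ring
  rw [e1] at l1
  have l2 : (H - l) - ∫ s in t..(t + H), |Av l f s - 1| ≤ ∫ u in t..(t + H - l), Av l f u := by
    have l3 : ∫ u in t..(t + H - l), (1 - |Av l f u - 1|) ≤ ∫ u in t..(t + H - l), Av l f u := by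
      refine intervalIntegral.integral_mono_on (by linarith) (hi (continuous_const.sub habs) _ _) (hi hAc _ _)
        fun u _ => ?_
      linarith [neg_abs_le (Av l f u - 1)]
    rw [intervalIntegral.integral_sub (by simp) (hi habs _ _), intervalIntegral.integral_const, smul_eq_mul] at l3
    have l4 : ∫ u in t..(t + H - l), |Av l f u - 1| ≤ ∫ u in t..(t + H), |Av l f u - 1| :=
      intervalIntegral.integral_mono_interval le_rfl (by linarith) (by linarith)
        (Filter.Eventually.of_forall fun u => abs_nonneg _) (hi habs _ _)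
    linarith
  -- upper bound
  have u1 := win_le hf hf0 hl t (t + H)
  have u2 : ∫ u in t..(t + H), Av l f u ≤ H + ∫ s in t..(t + H), |Av l f s - 1| := by
    have l3 : ∫ u in t..(t + H), Av l f u ≤ ∫ u in t..(t + H), (1 + |Av l f u - 1|) := by
      refine intervalIntegral.integral_mono_on (by linarith) (hi hAc _ _) (hi (continuous_const.add habs) _ _)
        fun u _ => ?_
      linarith [le_abs_self (Av l f u - 1)]
    rw [intervalIntegral.integral_add (by simp) (hi habs _ _), intervalIntegral.integral_const, smul_eq_mul] at l3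
    linarith
  have u3 : l * Av l f t ≤ 2 * l := by
    have := (abs_le.1 h3).2
    nlinarith
  rw [eZ, eF, abs_le]
  constructor <;> linarith

/-- Chebyshev, and the maximal inequality, in terms of the volume -/
lemma weak_vol {g : ℝ → ℝ} (hg : Continuous g) (hg0 : ∀ x, 0 ≤ g x) {l X c e : ℝ} (hl : 0 < l) (hX : 0 ≤ X)
    (hc : 0 < c) (he : 3 * ∫ s in (0:ℝ)..(X + l), g s ≤ c * e) :
    volume {t | 0 ≤ t ∧ t ≤ X ∧ ∃ H, l ≤ H ∧ t + H ≤ X ∧ c * H < ∫ s in t..(t + H), g s} ≤ ENNReal.ofReal e := by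
  have h1 := Run7.h311.LM.Wk.weak hg hg0 hl hX hc
  set S := {t | 0 ≤ t ∧ t ≤ X ∧ ∃ H, l ≤ H ∧ t + H ≤ X ∧ c * H < ∫ s in t..(t + H), g s} with hS
  have hfin : volume S ≠ ⊤ := by
    have hsub : S ⊆ Set.Icc 0 X := fun t ht => ⟨ht.1, ht.2.1⟩
    have := measure_mono (μ := volume) hsub
    rw [Real.volume_Icc] at this
    exact (this.trans_lt ENNReal.ofReal_lt_top).ne
  rw [← ENNReal.ofReal_toReal hfin]
  refine ENNReal.ofReal_le_ofReal ?_
  have h2 : volume.real S * c ≤ c * e := h1.trans he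
  have h3 : (volume S).toReal = volume.real S := rfl
  rw [h3]
  nlinarith

/-- from the mean square to the mean -/
lemma mean_of_sq {g : ℝ → ℝ} (hg : Continuous g) {X s : ℝ} (hs : 0 < s) (hX : 0 ≤ X)
    (h : ∫ t in (0:ℝ)..X, g t ^ 2 ≤ s ^ 2 * X) : ∫ t in (0:ℝ)..X, |g t| ≤ s * X := by
  have h1 : ∫ t in (0:ℝ)..X, |g t| ≤ ∫ t in (0:ℝ)..X, ((1 / (2 * s)) * g t ^ 2 + s / 2) := by
    refine intervalIntegral.integral_mono_on hX (hg.abs.intervalIntegrable _ _)
      ((continuous_const.mul (hg.pow 2)).add continuous_const |>.intervalIntegrable _ _) fun t _ => ?_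
    have h2 : 0 ≤ (|g t| - s) ^ 2 / (2 * s) := by positivity
    have h3 : (|g t| - s) ^ 2 / (2 * s) = (1 / (2 * s)) * g t ^ 2 + s / 2 - |g t| := by
      rw [sub_sq, sq_abs]
      field_simp
      ring
    linarith
  have hq : Continuous fun t => (1 / (2 * s)) * g t ^ 2 := continuous_const.mul (hg.pow 2)
  rw [intervalIntegral.integral_add (hq.intervalIntegrable _ _) (by simp), intervalIntegral.integral_const_mul,
    intervalIntegral.integral_const, smul_eq_mul] at h1
  have h4 : (1 / (2 * s)) * ∫ t in (0:ℝ)..X, g t ^ 2 ≤ (1 / (2 * s)) * (s ^ 2 * X) :=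
    mul_le_mul_of_nonneg_left h (by positivity)
  have h5 : (1 / (2 * s)) * (s ^ 2 * X) = s / 2 * X := by
    field_simp
  linarith

/-- Markov -/
lemma markov {g : ℝ → ℝ} (hg : Continuous g) (hg0 : ∀ x, 0 ≤ g x) {X e : ℝ} (hX : 0 ≤ X)
    (h : ∫ t in (0:ℝ)..X, g t ≤ e) : volume {t | 0 ≤ t ∧ t ≤ X ∧ 1 < g t} ≤ ENNReal.ofReal e := by
  have hint : IntegrableOn g (Set.Icc 0 X) := hg.integrableOn_Icc
  have h1 := mul_meas_ge_le_integral_of_nonneg (μ := volume.restrict (Set.Icc 0 X))
    (Filter.Eventually.of_forall fun x => hg0 x) hint 1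
  rw [one_mul] at h1
  have h2 : ∫ x in Set.Icc 0 X, g x = ∫ t in (0:ℝ)..X, g t := by
    rw [intervalIntegral.integral_of_le hX, ← integral_Icc_eq_integral_Ioc]
  rw [h2] at h1
  have hfin : volume {t | 0 ≤ t ∧ t ≤ X ∧ 1 < g t} ≠ ⊤ := by
    have hsub : {t | 0 ≤ t ∧ t ≤ X ∧ 1 < g t} ⊆ Set.Icc 0 X := fun t ht => ⟨ht.1, ht.2.1⟩
    have := measure_mono (μ := volume) hsub
    rw [Real.volume_Icc] at this
    exact (this.trans_lt ENNReal.ofReal_lt_top).ne
  rw [← ENNReal.ofReal_toReal hfin]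
  refine ENNReal.ofReal_le_ofReal (le_trans ?_ (h1.trans h))
  have hm : MeasurableSet {x | 1 ≤ g x} := measurableSet_le measurable_const hg.measurable
  rw [Measure.real, Measure.restrict_apply hm]
  refine ENNReal.toReal_mono ?_ (measure_mono ?_)
  · have hsub : {x | 1 ≤ g x} ∩ Set.Icc 0 X ⊆ Set.Icc 0 X := Set.inter_subset_right
    have := measure_mono (μ := volume) hsub
    rw [Real.volume_Icc] at this
    exact (this.trans_lt ENNReal.ofReal_lt_top).ne
  · rintro t ⟨a, b, c⟩
    exact ⟨c.le, a, b⟩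

end Run7.h291.WN
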