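import Pool.Agent.N748.MG.Ev
import Pool.Agent.N748.MG.Stm2

set_option autoImplicit false

/-!
# The maximum of zeta in windows near the critical line: statement of the upper bound
-/

namespace Run7.h291.WN

open Finset Filter MeasureTheory Topology Complex
open Pool.Agent.N748.MG

/-- (MAXU) the maximum of zeta in windows of length `δ^(-θ)` outside a small set of windows, upper bound.

Proof. Put `q = √(1+θ)`, `L = log (1/δ)`.
(1) the window version of `NIC` (`MG/NIC.lean`): for `D > 0` there is `ca` such that for all `C > 0`, in the sense of `Ev`,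
there are `y ≥ 2`, `K` with `C L ≤ δ log y`, `C L ≤ K`, `C (K+1) log y ≤ log X`, `∑_{p ∈ PA y} 1/p ≤ 2 L`, such that
outside a set of `t ∈ [0, X]` of measure `≤ δ^D X` one has for all `u ∈ [t, t + δ^(-D)]`:
`‖∑_{p ∈ PA y} p^(-pw δ u)‖ ≤ ca L` and `‖ζ(pw δ u) AS (-1) y K (pw δ u) - 1‖ ≤ δ^C`. It follows as in `MG/NIC.lean`,
`MG/Inp.lean`, from `HM.ZM3` (`HM.S_ZM`, `z = 2`: `Ez 2 y K s = ζ(s) AS (-1) y K s - 1`) with `HM.SUP`
(`X1 = X^(9/10)`, `X2 = 2X`), and `HM.XS2` (`z = 2`: `PP 2 y = PA y`), both already for windows.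
(2) `Φ = AS q y K` is entire, and by `MVS`, `SIZ` and `DIA2` (the terms `dS q n ^ 2` are nonnegative for real `q ≥ 0`)
`∫_0^{2X} |AS q y K (pw δ' t)|² dt ≤ C X δ^(-q²)` for `δ' ∈ [δ/2, 3δ/2]`; `HM.SUP` bounds the measure of the `t` for which
`|AS q|` reaches `κ` in the window `[t, t + δ^(-θ)]` by `C δ^(-θ) X δ^(-q²) / (δ κ²)`.
(3) at the good points `CMP` (with `s = q`) gives `| |ζ|^(2q) - |AS q|² | ≤ 1`; so `|ζ| ≥ δ^(-(q+ε))` implies
`|AS q|² ≥ δ^(-2q(q+ε)) / 4`, and the measure is `≤ C X δ^(2qε)` by `q² = 1 + θ`. -/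
def S_MAXU : Prop := ∀ θ : ℝ, 0 ≤ θ → ∀ ε : ℝ, 0 < ε → Ev fun X δ =>
  volume {t : ℝ | 0 ≤ t ∧ t ≤ X ∧ ∃ u : ℝ, t ≤ u ∧ u ≤ t + δ ^ (-θ) ∧ δ ^ (-(Real.sqrt (1 + θ) + ε)) ≤ mz δ u} ≤
    ENNReal.ofReal (ε * X)

end Run7.h291.WN
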