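import Pool.Agent.Run7.h291.WN.A10

set_option autoImplicit false

/-! All moments in almost all windows: the result -/

namespace Run7.h291.WN

open Finset Filter MeasureTheory Topology Complex
open Pool.Agent.N748.MG Pool.Agent.N748.MJ

theorem core (hM : S_MNB) (k θ D : ℝ) (hk : 0 < k) (hθ : max 1 (k ^ 2) - 1 < θ) (hD : 0 ≤ D) (ε : ℝ) (hε : 0 < ε) :
    Ev fun X δ => volume {t : ℝ | 0 ≤ t ∧ t ≤ X ∧ ∃ H : ℝ, δ ^ (-θ) ≤ H ∧ H ≤ δ ^ (-D) ∧
      ε ≤ |(1 / H) * (∫ u in t..(t + H), Zk k δ u) - 1|} ≤ ENNReal.ofReal (ε * X) := by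
  set κ : ℝ := max 1 (k ^ 2) with hκ
  have hκ1 : 1 ≤ κ := le_max_left _ _
  set θ0 : ℝ := (θ + (κ - 1)) / 2 with hθ0
  have hθ1 : κ - 1 < θ0 := by
    rw [hθ0]
    linarith
  have hθ2 : θ0 < θ := by
    rw [hθ0]
    linarith
  obtain ⟨n, η, hn, hη, Hw⟩ := win2 hM k θ0 hk hθ1
  obtain ⟨W0, HS⟩ := sup_bd k D hk hD
  set W : ℝ := max W0 (2 * k ^ 2 + 1) with hW
  set c : ℝ := ε / 8 with hc
  have hc0 : 0 < c := by positivity
  set s : ℝ := min (c * ε / 24) (ε / 8) with hs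
  have hs0 : 0 < s := lt_min (by positivity) (by positivity)
  have hs1 : s ≤ c * ε / 24 := min_le_left _ _
  have hs2 : s ≤ ε / 8 := min_le_right _ _
  set e : ℝ := min (s ^ 2) (c * ε / 48) with he
  have he0 : 0 < e := lt_min (by positivity) (by positivity)
  have he1 : e ≤ s ^ 2 := min_le_left _ _
  have he2 : e ≤ c * ε / 48 := min_le_right _ _
  refine (((((Hw W (le_max_right _ _) e he0).up.and (HS W (le_max_left _ _) (ε / 4) (by positivity))).and
    (Ev.win (D := θ0) (c := 1 / 2) (e := 1) (by norm_num) one_pos)).and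
    (Ev.win (D := D) (c := 1 / 2) (e := 1) (by norm_num) one_pos)).and
    (Ev.small (C := 2) (c := θ - θ0) (e := ε / 4) (by linarith) (by positivity))).mono ?_
  rintro X δ hX1 h0 h1 ⟨⟨⟨⟨Hw, HS⟩, w1⟩, w2⟩, s1⟩
  rw [Real.rpow_one] at w1 w2
  have hX0 : 0 < X := by linarith
  obtain ⟨E1, E2, E3⟩ := Hw (2 * X) (by linarith)
  set l : ℝ := δ ^ (-θ0) with hl
  have hl0 : 0 < l := Real.rpow_pos_of_pos h0 _
  set f : ℝ → ℝ := ff n k (k + η) W δ with hf
  have hfc : Continuous f := ff_cont hk.le h1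
  have hf0 : ∀ x, 0 ≤ f x := fun x => ff_nn h0.le x
  set F : ℝ → ℝ := FP k W δ with hF
  have hFc : Continuous F := FP_cont hk.le h1
  have hfF : ∀ x, f x ≤ F x := fun x => ff_le h0.le x
  have hAc := Av_cont (l := l) hfc
  have hg1c : Continuous fun t => |Av l f t - 1| := (hAc.sub continuous_const).abs
  -- the mean of the deviation
  have m1 : ∫ t in (0:ℝ)..(2 * X), |Av l f t - 1| ≤ s * (2 * X) :=
    mean_of_sq (g := fun t => Av l f t - 1) (hAc.sub continuous_const) hs0 (by linarith)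
      (E1.trans (mul_le_mul_of_nonneg_right he1 (by linarith)))
  have m2 : ∫ t in (0:ℝ)..(2 * X), (F t - f t) ≤ 2 * e * (2 * X) := by
    rw [intervalIntegral.integral_sub (hFc.intervalIntegrable _ _) (hfc.intervalIntegrable _ _)]
    linarith
  have m3 : ∫ t in (0:ℝ)..X, |Av l f t - 1| ≤ s * (2 * X) := by
    refine le_trans ?_ m1
    exact intervalIntegral.integral_mono_interval le_rfl hX0.le (by linarith)
      (Filter.Eventually.of_forall fun u => abs_nonneg _) (hg1c.intervalIntegrable _ _)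
  have hX2 : 2 * X - l + l = 2 * X := by ring
  have b1 := weak_vol (g := fun t => |Av l f t - 1|) hg1c (fun t => abs_nonneg _) (l := l) (X := 2 * X - l) (c := c)
    (e := ε / 4 * X) hl0 (by linarith) hc0 (by
      rw [hX2]
      nlinarith)
  have b2 := weak_vol (g := fun t => F t - f t) (hFc.sub hfc) (fun t => by linarith [hfF t]) (l := l)
    (X := 2 * X - l) (c := c) (e := ε / 4 * X) hl0 (by linarith) hc0 (by
      rw [hX2]
      nlinarith)
  have b3 := markov (g := fun t => |Av l f t - 1|) hg1c (fun t => abs_nonneg _) (X := X) (e := ε / 4 * X) hX0.le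
    (m3.trans (by nlinarith))
  set S1 := {t | 0 ≤ t ∧ t ≤ 2 * X - l ∧ ∃ H, l ≤ H ∧ t + H ≤ 2 * X - l ∧ c * H < ∫ s in t..(t + H), |Av l f s - 1|}
    with hS1
  set S2 := {t | 0 ≤ t ∧ t ≤ 2 * X - l ∧ ∃ H, l ≤ H ∧ t + H ≤ 2 * X - l ∧ c * H < ∫ s in t..(t + H), (F s - f s)}
    with hS2
  set S3 := {t | 0 ≤ t ∧ t ≤ X ∧ 1 < |Av l f t - 1|} with hS3
  set S4 := {t : ℝ | 0 ≤ t ∧ t ≤ X ∧ ∃ u : ℝ, t ≤ u ∧ u ≤ t + δ ^ (-D) ∧ δ ^ (-W) < Zk k δ u} with hS4
  have hsub : {t : ℝ | 0 ≤ t ∧ t ≤ X ∧ ∃ H : ℝ, δ ^ (-θ) ≤ H ∧ H ≤ δ ^ (-D) ∧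
      ε ≤ |(1 / H) * (∫ u in t..(t + H), Zk k δ u) - 1|} ⊆ (S1 ∪ S2) ∪ (S3 ∪ S4) := by
    rintro t ⟨t0, t1, H, hH1, hH2, hH3⟩
    by_contra hcon
    simp only [Set.mem_union, not_or] at hcon
    obtain ⟨⟨c1, c2⟩, c3, c4⟩ := hcon
    have hHp : 0 < H := lt_of_lt_of_le (Real.rpow_pos_of_pos h0 _) hH1
    have hlθ : l ≤ δ ^ (-θ) := Real.rpow_le_rpow_of_exponent_ge h0 (by linarith) (by linarith)
    have hlH : l ≤ H := hlθ.trans hH1
    have d1 : ∫ s in t..(t + H), |Av l f s - 1| ≤ c * H := by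
      by_contra h
      exact c1 ⟨t0, by linarith, H, hlH, by linarith, not_le.1 h⟩
    have d2 : ∫ s in t..(t + H), (F s - f s) ≤ c * H := by
      by_contra h
      exact c2 ⟨t0, by linarith, H, hlH, by linarith, not_le.1 h⟩
    have d3 : |Av l f t - 1| ≤ 1 := by
      by_contra h
      exact c3 ⟨t0, t1, not_le.1 h⟩
    have d4 : ∀ u ∈ Set.Icc t (t + H), Zk k δ u = F u := by
      intro u hu
      have h2 : Zk k δ u ≤ δ ^ (-W) := by
        by_contra h
        exact c4 ⟨t0, t1, u, hu.1, hu.2.trans (by linarith), not_le.1 h⟩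
      show Zk k δ u = FP k W δ u
      unfold FP
      rw [min_eq_left h2]
    have hdet := det (Z := Zk k δ) hFc hfc hf0 hfF hl0 hlH d4 d1 d2 d3
    have h5 : (1 / H) * (∫ u in t..(t + H), Zk k δ u) - 1 = (1 / H) * ((∫ u in t..(t + H), Zk k δ u) - H) := by
      field_simp
    rw [h5, abs_mul, abs_of_pos (by positivity : 0 < 1 / H)] at hH3
    have h6 : 2 * l ≤ ε / 4 * H := by
      have h7 : l = δ ^ (θ - θ0) * δ ^ (-θ) := by
        rw [hl, ← Real.rpow_add h0]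
        congr 1
        ring
      have h8 : 0 < δ ^ (-θ) := Real.rpow_pos_of_pos h0 _
      rw [h7]
      calc 2 * (δ ^ (θ - θ0) * δ ^ (-θ)) = (2 * δ ^ (θ - θ0)) * δ ^ (-θ) := by ring
        _ ≤ ε / 4 * δ ^ (-θ) := mul_le_mul_of_nonneg_right s1 h8.le
        _ ≤ ε / 4 * H := mul_le_mul_of_nonneg_left hH1 (by positivity)
    have h9 : (1 / H) * |(∫ u in t..(t + H), Zk k δ u) - H| ≤ (1 / H) * (ε / 2 * H) := by
      refine mul_le_mul_of_nonneg_left (hdet.trans ?_) (by positivity)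
      rw [hc]
      linarith
    have h10 : (1 / H) * (ε / 2 * H) = ε / 2 := by
      field_simp
    linarith
  refine (measure_mono hsub).trans ((measure_union_le _ _).trans
    ((add_le_add (measure_union_le _ _) (measure_union_le _ _)).trans
      ((add_le_add (add_le_add b1 b2) (add_le_add b3 HS)).trans ?_)))
  have hq : 0 ≤ ε / 4 * X := by positivity
  rw [← ENNReal.ofReal_add hq hq, ← ENNReal.ofReal_add (by positivity) (by positivity)]
  refine ENNReal.ofReal_le_ofReal (le_of_eq ?_)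
  ring

end Run7.h291.WN
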