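import Pool.Agent.N748.MJ.Stm

set_option autoImplicit false

/-!
# The moments of zeta of all orders in almost all windows near the critical line: statements of the parts

Notation of the starting library `Pool/Agent/N748/MG`, `MJ`: `pw δ t = 1/2 + δ + i t`, `mz δ t = ‖ζ(pw δ t)‖`, `aC k` is
the arithmetic factor `a(k)`, `aV` the arithmetic factor of the shifted moments, `Ad d` says that `d T → 0` and
`d T log T / log² (1/d T) → ∞`.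

Everything is for `k > 0` real; `Zk k δ u = |ζ(1/2+δ+iu)|^(2k) (2δ)^(k²) / a(k)`.
-/

namespace Run7.h291.WN

open Finset Filter MeasureTheory Topology Complex
open Pool.Agent.N748.MG Pool.Agent.N748.MJ

/-- zeta without the primes below `z`, at `1 + 2δ + i h` -/
noncomputable def zz (z : ℕ) (δ h : ℝ) : ℂ :=
  riemannZeta (1 + 2 * δ + h * I) * ∏ p ∈ (range z).filter Nat.Prime, (1 - (p:ℂ) ^ (-(1 + 2 * δ + h * I : ℂ)))

/-- (ZML) moments of zeta without the small primes near the line `1`.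

Proof. Let `s = σ + i h`, `σ = 1 + 2δ ∈ (1, 9/8]`, `1 ≤ h ≤ H`, `m ≥ Q / 2` an integer, `N = ⌈H²⌉`, `P` the set of the
primes below `z`.
(1) `‖ζ(s) - ∑_{n ≤ N} n^{-s}‖ ≤ C (1/h + |s|/N)` for all `N ≥ 1` (compare `n^{-s}` with `∫_{n-1}^n u^{-s} du`, `n > N`).
(2) By induction on the set `P` of primes: `‖ζ(s) ∏_{p ∈ P} (1 - p^{-s}) - ∑_{n ≤ N, no p ∈ P divides n} n^{-s}‖ ≤
C_P (1/h + |s|/N)` for all `N ≥ 1` (split off the multiples of the new prime `q`: `n = q m`, `m ≤ N / q`).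
(3) Let `G(h) = ∑_{n ≤ N, (n, P) = 1} n^{-s}`; then `|G| ≤ 2 + log N`, `|zz - G| ≤ C_z / h`, so
`∫_1^H |zz^m - G^m|² dh ≤ C_z (log H)^{2m-2} = o(H)`.
(4) `G^m - 1 = ∑_{z ≤ n ≤ N^m} c(n) n^{-s}` with `|c(n)| ≤ τ(n)^m ≤ C n^ε` (divisor bound: for instance
`Pool.Agent.Helper112.divisor_bound`), and `∫_0^H |∑ c(n) n^{-s}|² dh ≤ H ∑ |c(n)|² n^{-2σ} +
∑_{n ≠ n'} |c(n) c(n')| (n n')^{-σ} · 2 / |log (n/n')| ≤ H C z^{-1/2} + C (N^m)^{4ε}`, with `ε` so small that the last term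
is `≤ C H^{1/2}`.
(5) for `0 ≤ q ≤ 2m`: `max (|x|^q - 1) 0 ≤ 2 |x^m - 1| + |x^m - 1|²`; Cauchy-Schwarz. -/
def S_ZML : Prop := ∀ Q : ℝ, 0 ≤ Q → ∃ c C : ℝ, 0 < c ∧ 0 < C ∧ ∀ z : ℕ, 2 ≤ z → ∃ H0 : ℝ, 1 ≤ H0 ∧ ∀ H ≥ H0,
  ∀ δ : ℝ, 0 < δ → δ ≤ 1 / 16 → ∀ q : ℝ, 0 ≤ q → q ≤ Q →
  ∫ h in (1:ℝ)..H, max (‖zz z δ h‖ ^ q - 1) 0 ≤ C * (z:ℝ) ^ (-c) * H

/-- the two-point function (divided by the product of the means) in the limit `T → ∞` -/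
noncomputable def B2 (k δ h : ℝ) : ℝ :=
  (aV (fun _ : Fin 2 => (k : ℂ)) (fun _ : Fin 2 => (k : ℂ)) ![0, h]).re / (aC k).re ^ 2 *
    ‖riemannZeta (1 + 2 * δ + h * I)‖ ^ (2 * k ^ 2)

/-- (MNB) the mean of the two-point function over long intervals is at most one.

Proof. `aV (k,k) (k,k) (0,h) = ∏_p gV_p(h)`, `aC k = ∏_p g_p`, `g_p = (1-1/p)^{k²} ∑ l(m)² p^{-m}`,
`gV_p(h) = (1-1/p)^{2k²} |1 - p^{-1-ih}|^{2k²} ∑_m |∑_{i+j=m} l(i) l(j) p^{-ijh...}|² p^{-m}`, so that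
`gV_p(h) / g_p² = |1 - p^{-1-ih}|^{2k²} R_p(h)`, where `R_p(h) = r_p(h log p / 2π)` for a continuous function `r_p` on the
circle with mean one (orthogonality and the Cauchy product). For `p ≥ z` one has `gV_p / g_p² ≤ 1 + C / p²` (`gvbF`), and
for fixed `z` the product `∏_{p<z} |1 - p^{-1-ih}|^{2k²}` differs from `∏_{p<z} |1 - p^{-1-2δ-ih}|^{2k²}` by a factor which
tends to one uniformly in `h` as `δ → 0`. Hence `B2 ≤ (1+ε) (∏_{p<z} R_p(h)) ‖zz z δ h‖^{2k²}`,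
`∏_{p<z} R_p ≤ (C log z)^C`, its mean over long intervals is one (`Pool.Agent.N748.GC.ERG`), and `S_ZML` with `z`
large. -/
def S_MNB : Prop := ∀ k : ℝ, 0 < k → ∀ ε : ℝ, 0 < ε → ∃ C δ0 : ℝ, 0 < C ∧ 0 < δ0 ∧ ∀ δ : ℝ, 0 < δ → δ ≤ δ0 →
  ∀ x : ℝ, 1 ≤ x → ∫ h in (1:ℝ)..x, B2 k δ h ≤ (1 + ε) * x + C

end Run7.h291.WN
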