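import Pool.Agent.Run7.h291.WN.A2
import Pool.Agent.Run7.h291.WN.Stm

set_option autoImplicit false

/-! The truncated weights, and their two-point functions -/

namespace Run7.h291.WN

open Finset Filter MeasureTheory Topology Complex
open Pool.Agent.N748.MG Pool.Agent.N748.MJ

/-- the normalised power of zeta -/
noncomputable def Zk (k δ u : ℝ) : ℝ := (2 * δ) ^ (k ^ 2) / akR k * mz δ u ^ (2 * k)

/-- a cut-off function -/
noncomputable def psi (x : ℝ) : ℝ := min 1 (max 0 (2 - x))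

/-- the barrier at the scale `δ^x` -/
noncomputable def bar (n : ℕ) (v δ x t : ℝ) : ℝ := δ ^ (x * v) * ∏ j : Fin n, mz δ (t + sh n δ x j) ^ ((1:ℝ) / n)

/-- the truncated power of zeta -/
noncomputable def FP (k W δ u : ℝ) : ℝ := min (Zk k δ u) (δ ^ (-W))

/-- the truncated power of zeta below the barrier -/
noncomputable def ff (n : ℕ) (k v W δ u : ℝ) : ℝ :=
  FP k W δ u * ∏ i : Fin n, psi (bar n v δ ((((i:ℕ):ℝ) + 1) / n) u)

lemma akp (k : ℝ) : 0 < akR k := (aC_akR k).1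

lemma Zk_nn {k δ : ℝ} (h0 : 0 ≤ δ) (u : ℝ) : 0 ≤ Zk k δ u :=
  mul_nonneg (div_nonneg (Real.rpow_nonneg (by linarith) _) (akp k).le) (Real.rpow_nonneg (TMA.mz_nn _ _) _)

lemma Zk_cont {k δ : ℝ} (hk : 0 ≤ k) (h1 : δ ≤ 1 / 16) : Continuous fun u => Zk k δ u := by
  unfold Zk
  exact continuous_const.mul ((TMA.cont h1).rpow_const fun t => Or.inr (by linarith))

lemma psi_nn (x : ℝ) : 0 ≤ psi x := le_min zero_le_one (le_max_left _ _)
lemma psi_le (x : ℝ) : psi x ≤ 1 := min_le_left _ _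
lemma psi_cont : Continuous psi := by unfold psi; fun_prop
lemma psi_one {x : ℝ} (h : x ≤ 1) : psi x = 1 := by
  unfold psi
  rw [max_eq_right (by linarith), min_eq_left (by linarith)]
lemma psi_zero {x : ℝ} (h : 2 ≤ x) : psi x = 0 := by
  unfold psi
  rw [max_eq_left (by linarith), min_eq_right zero_le_one]

/-- `ψ(x) ≤ (2/x)^a` -/
lemma psi_up {x a : ℝ} (hx : 0 < x) (ha : 0 ≤ a) : psi x ≤ 2 ^ a * x ^ (-a) := by
  rw [Real.rpow_neg hx.le, ← div_eq_mul_inv, ← Real.div_rpow (by norm_num) hx.le]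
  rcases le_or_gt 2 x with h | h
  · rw [psi_zero h]
    positivity
  · exact (psi_le x).trans (Real.one_le_rpow (by rw [one_le_div hx]; exact h.le) ha)

/-- `1 - ψ(x) ≤ x^a` -/
lemma psi_lo {x a : ℝ} (hx : 0 ≤ x) (ha : 0 ≤ a) : 1 - psi x ≤ x ^ a := by
  rcases le_or_gt x 1 with h | h
  · rw [psi_one h, sub_self]
    exact Real.rpow_nonneg hx _
  · exact (by linarith [psi_nn x] : 1 - psi x ≤ 1).trans (Real.one_le_rpow h.le ha)

lemma bar_nn {n : ℕ} {v δ x : ℝ} (h0 : 0 ≤ δ) (t : ℝ) : 0 ≤ bar n v δ x t :=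
  mul_nonneg (Real.rpow_nonneg h0 _) (Finset.prod_nonneg fun j _ => Real.rpow_nonneg (TMA.mz_nn _ _) _)

lemma bar_cont {n : ℕ} {v δ x : ℝ} (h1 : δ ≤ 1 / 16) : Continuous fun t => bar n v δ x t := by
  unfold bar
  refine continuous_const.mul (continuous_finsetProd _ fun j _ => ?_)
  exact ((TMA.cont h1).comp (by fun_prop)).rpow_const fun t => Or.inr (by positivity)

/-- powers of the barrier -/
lemma bar_rpow {n : ℕ} {v δ x t a : ℝ} (h0 : 0 < δ) (ht : ∀ j, 0 < mz δ (t + sh n δ x j)) :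
    bar n v δ x t ^ a = δ ^ (x * v * a) * ∏ j : Fin n, mz δ (t + sh n δ x j) ^ (a / n) := by
  unfold bar
  rw [Real.mul_rpow (Real.rpow_nonneg h0.le _) (Finset.prod_nonneg fun j _ => Real.rpow_nonneg (TMA.mz_nn _ _) _),
    ← Real.rpow_mul h0.le, ← Real.finsetProd_rpow _ _ fun j _ => Real.rpow_nonneg (TMA.mz_nn _ _) _]
  congr 1
  refine Finset.prod_congr rfl fun j _ => ?_
  rw [← Real.rpow_mul (ht j).le]
  congr 1
  ring

lemma FP_nn {k W δ : ℝ} (h0 : 0 ≤ δ) (u : ℝ) : 0 ≤ FP k W δ u := le_min (Zk_nn h0 u) (Real.rpow_nonneg h0 _)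
lemma FP_le {k W δ : ℝ} (u : ℝ) : FP k W δ u ≤ Zk k δ u := min_le_left _ _
lemma FP_le' {k W δ : ℝ} (u : ℝ) : FP k W δ u ≤ δ ^ (-W) := min_le_right _ _
lemma FP_cont {k W δ : ℝ} (hk : 0 ≤ k) (h1 : δ ≤ 1 / 16) : Continuous fun u => FP k W δ u := by
  unfold FP
  exact (Zk_cont hk h1).min continuous_const

lemma prod_psi_nn {n : ℕ} {v δ u : ℝ} : 0 ≤ ∏ i : Fin n, psi (bar n v δ ((((i:ℕ):ℝ) + 1) / n) u) :=
  Finset.prod_nonneg fun i _ => psi_nn _

lemma prod_psi_le {n : ℕ} {v δ u : ℝ} : ∏ i : Fin n, psi (bar n v δ ((((i:ℕ):ℝ) + 1) / n) u) ≤ 1 :=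
  Finset.prod_le_one (fun i _ => psi_nn _) fun i _ => psi_le _

lemma prod_psi_le' {n : ℕ} {v δ u : ℝ} (i : Fin n) : ∏ i : Fin n, psi (bar n v δ ((((i:ℕ):ℝ) + 1) / n) u) ≤
    psi (bar n v δ ((((i:ℕ):ℝ) + 1) / n) u) := by
  rw [← Finset.mul_prod_erase Finset.univ _ (Finset.mem_univ i)]
  refine mul_le_of_le_one_right (psi_nn _) ?_
  exact Finset.prod_le_one (fun i _ => psi_nn _) fun i _ => psi_le _

/-- a union bound -/
lemma one_sub_prod {ι : Type*} [DecidableEq ι] (S : Finset ι) (p : ι → ℝ) (h0 : ∀ i, 0 ≤ p i) (h1 : ∀ i, p i ≤ 1) :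
    1 - ∏ i ∈ S, p i ≤ ∑ i ∈ S, (1 - p i) := by
  induction S using Finset.induction_on with
  | empty => simp
  | insert a S ha ih =>
    rw [Finset.prod_insert ha, Finset.sum_insert ha]
    have h2 : ∏ i ∈ S, p i ≤ 1 := Finset.prod_le_one (fun i _ => h0 i) fun i _ => h1 i
    have h3 : 0 ≤ ∏ i ∈ S, p i := Finset.prod_nonneg fun i _ => h0 i
    nlinarith [h0 a, h1 a]

lemma ff_nn {n : ℕ} {k v W δ : ℝ} (h0 : 0 ≤ δ) (u : ℝ) : 0 ≤ ff n k v W δ u := mul_nonneg (FP_nn h0 u) prod_psi_nn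
lemma ff_le {n : ℕ} {k v W δ : ℝ} (h0 : 0 ≤ δ) (u : ℝ) : ff n k v W δ u ≤ FP k W δ u :=
  mul_le_of_le_one_right (FP_nn h0 u) prod_psi_le
lemma ff_cont {n : ℕ} {k v W δ : ℝ} (hk : 0 ≤ k) (h1 : δ ≤ 1 / 16) : Continuous fun u => ff n k v W δ u := by
  unfold ff
  exact (FP_cont hk h1).mul (continuous_finsetProd _ fun i _ => psi_cont.comp (bar_cont h1))

/-- the comparison of an integral over `[0, X]` with an integral over a large subset -/
lemma offN {g G : ℝ → ℝ} {N : Set ℝ} {X B c v : ℝ} (hX : 0 ≤ X) (hN : MeasurableSet N) (hNX : N ⊆ Set.Icc 0 X)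
    (hvol : volume (Set.Icc 0 X \ N) ≤ ENNReal.ofReal v) (hv : 0 ≤ v) (hg : Continuous g) (hg0 : ∀ t, 0 ≤ g t)
    (hgB : ∀ t, g t ≤ B) (hG : IntegrableOn G N) (h : ∀ t ∈ N, g t ≤ c * G t) :
    ∫ t in (0:ℝ)..X, g t ≤ c * (∫ t in N, G t) + B * v := by
  have hB : 0 ≤ B := (hg0 0).trans (hgB 0)
  rw [intervalIntegral.integral_of_le hX, ← integral_Icc_eq_integral_Ioc]
  have hgI : IntegrableOn g (Set.Icc 0 X) := hg.integrableOn_Icc
  have e1 : (∫ t in Set.Icc 0 X, g t) = (∫ t in N, g t) + ∫ t in Set.Icc 0 X \ N, g t := by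
    have := (integral_inter_add_sdiff hN hgI).symm
    rwa [Set.inter_eq_right.2 hNX] at this
  have i1 : 0 ≤ ∫ t in Set.Icc 0 X \ N, g t := integral_nonneg fun t => hg0 t
  have i3 : ∫ t in Set.Icc 0 X \ N, g t ≤ B * v := by
    have hv2 : volume (Set.Icc 0 X \ N) < ⊤ := hvol.trans_lt ENNReal.ofReal_lt_top
    have h5 := norm_setIntegral_le_of_norm_le_const (f := g) hv2 (C := B) fun t _ => by
      rw [Real.norm_of_nonneg (hg0 t)]
      exact hgB t
    rw [Real.norm_of_nonneg i1] at h5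
    refine h5.trans (mul_le_mul_of_nonneg_left ?_ hB)
    exact ENNReal.toReal_le_of_le_ofReal hv hvol
  have i4 : ∫ t in N, g t ≤ c * ∫ t in N, G t := by
    rw [← integral_const_mul]
    exact setIntegral_mono_on (hgI.mono_set hNX) (hG.const_mul c) hN h
  rw [e1]
  linarith

end Run7.h291.WN
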