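import Pool.Agent.N748.MJ.Fin
import Pool.Agent.N748.MG.Res

set_option autoImplicit false

/-! zeta near the line `1` and near its pole; real joint moments outside tiny sets -/

namespace Run7.h291.WN

open Finset Filter MeasureTheory Topology Complex
open Pool.Agent.N748.MG Pool.Agent.N748.MJ

/-- `(s - 1) ζ(s)`, with the value `1` at `1` -/
noncomputable def Z1 : ℂ → ℂ := Function.update (fun s => (s - 1) * riemannZeta s) 1 1

lemma Z1_cont : Continuous Z1 := by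
  rw [continuous_iff_continuousAt]
  intro s
  by_cases hs : s = 1
  · subst hs
    unfold Z1
    rw [continuousAt_update_same]
    exact riemannZeta_residue_one
  · unfold Z1
    rw [continuousAt_update_of_ne hs]
    exact ((continuous_id.sub continuous_const).continuousAt).mul (differentiableAt_riemannZeta hs).continuousAt

lemma Z1_ne {s : ℂ} (hs : 1 ≤ s.re) : Z1 s ≠ 0 := by
  unfold Z1
  by_cases h1 : s = 1
  · subst h1
    rw [Function.update_self]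
    exact one_ne_zero
  · rw [Function.update_of_ne h1]
    exact mul_ne_zero (sub_ne_zero.2 h1) (riemannZeta_ne_zero_of_one_le_re hs)

lemma Z1_bd (U : ℝ) : ∃ c C : ℝ, 0 < c ∧ 0 < C ∧ ∀ δ : ℝ, 0 ≤ δ → δ ≤ 1 / 16 → ∀ u : ℝ, |u| ≤ U →
    c ≤ ‖Z1 (((1 + 2 * δ : ℝ) : ℂ) + u * I)‖ ∧ ‖Z1 (((1 + 2 * δ : ℝ) : ℂ) + u * I)‖ ≤ C := by
  set K : Set (ℝ × ℝ) := Set.Icc 0 (1 / 16) ×ˢ Set.Icc (-U) U with hK
  have hKc : IsCompact K := isCompact_Icc.prod isCompact_Icc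
  have hf : Continuous fun q : ℝ × ℝ => ‖Z1 (((1 + 2 * q.1 : ℝ) : ℂ) + q.2 * I)‖ := by
    refine (Z1_cont.comp ?_).norm
    fun_prop
  rcases K.eq_empty_or_nonempty with he | hne
  · refine ⟨1, 1, one_pos, one_pos, fun δ h0 h1 u hu => ?_⟩
    have : (δ, u) ∈ K := ⟨⟨h0, h1⟩, abs_le.1 hu⟩
    rw [he] at this
    exact absurd this (Set.notMem_empty _)
  · obtain ⟨a, ha, ha2⟩ := hKc.exists_isMinOn hne hf.continuousOn
    obtain ⟨b, hb, hb2⟩ := hKc.exists_isMaxOn hne hf.continuousOn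
    have hpos : ∀ q ∈ K, 0 < ‖Z1 (((1 + 2 * q.1 : ℝ) : ℂ) + q.2 * I)‖ := by
      intro q hq
      rw [norm_pos_iff]
      refine Z1_ne ?_
      have h1 := hq.1.1
      simp
      linarith
    refine ⟨_, _, hpos a ha, hpos b hb, fun δ h0 h1 u hu => ?_⟩
    have hm : (δ, u) ∈ K := ⟨⟨h0, h1⟩, abs_le.1 hu⟩
    exact ⟨ha2 hm, hb2 hm⟩

/-- `log |ζ(1 + 2δ + iu)|` -/
lemma LZre {δ : ℝ} (h0 : 0 < δ) (h1 : δ ≤ 1 / 16) (u : ℝ) :
    Real.exp ((LZ (1 + 2 * δ) u).re) = ‖riemannZeta (((1 + 2 * δ : ℝ) : ℂ) + u * I)‖ := by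
  rw [← (LZB.main δ h0 h1 u).2, Complex.norm_exp]

lemma norm_s {δ : ℝ} (h0 : 0 < δ) (u : ℝ) : max |u| δ ≤ ‖((2 * δ : ℝ) : ℂ) + u * I‖ ∧
    ‖((2 * δ : ℝ) : ℂ) + u * I‖ ≤ 3 * max |u| δ := by
  have hre : (((2 * δ : ℝ) : ℂ) + u * I).re = 2 * δ := by simp
  have him : (((2 * δ : ℝ) : ℂ) + u * I).im = u := by simp
  refine ⟨max_le ?_ ?_, ?_⟩
  · have := Complex.abs_im_le_norm (((2 * δ : ℝ) : ℂ) + u * I)
    rwa [him] at this
  · have := Complex.abs_re_le_norm (((2 * δ : ℝ) : ℂ) + u * I)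
    rw [hre, abs_of_pos (by linarith)] at this
    linarith
  · refine (norm_add_le _ _).trans ?_
    rw [norm_mul, Complex.norm_I, mul_one, Complex.norm_real, Complex.norm_real, Real.norm_eq_abs, Real.norm_eq_abs,
      abs_of_pos (by linarith : 0 < 2 * δ)]
    have h1 := le_max_left |u| δ
    have h2 := le_max_right |u| δ
    linarith

lemma LZre_bd (U : ℝ) : ∃ C : ℝ, 0 ≤ C ∧ ∀ δ : ℝ, 0 < δ → δ ≤ 1 / 16 → ∀ u : ℝ, |u| ≤ U →
    |(LZ (1 + 2 * δ) u).re - Real.log (1 / max |u| δ)| ≤ C := by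
  obtain ⟨c, C, hc, hC, h⟩ := Z1_bd U
  refine ⟨|Real.log c| + |Real.log C| + Real.log 3, by positivity, fun δ h0 h1 u hu => ?_⟩
  obtain ⟨g1, g2⟩ := h δ h0.le h1 u hu
  obtain ⟨m1, m2⟩ := norm_s h0 u
  have hM : 0 < max |u| δ := lt_of_lt_of_le h0 (le_max_right _ _)
  set s : ℂ := ((1 + 2 * δ : ℝ) : ℂ) + u * I with hs
  have hs1 : s - 1 = ((2 * δ : ℝ) : ℂ) + u * I := by
    rw [hs]
    push_cast
    ring
  have hne : s ≠ 1 := by
    intro h2
    rw [h2, sub_self] at hs1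
    rw [← hs1, norm_zero] at m1
    linarith
  have hZ : ‖Z1 s‖ = ‖s - 1‖ * ‖riemannZeta s‖ := by
    unfold Z1
    rw [Function.update_of_ne hne, norm_mul]
  have hl : (LZ (1 + 2 * δ) u).re = Real.log ‖riemannZeta s‖ := by
    rw [← LZre h0 h1 u, Real.log_exp]
  have hsp : 0 < ‖s - 1‖ := norm_pos_iff.2 (sub_ne_zero.2 hne)
  have hzp : 0 < ‖riemannZeta s‖ := by
    rw [← LZre h0 h1 u]
    exact Real.exp_pos _
  have hlog : Real.log ‖Z1 s‖ = Real.log ‖s - 1‖ + Real.log ‖riemannZeta s‖ := by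
    rw [hZ, Real.log_mul hsp.ne' hzp.ne']
  have hZp : 0 < ‖Z1 s‖ := lt_of_lt_of_le hc g1
  have l1 := Real.log_le_log hc g1
  have l2 := Real.log_le_log hZp g2
  rw [← hs1] at m1 m2
  have l3 := Real.log_le_log hM m1
  have l4 := Real.log_le_log hsp m2
  rw [Real.log_mul (by norm_num) hM.ne'] at l4
  rw [hl, one_div, Real.log_inv, abs_le]
  have a1 := neg_abs_le (Real.log c)
  have a2 := le_abs_self (Real.log C)
  have a3 := abs_nonneg (Real.log c)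
  have a4 := abs_nonneg (Real.log C)
  have a5 : 0 ≤ Real.log 3 := Real.log_nonneg (by norm_num)
  constructor <;> linarith

/-- the main term as an exponential -/
lemma exp_Lr {m : ℕ} (k h : Fin m → ℝ) {δ : ℝ} (h0 : 0 < δ) (h1 : δ ≤ 1 / 16) :
    Real.exp (SM.Lr k h δ) = ∏ j, ∏ l, ‖riemannZeta (((1 + 2 * δ : ℝ) : ℂ) + ((h j - h l : ℝ) : ℂ) * I)‖ ^
      (k j * k l) := by
  unfold SM.Lr
  rw [Real.exp_sum]
  refine Finset.prod_congr rfl fun j _ => ?_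
  rw [Real.exp_sum]
  refine Finset.prod_congr rfl fun l _ => ?_
  rw [← LZre h0 h1 (h j - h l), ← Real.exp_mul]
  congr 1
  ring

/-- (JM) for real exponents -/
theorem jmr (m : ℕ) (R D : ℝ) (hR : 0 < R) (hD : 0 < D) : ∃ c C : ℝ, 0 < c ∧ 0 < C ∧ ∀ ε : ℝ, 0 < ε →
    Ev fun X δ => ∀ h : Fin m → ℝ, (∀ j, |h j| ≤ X ^ ((1:ℝ) / 2)) →
    ∃ N : Set ℝ, MeasurableSet N ∧ N ⊆ Set.Icc 0 X ∧ volume (Set.Icc 0 X \ N) ≤ ENNReal.ofReal (δ ^ D * X) ∧
      (∀ t ∈ N, ∀ j, 0 < mz δ (t + h j)) ∧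
      ∀ k : Fin m → ℝ, (∀ j, |k j| ≤ R) → ∃ a : ℝ, c ≤ a ∧ a ≤ C ∧
        aV (fun j => (k j : ℂ)) (fun j => (k j : ℂ)) h = a ∧
        IntegrableOn (fun t => SM.G k h δ t) N ∧
        |(∫ t in N, SM.G k h δ t) - X * (a * Real.exp (SM.Lr k h δ))| ≤ ε * (X * Real.exp (SM.Lr k h δ)) := by
  obtain ⟨c, C, hc, hC, hcC⟩ := posF m R hR.le
  refine ⟨c, C, hc, hC, fun ε hε => ?_⟩
  set ε0 : ℝ := min ε (c / 2) with hε0
  have hε0p : 0 < ε0 := lt_min hε (by positivity)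
  refine (jmF m R D hR hD ε0 hε0p).mono ?_
  intro X δ hX hδ hδ1 H h hh
  obtain ⟨N, n1, n2, n3, n4, n5⟩ := H h hh
  refine ⟨N, n1, n2, n3, fun t ht j => norm_pos_iff.2 (n4 t ht j), fun k hk => ?_⟩
  obtain ⟨hCu, hcl⟩ := hcC h
  obtain ⟨a, ha1, ha2⟩ := hcl k hk
  have hn : ∀ j, ‖((k j : ℝ) : ℂ)‖ ≤ R := by
    intro j
    rw [Complex.norm_real, Real.norm_eq_abs]
    exact hk j
  have ha3 : a ≤ C := by
    have h1 := hCu (fun j => (k j : ℂ)) (fun j => (k j : ℂ)) hn hn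
    rw [ha2, Complex.norm_real, Real.norm_of_nonneg (hc.le.trans ha1)] at h1
    exact h1
  have hX0 : 0 < X := by linarith
  have hf := SM.real_form (k := k) (h := h) (δ := δ) (T := X) (a := a) (ε := ε0) (N := N) hX0 (hc.le.trans ha1) ha2
    (n5 (SM.cc k) (fun _ => 0) hn (fun j => by simpa using hR.le))
  have he := Real.exp_pos (SM.Lr k h δ)
  refine ⟨a, ha1, ha3, ha2, ?_, ?_⟩
  · by_contra hcon
    have h0 : ∫ t in N, SM.G k h δ t = 0 := integral_undef hcon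
    rw [h0, mul_zero, zero_sub, abs_neg] at hf
    have h1 := le_abs_self (X * a)
    have h2 : ε0 ≤ c / 2 := min_le_right _ _
    nlinarith
  · have h1 : (∫ t in N, SM.G k h δ t) - X * (a * Real.exp (SM.Lr k h δ)) =
        Real.exp (SM.Lr k h δ) * (Real.exp (-(SM.Lr k h δ)) * (∫ t in N, SM.G k h δ t) - X * a) := by
      rw [Real.exp_neg]
      field_simp
    rw [h1, abs_mul, abs_of_pos he]
    calc Real.exp (SM.Lr k h δ) * |Real.exp (-(SM.Lr k h δ)) * (∫ t in N, SM.G k h δ t) - X * a|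
        ≤ Real.exp (SM.Lr k h δ) * (ε0 * X) := mul_le_mul_of_nonneg_left hf he.le
      _ ≤ Real.exp (SM.Lr k h δ) * (ε * X) := by
          refine mul_le_mul_of_nonneg_left (mul_le_mul_of_nonneg_right (min_le_left _ _) hX0.le) he.le
      _ = ε * (X * Real.exp (SM.Lr k h δ)) := by ring

end Run7.h291.WN
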