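import Pool.Agent.Run7.h291.WN.A11

set_option autoImplicit false

/-! Truncated moments in all windows -/

namespace Run7.h291.WN

open Finset Filter MeasureTheory Topology Complex
open Pool.Agent.N748.MG Pool.Agent.N748.MJ

/-- the tail of the weight -/
noncomputable def UT (k V γ W δ u : ℝ) : ℝ := min (Zk k δ u * (δ ^ V * mz δ u) ^ (2 * γ)) (δ ^ (-W))

open Classical in
/-- the weight on the set where zeta is at most `δ^(-V)` -/
noncomputable def TZ (k V δ u : ℝ) : ℝ := if mz δ u ≤ δ ^ (-V) then Zk k δ u else 0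

lemma UT_cont {k V γ W δ : ℝ} (hk : 0 ≤ k) (hγ : 0 ≤ γ) (h1 : δ ≤ 1 / 16) : Continuous fun u => UT k V γ W δ u := by
  unfold UT
  refine Continuous.min ((Zk_cont hk h1).mul ?_) continuous_const
  exact (continuous_const.mul (TMA.cont h1)).rpow_const fun t => Or.inr (by linarith)

lemma UT_nn {k V γ W δ : ℝ} (h0 : 0 ≤ δ) (u : ℝ) : 0 ≤ UT k V γ W δ u :=
  le_min (mul_nonneg (Zk_nn h0 u) (Real.rpow_nonneg (mul_nonneg (Real.rpow_nonneg h0 _) (TMA.mz_nn _ _)) _))
    (Real.rpow_nonneg h0 _)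

/-- the mean of the tail -/
lemma UT_mean (k V W : ℝ) (hk : 0 < k) (hV : k < V) (hW : 0 ≤ W) (ε : ℝ) (hε : 0 < ε) : Ev fun X δ =>
    ∫ t in (0:ℝ)..X, UT k V (V - k) W δ t ≤ ε * X := by
  have hγ : 0 < V - k := by linarith
  have hV0 : 0 < V := by linarith
  have ha := akp k
  have haV := akp V
  set Ct : ℝ := (2:ℝ) ^ (k ^ 2) / akR k * (akR V + 1) with hCt
  have hCt0 : 0 < Ct := by positivity
  refine ((((cmr V (W + 1) 1 hV0 (by linarith) one_pos).and
    (Ev.small (C := Ct) (c := (V - k) ^ 2) (e := ε / 2) (by positivity) (by positivity))).and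
    (Ev.of_le (show 0 < ε / 2 by positivity)))).mono ?_
  rintro X δ hX1 h0 h1 ⟨⟨⟨N, n1, n2, n3, n4, n5⟩, s1⟩, hδ⟩
  have hX0 : 0 < X := by linarith
  set c : ℝ := (2 * δ) ^ (k ^ 2) / akR k * δ ^ (V * (2 * (V - k))) with hc
  have h2δ : 0 < 2 * δ := by linarith
  have hc0 : 0 < c := by
    have := Real.rpow_pos_of_pos h2δ (k ^ 2)
    have := Real.rpow_pos_of_pos h0 (V * (2 * (V - k)))
    positivity
  have hi1 : IntegrableOn (fun t => mz δ t ^ (2 * V)) N :=
    (((TMA.cont h1).rpow_const fun t => Or.inr (by positivity)).integrableOn_Icc).mono_set n2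
  have hmain := offN (g := fun t => UT k V (V - k) W δ t) (G := fun t => mz δ t ^ (2 * V)) (N := N) (X := X)
    (B := δ ^ (-W)) (c := c) (v := δ ^ (W + 1) * X) hX0.le n1 n2 n3 (mul_nonneg (Real.rpow_nonneg h0.le _) hX0.le)
    (UT_cont hk.le hγ.le h1) (fun t => UT_nn h0.le t) (fun t => min_le_right _ _) hi1 (fun t _ => by
      refine (min_le_left _ _).trans (le_of_eq ?_)
      rw [Real.mul_rpow (Real.rpow_nonneg h0.le _) (TMA.mz_nn _ _), ← Real.rpow_mul h0.le]
      unfold Zk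
      rcases eq_or_lt_of_le (TMA.mz_nn δ t) with h | h
      · rw [← h, Real.zero_rpow (show 2 * k ≠ 0 by positivity), Real.zero_rpow (show 2 * V ≠ 0 by positivity)]
        ring
      · have h2 : mz δ t ^ (2 * V) = mz δ t ^ (2 * k) * mz δ t ^ (2 * (V - k)) := by
          rw [← Real.rpow_add h]
          congr 1
          ring
        rw [h2]
        ring)
  refine hmain.trans ?_
  have f1 : δ ^ (-W) * (δ ^ (W + 1) * X) = δ * X := by
    rw [← mul_assoc, ← Real.rpow_add h0]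
    have : -W + (W + 1) = 1 := by ring
    rw [this, Real.rpow_one]
  rw [f1]
  have h3 := (abs_le.1 n4).2
  have h4 : ∫ t in N, mz δ t ^ (2 * V) ≤ (2 * δ) ^ (-(V ^ 2)) * (X * (akR V + 1)) := by
    rw [Real.rpow_neg h2δ.le, le_inv_mul_iff₀ (Real.rpow_pos_of_pos h2δ _)]
    linarith
  have h5 : (2 * δ) ^ (-(V ^ 2)) ≤ δ ^ (-(V ^ 2)) :=
    Real.rpow_le_rpow_of_nonpos h0 (by linarith) (by
      have : 0 ≤ V ^ 2 := by positivity
      linarith)
  have h6 : c = (2:ℝ) ^ (k ^ 2) / akR k * δ ^ (k ^ 2 + V * (2 * (V - k))) := by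
    rw [hc, Real.mul_rpow (by norm_num) h0.le, Real.rpow_add h0]
    ring
  have h7 : δ ^ (k ^ 2 + V * (2 * (V - k))) * δ ^ (-(V ^ 2)) = δ ^ ((V - k) ^ 2) := by
    rw [← Real.rpow_add h0]
    congr 1
    ring
  calc c * (∫ t in N, mz δ t ^ (2 * V)) + δ * X ≤ c * (δ ^ (-(V ^ 2)) * (X * (akR V + 1))) + ε / 2 * X := by
        refine add_le_add (mul_le_mul_of_nonneg_left (h4.trans ?_) hc0.le) (mul_le_mul_of_nonneg_right hδ hX0.le)
        exact mul_le_mul_of_nonneg_right h5 (by positivity)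
    _ = Ct * (δ ^ (k ^ 2 + V * (2 * (V - k))) * δ ^ (-(V ^ 2))) * X + ε / 2 * X := by
        rw [h6, hCt]
        ring
    _ = Ct * δ ^ ((V - k) ^ 2) * X + ε / 2 * X := by rw [h7]
    _ ≤ ε / 2 * X + ε / 2 * X := add_le_add (mul_le_mul_of_nonneg_right s1 hX0.le) le_rfl
    _ = ε * X := by ring

/-- the truncations differ by at most the tail -/
lemma TZ_bd (k V : ℝ) (hk : 0 < k) (hV : k < V) (W : ℝ) (hW : 2 * k * V + 1 ≤ W) : Ev fun _ δ => ∀ u : ℝ,
    TZ k V δ u ≤ FP k W δ u ∧ FP k W δ u - TZ k V δ u ≤ UT k V (V - k) W δ u := by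
  have ha := akp k
  refine (Ev.small (C := 1 / akR k) (c := 1) (e := 1) one_pos one_pos).mono ?_
  intro X δ hX1 h0 h1 s1 u
  rw [Real.rpow_one] at s1
  have hm := TMA.mz_nn δ u
  unfold TZ
  split_ifs with h
  · have h2 : Zk k δ u ≤ δ ^ (-W) := by
      unfold Zk
      have h3 : (2 * δ) ^ (k ^ 2) ≤ 1 := Real.rpow_le_one (by linarith) (by linarith) (by positivity)
      have h4 : mz δ u ^ (2 * k) ≤ (δ ^ (-V)) ^ (2 * k) := Real.rpow_le_rpow hm h (by linarith)
      rw [← Real.rpow_mul h0.le] at h4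
      have h5 : δ ^ (-V * (2 * k)) ≤ δ ^ (-(W - 1)) :=
        Real.rpow_le_rpow_of_exponent_ge h0 (by linarith) (by linarith)
      have h6 : δ ^ (-(W - 1)) = δ * δ ^ (-W) := by
        rw [show -(W - 1) = 1 + -W by ring, Real.rpow_add h0, Real.rpow_one]
      have h7 : 0 < δ ^ (-W) := Real.rpow_pos_of_pos h0 _
      calc (2 * δ) ^ (k ^ 2) / akR k * mz δ u ^ (2 * k) ≤ 1 / akR k * (δ * δ ^ (-W)) := by
            refine mul_le_mul (by gcongr) (h4.trans (h5.trans h6.le)) (Real.rpow_nonneg hm _) (by positivity)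
        _ = (1 / akR k * δ) * δ ^ (-W) := by ring
        _ ≤ 1 * δ ^ (-W) := mul_le_mul_of_nonneg_right s1 h7.le
        _ = δ ^ (-W) := one_mul _
    have h3 : FP k W δ u = Zk k δ u := min_eq_left h2
    rw [h3, sub_self]
    exact ⟨le_rfl, UT_nn h0.le u⟩
  · refine ⟨FP_nn h0.le u, ?_⟩
    rw [sub_zero]
    unfold FP UT
    refine min_le_min ?_ le_rfl
    refine le_mul_of_one_le_right (Zk_nn h0.le u) (Real.one_le_rpow ?_ (by linarith))
    have h2 := (not_le.1 h).le
    have h3 : δ ^ V * δ ^ (-V) = 1 := by rw [← Real.rpow_add h0, add_neg_cancel, Real.rpow_zero]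
    rw [← h3]
    exact mul_le_mul_of_nonneg_left h2 (Real.rpow_nonneg h0.le _)

lemma TZ_meas (k V : ℝ) {δ : ℝ} (hk : 0 ≤ k) (h1 : δ ≤ 1 / 16) : Measurable fun u => TZ k V δ u := by
  unfold TZ
  exact Measurable.ite (measurableSet_le (TMA.cont h1).measurable measurable_const) (Zk_cont hk h1).measurable
    measurable_const

/-- the truncated moments in all windows -/
theorem coreB (hM : S_MNB) (k θ V : ℝ) (hk : 0 < k) (hθ : max 1 (k ^ 2) - 1 < θ) (hV : k < V) (ε : ℝ) (hε : 0 < ε) :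
    Ev fun X δ => volume {t : ℝ | 0 ≤ t ∧ ∃ H : ℝ, δ ^ (-θ) ≤ H ∧ t + H ≤ X ∧
      ε ≤ |(1 / H) * (∫ u in t..(t + H), TZ k V δ u) - 1|} ≤ ENNReal.ofReal (ε * X) := by
  set κ : ℝ := max 1 (k ^ 2) with hκ
  have hκ1 : 1 ≤ κ := le_max_left _ _
  set θ0 : ℝ := (θ + (κ - 1)) / 2 with hθ0
  have hθ1 : κ - 1 < θ0 := by
    rw [hθ0]
    linarith
  have hθ2 : θ0 < θ := by
    rw [hθ0]
    linarith
  obtain ⟨n, η, hn, hη, Hw⟩ := win2 hM k θ0 hk hθ1
  set W : ℝ := max (2 * k * V + 1) (2 * k ^ 2 + 1) with hW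
  have hW0 : 0 ≤ W := le_trans (by positivity : (0:ℝ) ≤ 2 * k ^ 2 + 1) (le_max_right _ _)
  set c : ℝ := ε / 12 with hc
  have hc0 : 0 < c := by positivity
  set s : ℝ := min (c * ε / 24) (ε / 8) with hs
  have hs0 : 0 < s := lt_min (by positivity) (by positivity)
  have hs1 : s ≤ c * ε / 24 := min_le_left _ _
  have hs2 : s ≤ ε / 8 := min_le_right _ _
  set e : ℝ := min (s ^ 2) (c * ε / 48) with he
  have he0 : 0 < e := lt_min (by positivity) (by positivity)
  have he1 : e ≤ s ^ 2 := min_le_left _ _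
  have he2 : e ≤ c * ε / 48 := min_le_right _ _
  refine (((((Hw W (le_max_right _ _) e he0).up.and (UT_mean k V W hk hV hW0 (c * ε / 24) (by positivity)).up).and
    (Ev.win (D := θ0) (c := 1 / 2) (e := 1) (by norm_num) one_pos)).and
    (TZ_bd k V hk hV W (le_max_left _ _))).and
    (Ev.small (C := 2) (c := θ - θ0) (e := ε / 4) (by linarith) (by positivity))).mono ?_
  rintro X δ hX1 h0 h1 ⟨⟨⟨⟨Hw, HU⟩, w1⟩, hTZ⟩, s1⟩
  rw [Real.rpow_one] at w1
  have hX0 : 0 < X := by linarith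
  obtain ⟨E1, E2, E3⟩ := Hw (2 * X) (by linarith)
  have E4 := HU (2 * X) (by linarith)
  set l : ℝ := δ ^ (-θ0) with hl
  have hl0 : 0 < l := Real.rpow_pos_of_pos h0 _
  set f : ℝ → ℝ := ff n k (k + η) W δ with hf
  have hfc : Continuous f := ff_cont hk.le h1
  have hf0 : ∀ x, 0 ≤ f x := fun x => ff_nn h0.le x
  set F : ℝ → ℝ := FP k W δ with hF
  have hFc : Continuous F := FP_cont hk.le h1
  have hfF : ∀ x, f x ≤ F x := fun x => ff_le h0.le x
  have hAc := Av_cont (l := l) hfc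
  have hg1c : Continuous fun t => |Av l f t - 1| := (hAc.sub continuous_const).abs
  have hUc : Continuous fun t => UT k V (V - k) W δ t := UT_cont hk.le (by linarith) h1
  -- the mean of the deviation
  have m1 : ∫ t in (0:ℝ)..(2 * X), |Av l f t - 1| ≤ s * (2 * X) :=
    mean_of_sq (g := fun t => Av l f t - 1) (hAc.sub continuous_const) hs0 (by linarith)
      (E1.trans (mul_le_mul_of_nonneg_right he1 (by linarith)))
  have m2 : ∫ t in (0:ℝ)..(2 * X), (F t - f t) ≤ 2 * e * (2 * X) := by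
    rw [intervalIntegral.integral_sub (hFc.intervalIntegrable _ _) (hfc.intervalIntegrable _ _)]
    linarith
  have m3 : ∫ t in (0:ℝ)..X, |Av l f t - 1| ≤ s * (2 * X) := by
    refine le_trans ?_ m1
    exact intervalIntegral.integral_mono_interval le_rfl hX0.le (by linarith)
      (Filter.Eventually.of_forall fun u => abs_nonneg _) (hg1c.intervalIntegrable _ _)
  have hX2 : 2 * X - l + l = 2 * X := by ring
  have b1 := weak_vol (g := fun t => |Av l f t - 1|) hg1c (fun t => abs_nonneg _) (l := l) (X := 2 * X - l) (c := c)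
    (e := ε / 4 * X) hl0 (by linarith) hc0 (by
      rw [hX2]
      nlinarith)
  have b2 := weak_vol (g := fun t => F t - f t) (hFc.sub hfc) (fun t => by linarith [hfF t]) (l := l)
    (X := 2 * X - l) (c := c) (e := ε / 4 * X) hl0 (by linarith) hc0 (by
      rw [hX2]
      nlinarith)
  have b3 := markov (g := fun t => |Av l f t - 1|) hg1c (fun t => abs_nonneg _) (X := X) (e := ε / 4 * X) hX0.le
    (m3.trans (by nlinarith))
  have b4 := weak_vol (g := fun t => UT k V (V - k) W δ t) hUc (fun t => UT_nn h0.le t) (l := l)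
    (X := 2 * X - l) (c := c) (e := ε / 4 * X) hl0 (by linarith) hc0 (by
      rw [hX2]
      nlinarith)
  set S1 := {t | 0 ≤ t ∧ t ≤ 2 * X - l ∧ ∃ H, l ≤ H ∧ t + H ≤ 2 * X - l ∧ c * H < ∫ s in t..(t + H), |Av l f s - 1|}
    with hS1
  set S2 := {t | 0 ≤ t ∧ t ≤ 2 * X - l ∧ ∃ H, l ≤ H ∧ t + H ≤ 2 * X - l ∧ c * H < ∫ s in t..(t + H), (F s - f s)}
    with hS2
  set S3 := {t | 0 ≤ t ∧ t ≤ X ∧ 1 < |Av l f t - 1|} with hS3
  set S4 := {t | 0 ≤ t ∧ t ≤ 2 * X - l ∧ ∃ H, l ≤ H ∧ t + H ≤ 2 * X - l ∧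
    c * H < ∫ s in t..(t + H), UT k V (V - k) W δ s} with hS4
  have hsub : {t : ℝ | 0 ≤ t ∧ ∃ H : ℝ, δ ^ (-θ) ≤ H ∧ t + H ≤ X ∧
      ε ≤ |(1 / H) * (∫ u in t..(t + H), TZ k V δ u) - 1|} ⊆ (S1 ∪ S2) ∪ (S3 ∪ S4) := by
    rintro t ⟨t0, H, hH1, hH2, hH3⟩
    by_contra hcon
    simp only [Set.mem_union, not_or] at hcon
    obtain ⟨⟨c1, c2⟩, c3, c4⟩ := hcon
    have hHp : 0 < H := lt_of_lt_of_le (Real.rpow_pos_of_pos h0 _) hH1
    have hlθ : l ≤ δ ^ (-θ) := Real.rpow_le_rpow_of_exponent_ge h0 (by linarith) (by linarith)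
    have hlH : l ≤ H := hlθ.trans hH1
    have d1 : ∫ s in t..(t + H), |Av l f s - 1| ≤ c * H := by
      by_contra h
      exact c1 ⟨t0, by linarith, H, hlH, by linarith, not_le.1 h⟩
    have d2 : ∫ s in t..(t + H), (F s - f s) ≤ c * H := by
      by_contra h
      exact c2 ⟨t0, by linarith, H, hlH, by linarith, not_le.1 h⟩
    have d3 : |Av l f t - 1| ≤ 1 := by
      by_contra h
      exact c3 ⟨t0, by linarith, not_le.1 h⟩
    have d4 : ∫ s in t..(t + H), UT k V (V - k) W δ s ≤ c * H := by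
      by_contra h
      exact c4 ⟨t0, by linarith, H, hlH, by linarith, not_le.1 h⟩
    have hdet := det (Z := F) hFc hfc hf0 hfF hl0 hlH (fun u _ => rfl) d1 d2 d3
    -- the truncation
    have hTI : IntervalIntegrable (fun u => TZ k V δ u) volume t (t + H) := by
      refine (hFc.intervalIntegrable t (t + H)).mono_fun ((TZ_meas k V hk.le h1).aestronglyMeasurable) ?_
      refine Filter.Eventually.of_forall fun u => ?_
      have h2 : 0 ≤ TZ k V δ u := by
        unfold TZ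
        split_ifs
        · exact Zk_nn h0.le u
        · exact le_rfl
      show ‖TZ k V δ u‖ ≤ ‖F u‖
      rw [Real.norm_of_nonneg h2, Real.norm_of_nonneg (FP_nn h0.le u)]
      exact (hTZ u).1
    have i1 : ∫ u in t..(t + H), TZ k V δ u ≤ ∫ u in t..(t + H), F u :=
      intervalIntegral.integral_mono_on (by linarith) hTI (hFc.intervalIntegrable _ _) fun u _ => (hTZ u).1
    have i2 : (∫ u in t..(t + H), F u) - (∫ u in t..(t + H), TZ k V δ u) ≤ c * H := by
      rw [← intervalIntegral.integral_sub (hFc.intervalIntegrable _ _) hTI]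
      refine le_trans ?_ d4
      exact intervalIntegral.integral_mono_on (by linarith) ((hFc.intervalIntegrable _ _).sub hTI)
        (hUc.intervalIntegrable _ _) fun u _ => (hTZ u).2
    have hdet2 : |(∫ u in t..(t + H), TZ k V δ u) - H| ≤ 2 * l + 3 * (c * H) := by
      rw [abs_le] at hdet ⊢
      constructor <;> linarith [hdet.1, hdet.2]
    have h5 : (1 / H) * (∫ u in t..(t + H), TZ k V δ u) - 1 = (1 / H) * ((∫ u in t..(t + H), TZ k V δ u) - H) := by
      field_simp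
    rw [h5, abs_mul, abs_of_pos (by positivity : 0 < 1 / H)] at hH3
    have h6 : 2 * l ≤ ε / 4 * H := by
      have h7 : l = δ ^ (θ - θ0) * δ ^ (-θ) := by
        rw [hl, ← Real.rpow_add h0]
        congr 1
        ring
      have h8 : 0 < δ ^ (-θ) := Real.rpow_pos_of_pos h0 _
      rw [h7]
      calc 2 * (δ ^ (θ - θ0) * δ ^ (-θ)) = (2 * δ ^ (θ - θ0)) * δ ^ (-θ) := by ring
        _ ≤ ε / 4 * δ ^ (-θ) := mul_le_mul_of_nonneg_right s1 h8.le
        _ ≤ ε / 4 * H := mul_le_mul_of_nonneg_left hH1 (by positivity)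
    have h9 : (1 / H) * |(∫ u in t..(t + H), TZ k V δ u) - H| ≤ (1 / H) * (ε / 2 * H) := by
      refine mul_le_mul_of_nonneg_left (hdet2.trans ?_) (by positivity)
      rw [hc]
      linarith
    have h10 : (1 / H) * (ε / 2 * H) = ε / 2 := by
      field_simp
    linarith
  refine (measure_mono hsub).trans ((measure_union_le _ _).trans
    ((add_le_add (measure_union_le _ _) (measure_union_le _ _)).trans
      ((add_le_add (add_le_add b1 b2) (add_le_add b3 b4)).trans ?_)))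
  have hq : 0 ≤ ε / 4 * X := by positivity
  rw [← ENNReal.ofReal_add hq hq, ← ENNReal.ofReal_add (by positivity) (by positivity)]
  refine ENNReal.ofReal_le_ofReal (le_of_eq ?_)
  ring

end Run7.h291.WN
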