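import Pool.Agent.Run7.h291.WN.A1

set_option autoImplicit false

/-! Bounds for the main terms of the moments with a barrier -/

namespace Run7.h291.WN

open Finset Filter MeasureTheory Topology Complex
open Pool.Agent.N748.MG Pool.Agent.N748.MJ

/-- the shifts of the barrier at the scale `δ^x` -/
noncomputable def sh (n : ℕ) (δ x : ℝ) (j : Fin n) : ℝ := ((j:ℕ) + 1) * δ ^ x

lemma sh_ge {n : ℕ} {δ x : ℝ} (h0 : 0 < δ) (j : Fin n) : δ ^ x ≤ sh n δ x j := by
  unfold sh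
  have := Real.rpow_pos_of_pos h0 x
  nlinarith [(Nat.cast_nonneg (j:ℕ) : (0:ℝ) ≤ (j:ℕ))]

lemma sh_le {n : ℕ} {δ x : ℝ} (h0 : 0 < δ) (j : Fin n) : sh n δ x j ≤ n * δ ^ x := by
  unfold sh
  have := Real.rpow_pos_of_pos h0 x
  have h1 : ((j:ℕ):ℝ) + 1 ≤ n := by exact_mod_cast j.2
  nlinarith

lemma sh_pos {n : ℕ} {δ x : ℝ} (h0 : 0 < δ) (j : Fin n) : 0 < sh n δ x j :=
  lt_of_lt_of_le (Real.rpow_pos_of_pos h0 x) (sh_ge h0 j)

lemma sh_diff {n : ℕ} {δ x : ℝ} (h0 : 0 < δ) {i j : Fin n} (hij : i ≠ j) : δ ^ x ≤ |sh n δ x i - sh n δ x j| := by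
  unfold sh
  have hp := Real.rpow_pos_of_pos h0 x
  have h1 : (((i:ℕ):ℝ) + 1) * δ ^ x - (((j:ℕ):ℝ) + 1) * δ ^ x = (((i:ℕ):ℝ) - ((j:ℕ):ℝ)) * δ ^ x := by ring
  rw [h1, abs_mul, abs_of_pos hp]
  have h2 : (1:ℝ) ≤ |((i:ℕ):ℝ) - ((j:ℕ):ℝ)| := by
    have h3 : ((i:ℕ):ℤ) - ((j:ℕ):ℤ) ≠ 0 := by
      intro h
      apply hij
      ext
      omega
    have h4 := Int.one_le_abs h3
    have h5 : ((|((i:ℕ):ℤ) - ((j:ℕ):ℤ)| : ℤ) : ℝ) = |((i:ℕ):ℝ) - ((j:ℕ):ℝ)| := by
      push_cast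
      rfl
    rw [← h5]
    exact_mod_cast h4
  nlinarith

/-- the exponents of the two-point function with the barrier -/
noncomputable def kN (n : ℕ) (k : ℝ) : Fin (n + 2) → ℝ := Fin.cons k (Fin.cons k fun _ => -(k / n))

/-- the shifts of the two-point function with the barrier -/
noncomputable def hN (n : ℕ) (δ x h : ℝ) : Fin (n + 2) → ℝ := Fin.cons 0 (Fin.cons h (sh n δ x))

/-- the exponents of the moment with the barrier -/
noncomputable def kT (n : ℕ) (k g : ℝ) : Fin (n + 1) → ℝ := Fin.cons k fun _ => g / n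

/-- the shifts of the moment with the barrier -/
noncomputable def hT (n : ℕ) (δ x : ℝ) : Fin (n + 1) → ℝ := Fin.cons 0 (sh n δ x)

/-- upper and lower bounds for `log |ζ(1+2δ+iu)|` in terms of `log (1/δ)` -/
lemma LZ_ul (n : ℕ) : ∃ C : ℝ, 0 ≤ C ∧ ∀ δ : ℝ, 0 < δ → δ ≤ 1 / 16 → ∀ x : ℝ, 0 ≤ x → x ≤ 1 →
    (LZ (1 + 2 * δ) 0).re ≤ Real.log (1 / δ) + C ∧
    (∀ u : ℝ, |u| ≤ n + 2 → δ ^ x ≤ |u| → (LZ (1 + 2 * δ) u).re ≤ x * Real.log (1 / δ) + C) ∧
    (∀ u : ℝ, |u| ≤ (n + 2) * δ ^ x → x * Real.log (1 / δ) - C ≤ (LZ (1 + 2 * δ) u).re) ∧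
    (∀ u : ℝ, |u| ≤ n + 2 → (LZ (1 + 2 * δ) u).re ≤ Real.log (1 / max |u| δ) + C) := by
  obtain ⟨C, hC, h⟩ := LZre_bd (n + 2)
  have hln : 0 ≤ Real.log ((n:ℝ) + 2) := Real.log_nonneg (by linarith [(Nat.cast_nonneg n : (0:ℝ) ≤ n)])
  refine ⟨C + Real.log (n + 2), by linarith, fun δ h0 h1 x hx0 hx1 => ?_⟩
  have hp := Real.rpow_pos_of_pos h0 x
  have hn0 : (0:ℝ) ≤ n := Nat.cast_nonneg n
  have hlx : Real.log (δ ^ x) = -(x * Real.log (1 / δ)) := by
    rw [Real.log_rpow h0, one_div, Real.log_inv]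
    ring
  have hδx : δ ≤ δ ^ x := by
    calc δ = δ ^ (1:ℝ) := (Real.rpow_one δ).symm
      _ ≤ δ ^ x := Real.rpow_le_rpow_of_exponent_ge h0 (by linarith) hx1
  have hx1' : δ ^ x ≤ 1 := Real.rpow_le_one h0.le (by linarith) hx0
  refine ⟨?_, ?_, ?_, ?_⟩
  · have := (abs_le.1 (h δ h0 h1 0 (by rw [abs_zero]; linarith))).2
    rw [abs_zero, max_eq_right h0.le] at this
    linarith
  · intro u hu hu2
    have := (abs_le.1 (h δ h0 h1 u hu)).2
    have h2 : Real.log (1 / max |u| δ) ≤ x * Real.log (1 / δ) := by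
      rw [one_div, Real.log_inv]
      have h3 := Real.log_le_log hp (hu2.trans (le_max_left |u| δ))
      rw [hlx] at h3
      linarith
    linarith
  · intro u hu
    have hu' : |u| ≤ n + 2 := hu.trans (by nlinarith)
    have := (abs_le.1 (h δ h0 h1 u hu')).1
    have h2 : x * Real.log (1 / δ) - Real.log (n + 2) ≤ Real.log (1 / max |u| δ) := by
      rw [one_div (max |u| δ), Real.log_inv]
      have hM : 0 < max |u| δ := lt_of_lt_of_le h0 (le_max_right _ _)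
      have h4 : max |u| δ ≤ (n + 2) * δ ^ x := max_le hu (by nlinarith)
      have h3 := Real.log_le_log hM h4
      rw [Real.log_mul (by positivity) hp.ne', hlx] at h3
      linarith
    linarith
  · intro u hu
    have := (abs_le.1 (h δ h0 h1 u hu)).2
    linarith

lemma sum_pairs {n : ℕ} (A : Fin n → Fin n → ℝ) {a b : ℝ} (hb : 0 ≤ b) (h1 : ∀ i, A i i ≤ a + b) (h2 : ∀ i j, i ≠ j → A i j ≤ b) :
    ∑ i, ∑ j, A i j ≤ n * a + n ^ 2 * b := by
  have h3 : ∀ i, ∑ j, A i j ≤ a + n * b := by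
    intro i
    calc ∑ j, A i j ≤ ∑ j, (b + if j = i then a else 0) := by
          refine Finset.sum_le_sum fun j _ => ?_
          by_cases hj : j = i
          · subst hj
            rw [if_pos rfl]
            linarith [h1 j]
          · rw [if_neg hj, add_zero]
            exact h2 i j (Ne.symm hj)
      _ = a + n * b := by
          rw [Finset.sum_add_distrib, Finset.sum_const, Finset.card_univ, Fintype.card_fin, nsmul_eq_mul,
            Finset.sum_ite_eq' Finset.univ i, if_pos (Finset.mem_univ i)]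
          ring
  calc ∑ i, ∑ j, A i j ≤ ∑ _i : Fin n, (a + n * b) := Finset.sum_le_sum fun i _ => h3 i
    _ = n * a + n ^ 2 * b := by
        rw [Finset.sum_const, Finset.card_univ, Fintype.card_fin, nsmul_eq_mul]
        ring

/-- the main term of the two-point function with the barrier -/
lemma Lr_near (n : ℕ) (hn : 1 ≤ n) (k : ℝ) : ∃ C : ℝ, ∀ δ : ℝ, 0 < δ → δ ≤ 1 / 16 → ∀ x h : ℝ, 0 ≤ x → x ≤ 1 →
    |h| ≤ δ ^ x → Real.log (1 / max |h| δ) ≤ (x + 1 / n) * Real.log (1 / δ) →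
    SM.Lr (kN n k) (hN n δ x h) δ ≤ (2 * k ^ 2 - k ^ 2 * x + 3 * k ^ 2 / n) * Real.log (1 / δ) + C := by
  obtain ⟨C, hC, H⟩ := LZ_ul n
  refine ⟨9 * k ^ 2 * C, fun δ h0 h1 x h hx0 hx1 hh hh2 => ?_⟩
  obtain ⟨H1, H2, H3, H4⟩ := H δ h0 h1 x hx0 hx1
  set L : ℝ := Real.log (1 / δ) with hL
  have hL0 : 0 ≤ L := Real.log_nonneg (by rw [le_div_iff₀ h0]; linarith)
  have hp := Real.rpow_pos_of_pos h0 x
  have hx1' : δ ^ x ≤ 1 := Real.rpow_le_one h0.le (by linarith) hx0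
  have hn0 : (0:ℝ) < n := by exact_mod_cast hn
  set A : ℝ → ℝ := fun u => (LZ (1 + 2 * δ) u).re with hA
  have hexp : SM.Lr (kN n k) (hN n δ x h) δ = k ^ 2 * (2 * A 0 + (A (-h) + A h)) +
      (-(k ^ 2 / n)) * (∑ i, (A (-(sh n δ x i)) + A (sh n δ x i) + (A (h - sh n δ x i) + A (sh n δ x i - h)))) +
      (k / n) ^ 2 * ∑ i, ∑ j, A (sh n δ x i - sh n δ x j) := by
    unfold SM.Lr kN hN
    simp only [Fin.sum_univ_succ, Fin.cons_zero, Fin.cons_succ, sub_self, zero_sub, sub_zero]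
    simp only [Finset.sum_add_distrib, ← Finset.mul_sum, hA]
    have e1 : ∀ f g p q : Fin n → ℝ, ∑ i, (f i + g i + (p i + q i)) = ∑ i, f i + ∑ i, g i + (∑ i, p i + ∑ i, q i) :=
      fun f g p q => by simp only [Finset.sum_add_distrib]
    ring
  rw [hexp]
  have hshu : ∀ i : Fin n, |sh n δ x i| ≤ (n + 2) * δ ^ x := fun i => by
    rw [abs_of_pos (sh_pos h0 i)]
    have := sh_le (x := x) h0 i
    nlinarith
  have hsd : ∀ i : Fin n, |h - sh n δ x i| ≤ (n + 2) * δ ^ x := fun i => by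
    have h2 := abs_sub h (sh n δ x i)
    have := sh_le (x := x) h0 i
    rw [abs_of_pos (sh_pos h0 i)] at h2
    nlinarith
  have b1 : 2 * A 0 + (A (-h) + A h) ≤ 2 * (L + C) + 2 * ((x + 1 / n) * L + C) := by
    have g1 : |h| ≤ n + 2 := by linarith
    have g2 := H4 h g1
    have g3 := H4 (-h) (by rw [abs_neg]; exact g1)
    rw [abs_neg] at g3
    have g4 : A 0 ≤ L + C := H1
    have g5 : A h ≤ (x + 1 / n) * L + C := g2.trans (by linarith)
    have g6 : A (-h) ≤ (x + 1 / n) * L + C := g3.trans (by linarith)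
    linarith
  have b2 : n * (4 * (x * L - C)) ≤
      ∑ i, (A (-(sh n δ x i)) + A (sh n δ x i) + (A (h - sh n δ x i) + A (sh n δ x i - h))) := by
    calc (n:ℝ) * (4 * (x * L - C)) = ∑ _i : Fin n, 4 * (x * L - C) := by
          rw [Finset.sum_const, Finset.card_univ, Fintype.card_fin, nsmul_eq_mul]
      _ ≤ _ := by
          refine Finset.sum_le_sum fun i _ => ?_
          have g1 := H3 (sh n δ x i) (hshu i)
          have g2 := H3 (-(sh n δ x i)) (by rw [abs_neg]; exact hshu i)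
          have g3 := H3 (h - sh n δ x i) (hsd i)
          have g4 := H3 (sh n δ x i - h) (by rw [abs_sub_comm]; exact hsd i)
          simp only [hA]
          linarith
  have b3 : ∑ i, ∑ j, A (sh n δ x i - sh n δ x j) ≤ n * L + n ^ 2 * (x * L + C) := by
    refine sum_pairs (fun i j => A (sh n δ x i - sh n δ x j)) (by positivity) (fun i => ?_) fun i j hij => ?_
    · simp only [sub_self]
      have g4 : A 0 ≤ L + C := H1
      have : 0 ≤ x * L := by positivity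
      linarith
    · refine H2 _ ?_ (sh_diff h0 hij)
      have g1 := sh_le (x := x) h0 i
      have g2 := sh_le (x := x) h0 j
      have g3 := sh_pos (x := x) h0 i
      have g4 := sh_pos (x := x) h0 j
      rw [abs_le]
      constructor <;> nlinarith
  have c1 : k ^ 2 * (2 * A 0 + (A (-h) + A h)) ≤ k ^ 2 * (2 * (L + C) + 2 * ((x + 1 / n) * L + C)) :=
    mul_le_mul_of_nonneg_left b1 (by positivity)
  have c2 : (-(k ^ 2 / n)) * (∑ i, (A (-(sh n δ x i)) + A (sh n δ x i) + (A (h - sh n δ x i) + A (sh n δ x i - h)))) ≤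
      (-(k ^ 2 / n)) * (n * (4 * (x * L - C))) :=
    mul_le_mul_of_nonpos_left b2 (by
      have : 0 ≤ k ^ 2 / n := by positivity
      linarith)
  have c3 : (k / n) ^ 2 * ∑ i, ∑ j, A (sh n δ x i - sh n δ x j) ≤ (k / n) ^ 2 * (n * L + n ^ 2 * (x * L + C)) :=
    mul_le_mul_of_nonneg_left b3 (by positivity)
  refine (add_le_add (add_le_add c1 c2) c3).trans (le_of_eq ?_)
  field_simp
  ring

/-- the main term of the moment beyond the barrier -/
lemma Lr_tilt (n : ℕ) (hn : 1 ≤ n) (k g : ℝ) (hk : 0 ≤ k) (hg : 0 ≤ g) : ∃ C : ℝ, ∀ δ : ℝ, 0 < δ → δ ≤ 1 / 16 →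
    ∀ x : ℝ, 0 ≤ x → x ≤ 1 →
    SM.Lr (kT n k g) (hT n δ x) δ ≤ (k ^ 2 + 2 * k * g * x + g ^ 2 * (x + 1 / n)) * Real.log (1 / δ) + C := by
  obtain ⟨C, hC, H⟩ := LZ_ul n
  refine ⟨(k + g) ^ 2 * C, fun δ h0 h1 x hx0 hx1 => ?_⟩
  obtain ⟨H1, H2, H3, H4⟩ := H δ h0 h1 x hx0 hx1
  set L : ℝ := Real.log (1 / δ) with hL
  have hL0 : 0 ≤ L := Real.log_nonneg (by rw [le_div_iff₀ h0]; linarith)
  have hp := Real.rpow_pos_of_pos h0 x
  have hx1' : δ ^ x ≤ 1 := Real.rpow_le_one h0.le (by linarith) hx0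
  have hn0 : (0:ℝ) < n := by exact_mod_cast hn
  set A : ℝ → ℝ := fun u => (LZ (1 + 2 * δ) u).re with hA
  have hexp : SM.Lr (kT n k g) (hT n δ x) δ = k ^ 2 * A 0 +
      (k * (g / n)) * (∑ i, (A (-(sh n δ x i)) + A (sh n δ x i))) +
      (g / n) ^ 2 * ∑ i, ∑ j, A (sh n δ x i - sh n δ x j) := by
    unfold SM.Lr kT hT
    simp only [Fin.sum_univ_succ, Fin.cons_zero, Fin.cons_succ, sub_self, zero_sub, sub_zero]
    simp only [Finset.sum_add_distrib, ← Finset.mul_sum, hA]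
    ring
  rw [hexp]
  have hshu : ∀ i : Fin n, |sh n δ x i| ≤ n + 2 := fun i => by
    rw [abs_of_pos (sh_pos h0 i)]
    have := sh_le (x := x) h0 i
    nlinarith
  have hshl : ∀ i : Fin n, δ ^ x ≤ |sh n δ x i| := fun i => by
    rw [abs_of_pos (sh_pos h0 i)]
    exact sh_ge h0 i
  have b2 : ∑ i, (A (-(sh n δ x i)) + A (sh n δ x i)) ≤ n * (2 * (x * L + C)) := by
    calc _ ≤ ∑ _i : Fin n, 2 * (x * L + C) := by
          refine Finset.sum_le_sum fun i _ => ?_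
          have g1 := H2 (sh n δ x i) (hshu i) (hshl i)
          have g2 := H2 (-(sh n δ x i)) (by rw [abs_neg]; exact hshu i) (by rw [abs_neg]; exact hshl i)
          simp only [hA]
          linarith
      _ = (n:ℝ) * (2 * (x * L + C)) := by
          rw [Finset.sum_const, Finset.card_univ, Fintype.card_fin, nsmul_eq_mul]
  have b3 : ∑ i, ∑ j, A (sh n δ x i - sh n δ x j) ≤ n * L + n ^ 2 * (x * L + C) := by
    refine sum_pairs (fun i j => A (sh n δ x i - sh n δ x j)) (by positivity) (fun i => ?_) fun i j hij => ?_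
    · simp only [sub_self]
      have g4 : A 0 ≤ L + C := H1
      have : 0 ≤ x * L := by positivity
      linarith
    · refine H2 _ ?_ (sh_diff h0 hij)
      have g1 := sh_le (x := x) h0 i
      have g2 := sh_le (x := x) h0 j
      have g3 := sh_pos (x := x) h0 i
      have g4 := sh_pos (x := x) h0 j
      rw [abs_le]
      constructor <;> nlinarith
  have c1 : k ^ 2 * A 0 ≤ k ^ 2 * (L + C) := mul_le_mul_of_nonneg_left H1 (by positivity)
  have c2 : (k * (g / n)) * (∑ i, (A (-(sh n δ x i)) + A (sh n δ x i))) ≤ (k * (g / n)) * (n * (2 * (x * L + C))) :=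
    mul_le_mul_of_nonneg_left b2 (by positivity)
  have c3 : (g / n) ^ 2 * ∑ i, ∑ j, A (sh n δ x i - sh n δ x j) ≤ (g / n) ^ 2 * (n * L + n ^ 2 * (x * L + C)) :=
    mul_le_mul_of_nonneg_left b3 (by positivity)
  refine (add_le_add (add_le_add c1 c2) c3).trans (le_of_eq ?_)
  field_simp
  ring

end Run7.h291.WN
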