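import Pool.Agent.Run7.h291.WN.A3

set_option autoImplicit false

/-! The two-point function at distances up to `1` -/

namespace Run7.h291.WN

open Finset Filter MeasureTheory Topology Complex
open Pool.Agent.N748.MG Pool.Agent.N748.MJ

lemma expL {δ : ℝ} (h0 : 0 < δ) (x : ℝ) : Real.exp (x * Real.log (1 / δ)) = δ ^ (-x) := by
  rw [one_div, Real.log_inv, Real.rpow_def_of_pos h0]
  congr 1
  ring

/-- the product of two exponents at two points -/
lemma G_two (k h δ t : ℝ) : SM.G (fun _ : Fin 2 => k) ![0, h] δ t = mz δ t ^ (2 * k) * mz δ (t + h) ^ (2 * k) := by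
  unfold SM.G
  rw [Fin.prod_univ_two]
  simp

lemma G_kN (n : ℕ) (k δ x h t : ℝ) : SM.G (kN n k) (hN n δ x h) δ t =
    mz δ t ^ (2 * k) * (mz δ (t + h) ^ (2 * k) * ∏ j : Fin n, mz δ (t + sh n δ x j) ^ (2 * (-(k / n)))) := by
  unfold SM.G kN hN
  simp only [Fin.prod_univ_succ, Fin.cons_zero, Fin.cons_succ, add_zero]

/-- the pointwise bound with the barrier -/
lemma ff_ff_le {n : ℕ} (hn : 1 ≤ n) {k v W δ : ℝ} (hk : 0 < k) (h0 : 0 < δ) (i : Fin n) {t h : ℝ}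
    (ht : ∀ j, 0 < mz δ (t + sh n δ ((((i:ℕ):ℝ) + 1) / n) j)) :
    ff n k v W δ t * ff n k v W δ (t + h) ≤
      (((2 * δ) ^ (k ^ 2) / akR k) ^ 2 * (2 ^ (2 * k) * δ ^ (-((((i:ℕ):ℝ) + 1) / n * v * (2 * k))))) *
        SM.G (kN n k) (hN n δ ((((i:ℕ):ℝ) + 1) / n) h) δ t := by
  set x : ℝ := (((i:ℕ):ℝ) + 1) / n with hx
  set c0 : ℝ := (2 * δ) ^ (k ^ 2) / akR k with hc0
  have hc0p : 0 < c0 := div_pos (Real.rpow_pos_of_pos (by linarith) _) (akp k)
  have hbp : 0 < bar n v δ x t := mul_pos (Real.rpow_pos_of_pos h0 _)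
    (Finset.prod_pos fun j _ => Real.rpow_pos_of_pos (ht j) _)
  have h1 : ff n k v W δ t ≤ c0 * mz δ t ^ (2 * k) * (2 ^ (2 * k) * bar n v δ x t ^ (-(2 * k))) := by
    unfold ff
    refine mul_le_mul (FP_le t) ?_ prod_psi_nn (Zk_nn h0.le t)
    exact (prod_psi_le' i).trans (psi_up hbp (by linarith))
  have h2 : ff n k v W δ (t + h) ≤ c0 * mz δ (t + h) ^ (2 * k) := (ff_le h0.le _).trans (FP_le _)
  have h3 : 0 ≤ ff n k v W δ (t + h) := ff_nn h0.le _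
  have h4 : 0 ≤ c0 * mz δ t ^ (2 * k) * (2 ^ (2 * k) * bar n v δ x t ^ (-(2 * k))) := by
    have := Real.rpow_nonneg (TMA.mz_nn δ t) (2 * k)
    positivity
  refine (mul_le_mul h1 h2 h3 h4).trans (le_of_eq ?_)
  rw [bar_rpow h0 ht, G_kN]
  have e1 : x * v * -(2 * k) = -(x * v * (2 * k)) := by ring
  have e2 : ∀ j : Fin n, mz δ (t + sh n δ x j) ^ (-(2 * k) / n) = mz δ (t + sh n δ x j) ^ (2 * (-(k / n))) := by
    intro j
    congr 1
    ring
  rw [e1, Finset.prod_congr rfl fun j _ => e2 j]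
  ring

/-- the two-point function with the barrier at one scale -/
lemma tp_near (n : ℕ) (hn : 1 ≤ n) (k η W : ℝ) (hk : 0 < k) (hη : 0 < η) (hW : 0 ≤ W) : ∃ C : ℝ, 0 < C ∧ Ev fun X δ =>
    ∀ (i : Fin n) (h : ℝ), 0 ≤ h → h ≤ δ ^ ((((i:ℕ):ℝ) + 1) / n) →
    Real.log (1 / max h δ) ≤ ((((i:ℕ):ℝ) + 1) / n + 1 / n) * Real.log (1 / δ) →
    ∫ t in (0:ℝ)..X, ff n k (k + η) W δ t * ff n k (k + η) W δ (t + h) ≤
      C * (X * δ ^ (-(k ^ 2 * ((((i:ℕ):ℝ) + 1) / n) + 2 * k * η + 3 * k ^ 2 / n))) := by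
  obtain ⟨c, C, hc, hC, HJ⟩ := jmr (n + 2) k (2 * W + 1) hk (by linarith)
  obtain ⟨C1, H1⟩ := Lr_near n hn k
  have hn0 : (0:ℝ) < n := by exact_mod_cast hn
  set Ct : ℝ := ((2:ℝ) ^ (k ^ 2) / akR k) ^ 2 * 2 ^ (2 * k) * ((C + 1) * Real.exp C1) + 1 with hCt
  have ha := akp k
  have hCtp : 0 < Ct := by positivity
  refine ⟨Ct, hCtp, ?_⟩
  have hX : ∀ᶠ X : ℝ in atTop, ((n:ℝ) + 2) ≤ X ^ ((1:ℝ) / 2) :=
    (tendsto_rpow_atTop (by norm_num)).eventually_ge_atTop _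
  refine ((HJ 1 one_pos).and (Ev.of_ev hX)).mono ?_
  rintro X δ hX1 h0 h1 ⟨HJ, hX2⟩ i h hh hh2 hh3
  set x : ℝ := (((i:ℕ):ℝ) + 1) / n with hx
  have hx0 : 0 ≤ x := by positivity
  have hx1 : x ≤ 1 := by
    rw [hx, div_le_one hn0]
    exact_mod_cast i.2
  have hp := Real.rpow_pos_of_pos h0 x
  have hx1' : δ ^ x ≤ 1 := Real.rpow_le_one h0.le (by linarith) hx0
  have hX0 : 0 < X := by linarith
  obtain ⟨N, n1, n2, n3, n4, n5⟩ := HJ (hN n δ x h) (by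
    intro j
    refine le_trans ?_ hX2
    unfold hN
    refine Fin.cases ?_ (fun j => ?_) j
    · rw [Fin.cons_zero, abs_zero]
      positivity
    · refine Fin.cases ?_ (fun j => ?_) j
      · rw [Fin.cons_succ, Fin.cons_zero, abs_of_nonneg hh]
        linarith
      · rw [Fin.cons_succ, Fin.cons_succ, abs_of_pos (sh_pos h0 j)]
        have := sh_le (x := x) h0 j
        nlinarith)
  obtain ⟨a, a1, a2, a3, a4, a5⟩ := n5 (kN n k) (by
    intro j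
    unfold kN
    refine Fin.cases ?_ (fun j => ?_) j
    · rw [Fin.cons_zero, abs_of_pos hk]
    · refine Fin.cases ?_ (fun j => ?_) j
      · rw [Fin.cons_succ, Fin.cons_zero, abs_of_pos hk]
      · rw [Fin.cons_succ, Fin.cons_succ, abs_neg, abs_of_pos (by positivity)]
        exact div_le_self hk.le (by exact_mod_cast hn))
  have hLr := H1 δ h0 h1 x h hx0 hx1 (by rw [abs_of_nonneg hh]; exact hh2) (by rw [abs_of_nonneg hh]; exact hh3)
  set E : ℝ := SM.Lr (kN n k) (hN n δ x h) δ with hE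
  have hI : ∫ t in N, SM.G (kN n k) (hN n δ x h) δ t ≤ X * ((C + 1) * Real.exp E) := by
    have := (abs_le.1 a5).2
    have he := Real.exp_pos E
    have h2 : X * (a * Real.exp E) ≤ X * (C * Real.exp E) :=
      mul_le_mul_of_nonneg_left (mul_le_mul_of_nonneg_right a2 he.le) hX0.le
    linarith
  have hmz : ∀ t ∈ N, ∀ j : Fin n, 0 < mz δ (t + sh n δ x j) := by
    intro t ht j
    have := n4 t ht (Fin.succ (Fin.succ j))
    unfold hN at this
    rwa [Fin.cons_succ, Fin.cons_succ] at this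
  set cc : ℝ := ((2 * δ) ^ (k ^ 2) / akR k) ^ 2 * (2 ^ (2 * k) * δ ^ (-(x * (k + η) * (2 * k)))) with hcc
  have hccp : 0 < cc := by
    have := Real.rpow_pos_of_pos (show 0 < 2 * δ by linarith) (k ^ 2)
    have := Real.rpow_pos_of_pos h0 (-(x * (k + η) * (2 * k)))
    positivity
  have hmain := offN (g := fun t => ff n k (k + η) W δ t * ff n k (k + η) W δ (t + h))
    (G := fun t => SM.G (kN n k) (hN n δ x h) δ t) (N := N) (X := X) (B := δ ^ (-W) * δ ^ (-W))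
    (c := cc) (v := δ ^ (2 * W + 1) * X) hX0.le n1 n2 n3
    (mul_nonneg (Real.rpow_nonneg h0.le _) hX0.le)
    ((ff_cont hk.le h1).mul ((ff_cont hk.le h1).comp (by fun_prop)))
    (fun t => mul_nonneg (ff_nn h0.le _) (ff_nn h0.le _))
    (fun t => mul_le_mul ((ff_le h0.le _).trans (FP_le' _)) ((ff_le h0.le _).trans (FP_le' _)) (ff_nn h0.le _)
      (Real.rpow_nonneg h0.le _)) a4 (fun t ht => ff_ff_le hn hk h0 i (hmz t ht))
  refine hmain.trans ?_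
  have e1 : δ ^ (-W) * δ ^ (-W) * (δ ^ (2 * W + 1) * X) = δ * X := by
    rw [← mul_assoc, ← Real.rpow_add h0, ← Real.rpow_add h0]
    have : -W + -W + (2 * W + 1) = 1 := by ring
    rw [this, Real.rpow_one]
  have e2 : Real.exp E ≤ Real.exp C1 * δ ^ (-(2 * k ^ 2 - k ^ 2 * x + 3 * k ^ 2 / n)) := by
    rw [← expL h0, ← Real.exp_add]
    exact Real.exp_le_exp.2 (by linarith)
  have e3 : cc = ((2:ℝ) ^ (k ^ 2) / akR k) ^ 2 * 2 ^ (2 * k) * δ ^ (2 * k ^ 2 + -(x * (k + η) * (2 * k))) := by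
    rw [hcc, Real.mul_rpow (by norm_num) h0.le, Real.rpow_add h0,
      show (2 * k ^ 2 : ℝ) = k ^ 2 + k ^ 2 by ring, Real.rpow_add h0]
    ring
  set P : ℝ := δ ^ (-(k ^ 2 * x + 2 * k * η + 3 * k ^ 2 / n)) with hP
  have hP1 : 1 ≤ P := by
    rw [hP]
    refine Real.one_le_rpow_of_pos_of_le_one_of_nonpos h0 (by linarith) ?_
    have : 0 ≤ k ^ 2 * x + 2 * k * η + 3 * k ^ 2 / n := by positivity
    linarith
  have e4 : δ ^ (2 * k ^ 2 + -(x * (k + η) * (2 * k))) * δ ^ (-(2 * k ^ 2 - k ^ 2 * x + 3 * k ^ 2 / n)) ≤ P := by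
    rw [← Real.rpow_add h0, hP]
    refine Real.rpow_le_rpow_of_exponent_ge h0 (by linarith) ?_
    have : 0 ≤ k * η * (1 - x) := by
      have : 0 ≤ 1 - x := by linarith
      positivity
    nlinarith
  calc cc * (∫ t in N, SM.G (kN n k) (hN n δ x h) δ t) + δ ^ (-W) * δ ^ (-W) * (δ ^ (2 * W + 1) * X)
      ≤ cc * (X * ((C + 1) * (Real.exp C1 * δ ^ (-(2 * k ^ 2 - k ^ 2 * x + 3 * k ^ 2 / n))))) + δ * X := by
        rw [e1]
        refine add_le_add (mul_le_mul_of_nonneg_left (hI.trans ?_) hccp.le) le_rfl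
        exact mul_le_mul_of_nonneg_left (mul_le_mul_of_nonneg_left e2 (by linarith)) hX0.le
    _ = ((2:ℝ) ^ (k ^ 2) / akR k) ^ 2 * 2 ^ (2 * k) * ((C + 1) * Real.exp C1) * (X *
          (δ ^ (2 * k ^ 2 + -(x * (k + η) * (2 * k))) * δ ^ (-(2 * k ^ 2 - k ^ 2 * x + 3 * k ^ 2 / n)))) + δ * X := by
        rw [e3]
        ring
    _ ≤ ((2:ℝ) ^ (k ^ 2) / akR k) ^ 2 * 2 ^ (2 * k) * ((C + 1) * Real.exp C1) * (X * P) + X * P := by
        refine add_le_add (mul_le_mul_of_nonneg_left (mul_le_mul_of_nonneg_left e4 hX0.le) (by positivity)) ?_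
        nlinarith
    _ = Ct * (X * P) := by
        rw [hCt]
        ring

/-- the main term of the two-point function -/
lemma Lr_two (U k : ℝ) (hU : 0 ≤ U) : ∃ C : ℝ, ∀ δ : ℝ, 0 < δ → δ ≤ 1 / 16 → ∀ h : ℝ, |h| ≤ U →
    SM.Lr (fun _ : Fin 2 => k) ![0, h] δ ≤ 2 * k ^ 2 * (Real.log (1 / δ) + Real.log (1 / max |h| δ)) + C := by
  obtain ⟨C, hC, H⟩ := LZre_bd U
  refine ⟨4 * k ^ 2 * C, fun δ h0 h1 h hh => ?_⟩
  have g0 := (abs_le.1 (H δ h0 h1 0 (by rw [abs_zero]; exact hU))).2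
  have g1 := (abs_le.1 (H δ h0 h1 h hh)).2
  have g2 := (abs_le.1 (H δ h0 h1 (-h) (by rw [abs_neg]; exact hh))).2
  rw [abs_zero, max_eq_right h0.le] at g0
  rw [abs_neg] at g2
  have hexp : SM.Lr (fun _ : Fin 2 => k) ![0, h] δ = k ^ 2 * (2 * (LZ (1 + 2 * δ) 0).re +
      ((LZ (1 + 2 * δ) h).re + (LZ (1 + 2 * δ) (-h)).re)) := by
    unfold SM.Lr
    simp only [Fin.sum_univ_two, Matrix.cons_val_zero, Matrix.cons_val_one, sub_self, zero_sub, sub_zero]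
    ring
  rw [hexp]
  nlinarith [sq_nonneg k]

/-- a bound of the two-point function without the barrier -/
lemma tp_up (n : ℕ) (k v W : ℝ) (hk : 0 < k) (hW : 0 ≤ W) : ∃ C : ℝ, 0 < C ∧ Ev fun X δ =>
    ∀ h : ℝ, 0 ≤ h → h ≤ 1 →
    ∫ t in (0:ℝ)..X, ff n k v W δ t * ff n k v W δ (t + h) ≤ C * (X * (max h δ) ^ (-(2 * k ^ 2))) := by
  obtain ⟨c, C, hc, hC, HJ⟩ := jmr 2 k (2 * W + 1) hk (by linarith)
  obtain ⟨C1, H1⟩ := Lr_two 1 k zero_le_one
  set Ct : ℝ := ((2:ℝ) ^ (k ^ 2) / akR k) ^ 2 * ((C + 1) * Real.exp C1) + 1 with hCt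
  have ha := akp k
  have hCtp : 0 < Ct := by positivity
  refine ⟨Ct, hCtp, ?_⟩
  have hX : ∀ᶠ X : ℝ in atTop, (1:ℝ) ≤ X ^ ((1:ℝ) / 2) :=
    (tendsto_rpow_atTop (by norm_num)).eventually_ge_atTop _
  refine ((HJ 1 one_pos).and (Ev.of_ev hX)).mono ?_
  rintro X δ hX1 h0 h1 ⟨HJ, hX2⟩ h hh hh2
  have hX0 : 0 < X := by linarith
  obtain ⟨N, n1, n2, n3, n4, n5⟩ := HJ ![0, h] (by
    intro j
    refine le_trans ?_ hX2
    fin_cases j
    · simp
    · simpa [abs_of_nonneg hh] using hh2)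
  obtain ⟨a, a1, a2, a3, a4, a5⟩ := n5 (fun _ => k) (by
    intro j
    rw [abs_of_pos hk])
  have hLr := H1 δ h0 h1 h (by rw [abs_of_nonneg hh]; exact hh2)
  rw [abs_of_nonneg hh] at hLr
  set E : ℝ := SM.Lr (fun _ : Fin 2 => k) ![0, h] δ with hE
  have hI : ∫ t in N, SM.G (fun _ : Fin 2 => k) ![0, h] δ t ≤ X * ((C + 1) * Real.exp E) := by
    have := (abs_le.1 a5).2
    have he := Real.exp_pos E
    have h2 : X * (a * Real.exp E) ≤ X * (C * Real.exp E) :=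
      mul_le_mul_of_nonneg_left (mul_le_mul_of_nonneg_right a2 he.le) hX0.le
    linarith
  set cc : ℝ := ((2 * δ) ^ (k ^ 2) / akR k) ^ 2 with hcc
  have hmain := offN (g := fun t => ff n k v W δ t * ff n k v W δ (t + h))
    (G := fun t => SM.G (fun _ : Fin 2 => k) ![0, h] δ t) (N := N) (X := X) (B := δ ^ (-W) * δ ^ (-W))
    (c := cc) (v := δ ^ (2 * W + 1) * X) hX0.le n1 n2 n3
    (mul_nonneg (Real.rpow_nonneg h0.le _) hX0.le)
    ((ff_cont hk.le h1).mul ((ff_cont hk.le h1).comp (by fun_prop)))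
    (fun t => mul_nonneg (ff_nn h0.le _) (ff_nn h0.le _))
    (fun t => mul_le_mul ((ff_le h0.le _).trans (FP_le' _)) ((ff_le h0.le _).trans (FP_le' _)) (ff_nn h0.le _)
      (Real.rpow_nonneg h0.le _)) a4 (fun t ht => by
        rw [G_two]
        refine (mul_le_mul ((ff_le h0.le _).trans (FP_le _)) ((ff_le h0.le _).trans (FP_le _)) (ff_nn h0.le _)
          (Zk_nn h0.le _)).trans (le_of_eq ?_)
        unfold Zk
        ring)
  refine hmain.trans ?_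
  have hM : 0 < max h δ := lt_of_lt_of_le h0 (le_max_right _ _)
  have e1 : δ ^ (-W) * δ ^ (-W) * (δ ^ (2 * W + 1) * X) = δ * X := by
    rw [← mul_assoc, ← Real.rpow_add h0, ← Real.rpow_add h0]
    have : -W + -W + (2 * W + 1) = 1 := by ring
    rw [this, Real.rpow_one]
  have e2 : Real.exp E ≤ Real.exp C1 * (δ ^ (-(2 * k ^ 2)) * (max h δ) ^ (-(2 * k ^ 2))) := by
    rw [← expL h0, ← expL hM, ← Real.exp_add, ← Real.exp_add]
    exact Real.exp_le_exp.2 (by linarith)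
  have e3 : cc = ((2:ℝ) ^ (k ^ 2) / akR k) ^ 2 * δ ^ (2 * k ^ 2) := by
    rw [hcc, Real.mul_rpow (by norm_num) h0.le, show (2 * k ^ 2 : ℝ) = k ^ 2 + k ^ 2 by ring, Real.rpow_add h0]
    ring
  have hccp : 0 < cc := by
    rw [e3]
    have := Real.rpow_pos_of_pos h0 (2 * k ^ 2)
    positivity
  set P : ℝ := (max h δ) ^ (-(2 * k ^ 2)) with hP
  have hP1 : 1 ≤ P := by
    rw [hP]
    refine Real.one_le_rpow_of_pos_of_le_one_of_nonpos hM (max_le hh2 (by linarith)) ?_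
    have : 0 ≤ 2 * k ^ 2 := by positivity
    linarith
  have e4 : δ ^ (2 * k ^ 2) * δ ^ (-(2 * k ^ 2)) = 1 := by
    rw [← Real.rpow_add h0, add_neg_cancel, Real.rpow_zero]
  calc cc * (∫ t in N, SM.G (fun _ : Fin 2 => k) ![0, h] δ t) + δ ^ (-W) * δ ^ (-W) * (δ ^ (2 * W + 1) * X)
      ≤ cc * (X * ((C + 1) * (Real.exp C1 * (δ ^ (-(2 * k ^ 2)) * P)))) + δ * X := by
        rw [e1]
        refine add_le_add (mul_le_mul_of_nonneg_left (hI.trans ?_) hccp.le) le_rfl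
        exact mul_le_mul_of_nonneg_left (mul_le_mul_of_nonneg_left e2 (by linarith)) hX0.le
    _ = ((2:ℝ) ^ (k ^ 2) / akR k) ^ 2 * ((C + 1) * Real.exp C1) * (X * P) *
          (δ ^ (2 * k ^ 2) * δ ^ (-(2 * k ^ 2))) + δ * X := by
        rw [e3]
        ring
    _ ≤ ((2:ℝ) ^ (k ^ 2) / akR k) ^ 2 * ((C + 1) * Real.exp C1) * (X * P) + X * P := by
        rw [e4, mul_one]
        refine add_le_add le_rfl ?_
        nlinarith
    _ = Ct * (X * P) := by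
        rw [hCt]
        ring

end Run7.h291.WN
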