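import Pool.Agent.Run7.h291.WN.A4

set_option autoImplicit false

/-! The two-point function at distances up to `1`: pointwise bound and integral -/

namespace Run7.h291.WN

open Finset Filter MeasureTheory Topology Complex
open Pool.Agent.N748.MG Pool.Agent.N748.MJ

/-- the bound of the two-point function at distances up to `1` -/
lemma tp_pt (k ρ : ℝ) (hk : 0 < k) (hρ : max 1 (k ^ 2) - 1 < ρ) : ∃ (n : ℕ) (η s : ℝ), 1 ≤ n ∧ 0 < η ∧ 0 < s ∧ s ≤ 1 ∧
    ∀ W : ℝ, 0 ≤ W → ∃ C : ℝ, 0 < C ∧ Ev fun X δ => ∀ h : ℝ, 0 < h → h ≤ 1 →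
    ∫ t in (0:ℝ)..X, ff n k (k + η) W δ t * ff n k (k + η) W δ (t + h) ≤ C * (X * (δ ^ (-ρ) * h ^ (s - 1))) := by
  set κ : ℝ := max 1 (k ^ 2) with hκ
  have hκ1 : 1 ≤ κ := le_max_left _ _
  have hκ2 : k ^ 2 ≤ κ := le_max_right _ _
  set r : ℝ := (ρ - (κ - 1)) / 4 with hr
  have hr0 : 0 < r := by
    rw [hr]
    linarith
  obtain ⟨n, hn⟩ := exists_nat_ge (3 * k ^ 2 / r + 1)
  have hn1 : (1:ℝ) ≤ n := le_trans (by have : 0 ≤ 3 * k ^ 2 / r := by positivity
                                       linarith) hn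
  have hn1' : 1 ≤ n := by exact_mod_cast hn1
  have hn0 : (0:ℝ) < n := by linarith
  have hnr : 3 * k ^ 2 / n ≤ r := by
    rw [div_le_iff₀ hn0]
    have : 3 * k ^ 2 / r ≤ n := by linarith
    rw [div_le_iff₀ hr0] at this
    linarith
  refine ⟨n, r / (2 * k), min r 1, hn1', by positivity, lt_min hr0 one_pos, min_le_right _ _, fun W hW => ?_⟩
  set η : ℝ := r / (2 * k) with hη
  have hη0 : 0 < η := by positivity
  have hkη : 2 * k * η = r := by
    rw [hη]
    field_simp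
  set s : ℝ := min r 1 with hs
  have hs0 : 0 < s := lt_min hr0 one_pos
  have hs1 : s ≤ 1 := min_le_right _ _
  have hsr : s ≤ r := min_le_left _ _
  obtain ⟨C1, hC1, E1⟩ := tp_near n hn1' k η W hk hη0 hW
  obtain ⟨C2, hC2, E2⟩ := tp_up n k (k + η) W hk hW
  refine ⟨max C1 C2, lt_max_of_lt_left hC1, (E1.and E2).mono ?_⟩
  rintro X δ hX1 h0 h1 ⟨E1, E2⟩ h hh hh1
  have hX0 : 0 < X := by linarith
  set L : ℝ := Real.log (1 / δ) with hL
  have hL0 : 0 < L := by
    have := log_inv_ge h0 h1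
    linarith
  set M : ℝ := max h δ with hM
  have hM0 : 0 < M := lt_of_lt_of_le h0 (le_max_right _ _)
  have hM1 : M ≤ 1 := max_le hh1 (by linarith)
  have hMh : h ≤ M := le_max_left _ _
  have hMδ : δ ≤ M := le_max_right _ _
  set y : ℝ := Real.log (1 / M) / L with hy
  have hyL : y * L = Real.log (1 / M) := by
    rw [hy]
    field_simp
  have hy0 : 0 ≤ y := div_nonneg (Real.log_nonneg (by rw [one_le_div hM0]; exact hM1)) hL0.le
  have hy1 : y ≤ 1 := by
    rw [hy, div_le_one hL0]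
    refine Real.log_le_log (by positivity) ?_
    exact one_div_le_one_div_of_le h0 hMδ
  have hMy : M = δ ^ y := by
    have h2 : Real.exp (-(y * L)) = δ ^ y := by
      have := expL h0 (-y)
      rw [neg_neg] at this
      rw [← this, hL]
      congr 1
      ring
    rw [← h2, hyL, one_div, Real.log_inv, neg_neg, Real.exp_log hM0]
  have hδ1 : δ ≤ 1 := by linarith
  have hhs : 1 ≤ h ^ (s - 1) := Real.one_le_rpow_of_pos_of_le_one_of_nonpos hh hh1 (by linarith)
  have hδρ : 0 < δ ^ (-ρ) := Real.rpow_pos_of_pos h0 _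
  set i0 : ℕ := ⌊(n:ℝ) * y⌋₊ with hi0
  have hi1 : (i0:ℝ) ≤ n * y := Nat.floor_le (by positivity)
  have hi2 : n * y < i0 + 1 := Nat.lt_floor_add_one _
  rcases Nat.eq_zero_or_pos i0 with hz | hp
  · -- large distances
    rw [hz] at hi2
    have hyn : y ≤ 1 / n := by
      rw [le_div_iff₀ hn0]
      push_cast at hi2
      linarith
    refine (E2 h hh.le hh1).trans ?_
    have g1 : M ^ (-(2 * k ^ 2)) ≤ δ ^ (-ρ) := by
      rw [hMy, ← Real.rpow_mul h0.le]
      refine Real.rpow_le_rpow_of_exponent_ge h0 hδ1 ?_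
      have g2 : k ^ 2 * y ≤ k ^ 2 * (1 / n) := mul_le_mul_of_nonneg_left hyn (by positivity)
      have g3 : 3 * k ^ 2 / n = 3 * (k ^ 2 * (1 / n)) := by ring
      have g4 : 0 ≤ k ^ 2 * (1 / n) := by positivity
      nlinarith
    refine mul_le_mul (le_max_right _ _) (mul_le_mul_of_nonneg_left ?_ hX0.le) (by positivity)
      (le_trans hC1.le (le_max_left _ _))
    nlinarith
  · -- the barrier at the right scale
    have hi3 : i0 ≤ n := by
      have : (i0:ℝ) ≤ n := hi1.trans (by nlinarith)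
      exact_mod_cast this
    set i : Fin n := ⟨i0 - 1, by omega⟩ with hi
    have hix : (((i:ℕ):ℝ) + 1) / n = i0 / n := by
      congr 1
      rw [hi]
      simp only
      rw [Nat.cast_sub hp]
      push_cast
      ring
    set x : ℝ := i0 / n with hx
    have hxy : x ≤ y := by
      rw [hx, div_le_iff₀ hn0]
      linarith
    have hx0 : 0 ≤ x := by positivity
    have key := E1 i h hh.le (by
      rw [hix]
      refine hMh.trans ?_
      rw [hMy]
      exact Real.rpow_le_rpow_of_exponent_ge h0 hδ1 hxy) (by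
      rw [hix, ← hM, ← hyL]
      refine mul_le_mul_of_nonneg_right ?_ hL0.le
      rw [hx, ← add_div, le_div_iff₀ hn0]
      linarith)
    rw [hix] at key
    refine key.trans ?_
    have g0 : M ^ (-κ) ≤ h ^ (s - 1) * δ ^ (-(κ - 1 + s)) := by
      have g1 : M ^ (-κ) = M ^ (s - 1) * M ^ (-(κ - 1 + s)) := by
        rw [← Real.rpow_add hM0]
        congr 1
        ring
      rw [g1]
      refine mul_le_mul ?_ ?_ (Real.rpow_nonneg hM0.le _) (Real.rpow_nonneg hh.le _)
      · exact Real.rpow_le_rpow_of_nonpos hh hMh (by linarith)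
      · exact Real.rpow_le_rpow_of_nonpos h0 hMδ (by linarith)
    have g1 : δ ^ (-(k ^ 2 * x + 2 * k * η + 3 * k ^ 2 / n)) ≤ M ^ (-κ) * δ ^ (-(2 * r)) := by
      rw [hMy, ← Real.rpow_mul h0.le, ← Real.rpow_add h0]
      refine Real.rpow_le_rpow_of_exponent_ge h0 hδ1 ?_
      have g2 : k ^ 2 * x ≤ κ * y := mul_le_mul hκ2 hxy hx0 (by linarith)
      rw [hkη]
      nlinarith
    have g2 : δ ^ (-(k ^ 2 * x + 2 * k * η + 3 * k ^ 2 / n)) ≤ δ ^ (-ρ) * h ^ (s - 1) := by
      refine g1.trans ?_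
      calc M ^ (-κ) * δ ^ (-(2 * r)) ≤ (h ^ (s - 1) * δ ^ (-(κ - 1 + s))) * δ ^ (-(2 * r)) :=
            mul_le_mul_of_nonneg_right g0 (Real.rpow_nonneg h0.le _)
        _ = h ^ (s - 1) * δ ^ (-(κ - 1 + s) + -(2 * r)) := by
            rw [mul_assoc, ← Real.rpow_add h0]
        _ ≤ h ^ (s - 1) * δ ^ (-ρ) := by
            refine mul_le_mul_of_nonneg_left ?_ (by linarith)
            refine Real.rpow_le_rpow_of_exponent_ge h0 hδ1 ?_
            linarith
        _ = δ ^ (-ρ) * h ^ (s - 1) := mul_comm _ _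
    refine mul_le_mul (le_max_left _ _) (mul_le_mul_of_nonneg_left g2 hX0.le) ?_ (le_trans hC1.le (le_max_left _ _))
    have := Real.rpow_pos_of_pos h0 (-(k ^ 2 * x + 2 * k * η + 3 * k ^ 2 / n))
    positivity

/-- the correlation function -/
noncomputable def cb (n : ℕ) (k v W δ X h : ℝ) : ℝ := ∫ t in (0:ℝ)..X, ff n k v W δ t * ff n k v W δ (t + h)

lemma cb_cont {n : ℕ} {k v W δ X : ℝ} (hk : 0 ≤ k) (h1 : δ ≤ 1 / 16) : Continuous fun h => cb n k v W δ X h := by
  unfold cb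
  refine intervalIntegral.continuous_parametric_intervalIntegral_of_continuous (f := fun h t =>
    ff n k v W δ t * ff n k v W δ (t + h)) ?_ continuous_const
  exact ((ff_cont hk h1).comp continuous_snd).mul ((ff_cont hk h1).comp (by fun_prop))

lemma cb_nn {n : ℕ} {k v W δ X h : ℝ} (h0 : 0 ≤ δ) (hX : 0 ≤ X) : 0 ≤ cb n k v W δ X h :=
  intervalIntegral.integral_nonneg hX fun t _ => mul_nonneg (ff_nn h0 _) (ff_nn h0 _)

/-- the integral of the correlation function over `[0, 1]` -/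
lemma cb_one (k ρ : ℝ) (hk : 0 < k) (hρ : max 1 (k ^ 2) - 1 < ρ) : ∃ (n : ℕ) (η : ℝ), 1 ≤ n ∧ 0 < η ∧
    ∀ W : ℝ, 0 ≤ W → ∃ C : ℝ, 0 < C ∧ Ev fun X δ => ∀ x : ℝ, 0 ≤ x → x ≤ 1 →
    ∫ h in (0:ℝ)..x, cb n k (k + η) W δ X h ≤ C * (X * δ ^ (-ρ)) := by
  obtain ⟨n, η, s, hn, hη, hs, hs1, H⟩ := tp_pt k ρ hk hρ
  refine ⟨n, η, hn, hη, fun W hW => ?_⟩
  obtain ⟨C, hC, E⟩ := H W hW
  refine ⟨C / s, by positivity, E.mono ?_⟩
  intro X δ hX1 h0 h1 E x hx hx1
  have hX0 : 0 < X := by linarith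
  have hδρ : 0 < δ ^ (-ρ) := Real.rpow_pos_of_pos h0 _
  have i1 : IntervalIntegrable (fun h : ℝ => C * (X * (δ ^ (-ρ) * h ^ (s - 1)))) volume 0 x :=
    (((intervalIntegral.intervalIntegrable_rpow' (by linarith)).const_mul _).const_mul _).const_mul _
  calc ∫ h in (0:ℝ)..x, cb n k (k + η) W δ X h ≤ ∫ h in (0:ℝ)..x, C * (X * (δ ^ (-ρ) * h ^ (s - 1))) := by
        refine intervalIntegral.integral_mono_on_of_le_Ioo hx ((cb_cont hk.le h1).intervalIntegrable _ _) i1 ?_
        intro h hh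
        exact E h hh.1 (hh.2.le.trans hx1)
    _ = C * (X * (δ ^ (-ρ) * (x ^ s / s))) := by
        rw [intervalIntegral.integral_const_mul, intervalIntegral.integral_const_mul,
          intervalIntegral.integral_const_mul, integral_rpow (Or.inl (by linarith))]
        rw [sub_add_cancel, Real.zero_rpow hs.ne', sub_zero]
    _ ≤ C * (X * (δ ^ (-ρ) * (1 / s))) := by
        have : x ^ s ≤ 1 := Real.rpow_le_one hx hx1 hs.le
        gcongr
    _ = C / s * (X * δ ^ (-ρ)) := by ring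

end Run7.h291.WN
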