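import Pool.Agent.Run7.h291.WN.A5

set_option autoImplicit false

/-! The two-point function at large distances -/

namespace Run7.h291.WN

open Finset Filter MeasureTheory Topology Complex
open Pool.Agent.N748.MG Pool.Agent.N748.MJ

/-- zeta near its pole -/
lemma pole_ev {ε : ℝ} (hε : 0 < ε) : ∃ d0 : ℝ, 0 < d0 ∧ ∀ δ : ℝ, 0 < δ → δ ≤ d0 →
    (2 * δ) * ‖riemannZeta (1 + 2 * δ)‖ ≤ 1 + ε := by
  have h1 : Tendsto (fun δ : ℝ => ((1 + 2 * δ : ℝ) : ℂ)) (𝓝[>] 0) (𝓝[≠] 1) := by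
    rw [tendsto_nhdsWithin_iff]
    constructor
    · have h2 : Tendsto (fun δ : ℝ => ((1 + 2 * δ : ℝ) : ℂ)) (𝓝 0) (𝓝 ((1 + 2 * (0:ℝ) : ℝ) : ℂ)) := by
        apply Continuous.tendsto
        fun_prop
      have h3 : ((1 + 2 * (0:ℝ) : ℝ) : ℂ) = 1 := by simp
      rw [h3] at h2
      exact h2.mono_left nhdsWithin_le_nhds
    · filter_upwards [self_mem_nhdsWithin] with δ hδ
      have hδ' : 0 < δ := hδ
      rw [Set.mem_compl_iff, Set.mem_singleton_iff]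
      intro h
      have h2 : (1 + 2 * δ : ℝ) = 1 := by exact_mod_cast h
      linarith
  have h2 := (riemannZeta_residue_one.comp h1).norm
  rw [norm_one] at h2
  have h3 := h2.eventually_le_const (show (1:ℝ) < 1 + ε by linarith)
  obtain ⟨d, hd, hd2⟩ := (mem_nhdsGT_iff_exists_Ioc_subset).1 h3
  refine ⟨d, hd, fun δ hδ hδd => ?_⟩
  have h4 := hd2 (⟨hδ, hδd⟩ : δ ∈ Set.Ioc 0 d)
  simp only [Set.mem_setOf_eq, Function.comp_apply] at h4
  rw [norm_mul] at h4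
  have h5 : ‖((1 + 2 * δ : ℝ) : ℂ) - 1‖ = 2 * δ := by
    have : ((1 + 2 * δ : ℝ) : ℂ) - 1 = ((2 * δ : ℝ) : ℂ) := by push_cast; ring
    rw [this, Complex.norm_real, Real.norm_of_nonneg (by linarith)]
  rw [h5] at h4
  have h6 : ((1 + 2 * δ : ℝ) : ℂ) = 1 + 2 * (δ : ℂ) := by push_cast; ring
  rwa [h6] at h4

/-- the main term of the two-point function -/
lemma exp_two (k h : ℝ) {δ : ℝ} (h0 : 0 < δ) (h1 : δ ≤ 1 / 16) :
    Real.exp (SM.Lr (fun _ : Fin 2 => k) ![0, h] δ) =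
      ‖riemannZeta (1 + 2 * δ)‖ ^ (2 * k ^ 2) * ‖riemannZeta (1 + 2 * δ + h * I)‖ ^ (2 * k ^ 2) := by
  rw [exp_Lr _ _ h0 h1]
  simp only [Fin.prod_univ_two, Matrix.cons_val_zero, Matrix.cons_val_one, sub_self, zero_sub, sub_zero]
  have e0 : ((1 + 2 * δ : ℝ) : ℂ) + ((0:ℝ) : ℂ) * I = 1 + 2 * (δ : ℂ) := by push_cast; ring
  have e1 : ((1 + 2 * δ : ℝ) : ℂ) + ((h:ℝ) : ℂ) * I = 1 + 2 * (δ : ℂ) + h * I := by push_cast; ring
  have e2 : ((1 + 2 * δ : ℝ) : ℂ) + ((-h:ℝ) : ℂ) * I = (starRingEnd ℂ) (1 + 2 * (δ : ℂ) + h * I) := by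
    apply Complex.ext <;> simp
  rw [e0, e1, e2, riemannZeta_conj, RCLike.norm_conj]
  have hp : ∀ y : ℝ, 0 ≤ y → y ^ (2 * k ^ 2) = y ^ (k * k) * y ^ (k * k) := by
    intro y hy
    rcases eq_or_lt_of_le hy with h | h
    · rw [← h]
      by_cases hk : k = 0
      · subst hk
        simp
      · have : 0 < k ^ 2 := by positivity
        rw [Real.zero_rpow (by positivity), Real.zero_rpow (by nlinarith)]
        ring
    · rw [← Real.rpow_add h]
      congr 1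
      ring
  rw [hp _ (norm_nonneg _), hp _ (norm_nonneg _)]
  ring

/-- the two-point function at arbitrary distances -/
lemma tp_far (n : ℕ) (k v W : ℝ) (hk : 0 < k) (hW : 0 ≤ W) (ε : ℝ) (hε : 0 < ε) : Ev fun X δ =>
    ∀ h : ℝ, 0 ≤ h → h ≤ X ^ ((1:ℝ) / 2) → cb n k v W δ X h ≤ X * ((1 + ε) * B2 k δ h + ε) := by
  obtain ⟨c, C, hc, hC, HJ⟩ := jmr 2 k (2 * W + 1) hk (by linarith)
  -- choice of the constants
  set e1 : ℝ := min (ε / 4) 1 with he1
  have he10 : 0 < e1 := lt_min (by positivity) one_pos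
  have he11 : e1 ≤ 1 := min_le_right _ _
  have he12 : e1 ≤ ε / 4 := min_le_left _ _
  have hk2 : 0 < 2 * k ^ 2 := by positivity
  obtain ⟨e2, he2, he22⟩ : ∃ e2 : ℝ, 0 < e2 ∧ (1 + e2) ^ (2 * k ^ 2) ≤ 1 + e1 := by
    refine ⟨(1 + e1) ^ (1 / (2 * k ^ 2)) - 1, ?_, ?_⟩
    · have := Real.one_lt_rpow (show 1 < 1 + e1 by linarith) (show 0 < 1 / (2 * k ^ 2) by positivity)
      linarith
    · rw [add_sub_cancel, ← Real.rpow_mul (by linarith), one_div, inv_mul_cancel₀ hk2.ne', Real.rpow_one]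
  obtain ⟨d0, hd0, hpole⟩ := pole_ev he2
  have ha := akp k
  refine (((HJ (e1 * c) (by positivity)).and (Ev.of_le hd0)).and (Ev.of_le hε)).mono ?_
  rintro X δ hX1 h0 h1 ⟨⟨HJ, hδ0⟩, hδε⟩ h hh hh2
  have hX0 : 0 < X := by linarith
  obtain ⟨N, n1, n2, n3, n4, n5⟩ := HJ ![0, h] (by
    intro j
    fin_cases j
    · simpa using Real.rpow_nonneg hX0.le _
    · simpa [abs_of_nonneg hh] using hh2)
  obtain ⟨a, a1, a2, a3, a4, a5⟩ := n5 (fun _ => k) (by
    intro j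
    rw [abs_of_pos hk])
  set E : ℝ := Real.exp (SM.Lr (fun _ : Fin 2 => k) ![0, h] δ) with hE
  have hE0 : 0 < E := Real.exp_pos _
  have ha0 : 0 < a := lt_of_lt_of_le hc a1
  have hI : ∫ t in N, SM.G (fun _ : Fin 2 => k) ![0, h] δ t ≤ X * (a * E) * (1 + e1) := by
    have h2 := (abs_le.1 a5).2
    have h3 : e1 * c * (X * E) ≤ e1 * a * (X * E) :=
      mul_le_mul_of_nonneg_right (mul_le_mul_of_nonneg_left a1 he10.le) (by positivity)
    have h4 : X * (a * E) * (1 + e1) = X * (a * E) + e1 * a * (X * E) := by ring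
    rw [h4]
    linarith
  set cc : ℝ := ((2 * δ) ^ (k ^ 2) / akR k) ^ 2 with hcc
  have hmain := offN (g := fun t => ff n k v W δ t * ff n k v W δ (t + h))
    (G := fun t => SM.G (fun _ : Fin 2 => k) ![0, h] δ t) (N := N) (X := X) (B := δ ^ (-W) * δ ^ (-W))
    (c := cc) (v := δ ^ (2 * W + 1) * X) hX0.le n1 n2 n3
    (mul_nonneg (Real.rpow_nonneg h0.le _) hX0.le)
    ((ff_cont hk.le h1).mul ((ff_cont hk.le h1).comp (by fun_prop)))
    (fun t => mul_nonneg (ff_nn h0.le _) (ff_nn h0.le _))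
    (fun t => mul_le_mul ((ff_le h0.le _).trans (FP_le' _)) ((ff_le h0.le _).trans (FP_le' _)) (ff_nn h0.le _)
      (Real.rpow_nonneg h0.le _)) a4 (fun t ht => by
        rw [G_two]
        refine (mul_le_mul ((ff_le h0.le _).trans (FP_le _)) ((ff_le h0.le _).trans (FP_le _)) (ff_nn h0.le _)
          (Zk_nn h0.le _)).trans (le_of_eq ?_)
        unfold Zk
        ring)
  have hcb : cb n k v W δ X h = ∫ t in (0:ℝ)..X, ff n k v W δ t * ff n k v W δ (t + h) := rfl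
  rw [hcb]
  refine hmain.trans ?_
  have f1 : δ ^ (-W) * δ ^ (-W) * (δ ^ (2 * W + 1) * X) = δ * X := by
    rw [← mul_assoc, ← Real.rpow_add h0, ← Real.rpow_add h0]
    have : -W + -W + (2 * W + 1) = 1 := by ring
    rw [this, Real.rpow_one]
  rw [f1]
  have hp := hpole δ h0 hδ0
  set z0 : ℝ := ‖riemannZeta (1 + 2 * δ)‖ with hz0
  have hz00 : 0 ≤ z0 := norm_nonneg _
  set z1 : ℝ := ‖riemannZeta (1 + 2 * δ + h * I)‖ ^ (2 * k ^ 2) with hz1
  have hz10 : 0 ≤ z1 := Real.rpow_nonneg (norm_nonneg _) _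
  have hEe : E = z0 ^ (2 * k ^ 2) * z1 := exp_two k h h0 h1
  have hB2 : B2 k δ h = a / akR k ^ 2 * z1 := by
    unfold B2
    rw [a3, aC_re, Complex.ofReal_re]
  have f2 : cc * E ≤ (1 + e1) / akR k ^ 2 * z1 := by
    have g1 : (2 * δ) ^ (k ^ 2) * (2 * δ) ^ (k ^ 2) = (2 * δ) ^ (2 * k ^ 2) := by
      rw [← Real.rpow_add (by linarith)]
      congr 1
      ring
    have g2 : (2 * δ) ^ (2 * k ^ 2) * z0 ^ (2 * k ^ 2) ≤ 1 + e1 := by
      rw [← Real.mul_rpow (by linarith) hz00]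
      exact (Real.rpow_le_rpow (by positivity) hp hk2.le).trans he22
    calc cc * E = ((2 * δ) ^ (2 * k ^ 2) * z0 ^ (2 * k ^ 2)) / akR k ^ 2 * z1 := by
          rw [hEe, hcc, div_pow, sq, g1]
          ring
      _ ≤ (1 + e1) / akR k ^ 2 * z1 := by gcongr
  have hB0 : 0 ≤ B2 k δ h := by
    rw [hB2]
    positivity
  have hcc0 : 0 ≤ cc := sq_nonneg _
  calc cc * (∫ t in N, SM.G (fun _ : Fin 2 => k) ![0, h] δ t) + δ * X
      ≤ cc * (X * (a * E) * (1 + e1)) + ε * X :=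
        add_le_add (mul_le_mul_of_nonneg_left hI hcc0) (mul_le_mul_of_nonneg_right hδε hX0.le)
    _ = X * a * (1 + e1) * (cc * E) + ε * X := by ring
    _ ≤ X * a * (1 + e1) * ((1 + e1) / akR k ^ 2 * z1) + ε * X :=
        add_le_add (mul_le_mul_of_nonneg_left f2 (by positivity)) le_rfl
    _ = X * ((1 + e1) ^ 2 * B2 k δ h + ε) := by
        rw [hB2]
        ring
    _ ≤ X * ((1 + ε) * B2 k δ h + ε) := by
        refine mul_le_mul_of_nonneg_left (add_le_add (mul_le_mul_of_nonneg_right ?_ hB0) le_rfl) hX0.le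
        nlinarith

end Run7.h291.WN
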