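import Pool.Agent.Run7.h291.WN.A6

set_option autoImplicit false

/-! The means of the truncated weights -/

namespace Run7.h291.WN

open Finset Filter MeasureTheory Topology Complex
open Pool.Agent.N748.MG Pool.Agent.N748.MJ

/-- (CM) for a real exponent -/
lemma cmr (k D ε : ℝ) (hk : 0 < k) (hD : 0 < D) (hε : 0 < ε) : Ev fun X δ =>
    ∃ N : Set ℝ, MeasurableSet N ∧ N ⊆ Set.Icc 0 X ∧ volume (Set.Icc 0 X \ N) ≤ ENNReal.ofReal (δ ^ D * X) ∧
      |(2 * δ) ^ (k ^ 2) * (∫ t in N, mz δ t ^ (2 * k)) - X * akR k| ≤ ε * X ∧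
      |(2 * δ) ^ ((2 * k) ^ 2) * (∫ t in N, mz δ t ^ (2 * (2 * k))) - X * akR (2 * k)| ≤ ε * X := by
  refine (cmF (2 * k) D (by positivity) hD ε hε).mono ?_
  rintro X δ hX1 h0 h1 ⟨N, n1, n2, n3, n4, n5⟩
  have g1 := TMA.real_form δ X k ε N h0 (n5 k (by
    rw [Complex.norm_real, Real.norm_of_nonneg hk.le]
    linarith))
  have g2 := TMA.real_form δ X (2 * k) ε N h0 (by
    have := n5 ((2 * k : ℝ) : ℂ) (by
      rw [Complex.norm_real, Real.norm_of_nonneg (by linarith)])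
    exact this)
  rw [aC_re] at g1 g2
  exact ⟨N, n1, n2, n3, g1, g2⟩

lemma G_kT (n : ℕ) (k g δ x t : ℝ) : SM.G (kT n k g) (hT n δ x) δ t =
    mz δ t ^ (2 * k) * ∏ j : Fin n, mz δ (t + sh n δ x j) ^ (2 * (g / n)) := by
  unfold SM.G kT hT
  simp only [Fin.prod_univ_succ, Fin.cons_zero, Fin.cons_succ, add_zero]

/-- the points beyond the barrier carry little mass -/
lemma beyond (n : ℕ) (hn : 1 ≤ n) (k η W : ℝ) (hk : 0 < k) (hη : 0 < η) (hW : 0 ≤ W) (ε : ℝ) (hε : 0 < ε) :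
    Ev fun X δ => ∀ i : Fin n,
    ∫ t in (0:ℝ)..X, FP k W δ t * (1 - psi (bar n (k + η) δ ((((i:ℕ):ℝ) + 1) / n) t)) ≤ ε * X := by
  have hn0 : (0:ℝ) < n := by exact_mod_cast hn
  set γ : ℝ := η / 2 with hγ
  have hγ0 : 0 < γ := by positivity
  obtain ⟨c, C, hc, hC, HJ⟩ := jmr (n + 1) (k + γ) (W + 1) (by positivity) (by linarith)
  obtain ⟨C1, H1⟩ := Lr_tilt n hn k γ hk.le hγ0.le
  have ha := akp k
  set Ct : ℝ := (2:ℝ) ^ (k ^ 2) / akR k * ((C + 1) * Real.exp C1) with hCt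
  have hCtp : 0 < Ct := by positivity
  have hX : ∀ᶠ X : ℝ in atTop, ((n:ℝ) + 2) ≤ X ^ ((1:ℝ) / 2) :=
    (tendsto_rpow_atTop (by norm_num)).eventually_ge_atTop _
  refine ((((HJ 1 one_pos).and (Ev.of_ev hX)).and (Ev.small (C := Ct) (c := η ^ 2 / (2 * n)) (e := ε / 2)
    (by positivity) (by positivity))).and (Ev.of_le (show 0 < ε / 2 by positivity))).mono ?_
  rintro X δ hX1 h0 h1 ⟨⟨⟨HJ, hX2⟩, hsm⟩, hδε⟩ i
  set x : ℝ := (((i:ℕ):ℝ) + 1) / n with hx
  have hx0 : 0 ≤ x := by positivity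
  have hx1 : x ≤ 1 := by
    rw [hx, div_le_one hn0]
    exact_mod_cast i.2
  have hxn : 1 / n ≤ x := by
    rw [hx]
    gcongr
    linarith [(Nat.cast_nonneg (i:ℕ) : (0:ℝ) ≤ (i:ℕ))]
  have hp := Real.rpow_pos_of_pos h0 x
  have hx1' : δ ^ x ≤ 1 := Real.rpow_le_one h0.le (by linarith) hx0
  have hX0 : 0 < X := by linarith
  obtain ⟨N, n1, n2, n3, n4, n5⟩ := HJ (hT n δ x) (by
    intro j
    refine le_trans ?_ hX2
    unfold hT
    refine Fin.cases ?_ (fun j => ?_) j
    · rw [Fin.cons_zero, abs_zero]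
      positivity
    · rw [Fin.cons_succ, abs_of_pos (sh_pos h0 j)]
      have := sh_le (x := x) h0 j
      nlinarith)
  obtain ⟨a, a1, a2, a3, a4, a5⟩ := n5 (kT n k γ) (by
    intro j
    unfold kT
    refine Fin.cases ?_ (fun j => ?_) j
    · rw [Fin.cons_zero, abs_of_pos hk]
      linarith
    · rw [Fin.cons_succ, abs_of_pos (by positivity)]
      have : γ / n ≤ γ := div_le_self hγ0.le (by exact_mod_cast hn)
      linarith)
  have hLr := H1 δ h0 h1 x hx0 hx1
  set E : ℝ := SM.Lr (kT n k γ) (hT n δ x) δ with hE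
  have hI : ∫ t in N, SM.G (kT n k γ) (hT n δ x) δ t ≤ X * ((C + 1) * Real.exp E) := by
    have := (abs_le.1 a5).2
    have he := Real.exp_pos E
    have h2 : X * (a * Real.exp E) ≤ X * (C * Real.exp E) :=
      mul_le_mul_of_nonneg_left (mul_le_mul_of_nonneg_right a2 he.le) hX0.le
    linarith
  have hmz : ∀ t ∈ N, ∀ j : Fin n, 0 < mz δ (t + sh n δ x j) := by
    intro t ht j
    have := n4 t ht (Fin.succ j)
    unfold hT at this
    rwa [Fin.cons_succ] at this
  set cc : ℝ := (2 * δ) ^ (k ^ 2) / akR k * δ ^ (x * (k + η) * (2 * γ)) with hcc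
  have hcc0 : 0 ≤ cc := by
    have := Real.rpow_nonneg (show 0 ≤ 2 * δ by linarith) (k ^ 2)
    have := Real.rpow_nonneg h0.le (x * (k + η) * (2 * γ))
    positivity
  have hmain := offN (g := fun t => FP k W δ t * (1 - psi (bar n (k + η) δ x t)))
    (G := fun t => SM.G (kT n k γ) (hT n δ x) δ t) (N := N) (X := X) (B := δ ^ (-W) * 1)
    (c := cc) (v := δ ^ (W + 1) * X) hX0.le n1 n2 n3
    (mul_nonneg (Real.rpow_nonneg h0.le _) hX0.le)
    ((FP_cont hk.le h1).mul (continuous_const.sub (psi_cont.comp (bar_cont h1))))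
    (fun t => mul_nonneg (FP_nn h0.le _) (by linarith [psi_le (bar n (k + η) δ x t)]))
    (fun t => mul_le_mul (FP_le' _) (by linarith [psi_nn (bar n (k + η) δ x t)])
      (by linarith [psi_le (bar n (k + η) δ x t)]) (Real.rpow_nonneg h0.le _)) a4 (fun t ht => by
        have g1 := psi_lo (bar_nn h0.le t : 0 ≤ bar n (k + η) δ x t) (show 0 ≤ 2 * γ by linarith)
        refine (mul_le_mul (FP_le t) g1 (by linarith [psi_le (bar n (k + η) δ x t)]) (Zk_nn h0.le t)).trans
          (le_of_eq ?_)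
        rw [bar_rpow h0 (hmz t ht), G_kT]
        unfold Zk
        have e2 : ∀ j : Fin n, mz δ (t + sh n δ x j) ^ (2 * γ / n) = mz δ (t + sh n δ x j) ^ (2 * (γ / n)) := by
          intro j
          congr 1
          ring
        rw [Finset.prod_congr rfl fun j _ => e2 j, hcc]
        ring)
  refine hmain.trans ?_
  have f1 : δ ^ (-W) * 1 * (δ ^ (W + 1) * X) = δ * X := by
    rw [mul_one, ← mul_assoc, ← Real.rpow_add h0]
    have : -W + (W + 1) = 1 := by ring
    rw [this, Real.rpow_one]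
  have f2 : Real.exp E ≤ Real.exp C1 * δ ^ (-(k ^ 2 + 2 * k * γ * x + γ ^ 2 * (x + 1 / n))) := by
    rw [← expL h0, ← Real.exp_add]
    exact Real.exp_le_exp.2 (by linarith)
  have f3 : cc = (2:ℝ) ^ (k ^ 2) / akR k * δ ^ (k ^ 2 + x * (k + η) * (2 * γ)) := by
    rw [hcc, Real.mul_rpow (by norm_num) h0.le, Real.rpow_add h0]
    ring
  have f4 : δ ^ (k ^ 2 + x * (k + η) * (2 * γ)) * δ ^ (-(k ^ 2 + 2 * k * γ * x + γ ^ 2 * (x + 1 / n))) ≤
      δ ^ (η ^ 2 / (2 * n)) := by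
    rw [← Real.rpow_add h0]
    refine Real.rpow_le_rpow_of_exponent_ge h0 (by linarith) ?_
    have g1 : η ^ 2 / (2 * n) = η ^ 2 / 2 * (1 / n) := by ring
    have g2 : γ ^ 2 * (x + 1 / n) ≤ γ ^ 2 * (2 * x) := mul_le_mul_of_nonneg_left (by linarith) (by positivity)
    have g3 : η ^ 2 / 2 * (1 / n) ≤ η ^ 2 / 2 * x := mul_le_mul_of_nonneg_left hxn (by positivity)
    have g4 : x * (k + η) * (2 * γ) = 2 * k * γ * x + η ^ 2 * x := by
      rw [hγ]
      ring
    have g5 : γ ^ 2 * (2 * x) = η ^ 2 / 2 * x := by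
      rw [hγ]
      ring
    rw [g1]
    linarith
  calc cc * (∫ t in N, SM.G (kT n k γ) (hT n δ x) δ t) + δ ^ (-W) * 1 * (δ ^ (W + 1) * X)
      ≤ cc * (X * ((C + 1) * (Real.exp C1 * δ ^ (-(k ^ 2 + 2 * k * γ * x + γ ^ 2 * (x + 1 / n)))))) + ε / 2 * X := by
        rw [f1]
        refine add_le_add (mul_le_mul_of_nonneg_left (hI.trans ?_) hcc0) (mul_le_mul_of_nonneg_right hδε hX0.le)
        exact mul_le_mul_of_nonneg_left (mul_le_mul_of_nonneg_left f2 (by linarith)) hX0.le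
    _ = Ct * (δ ^ (k ^ 2 + x * (k + η) * (2 * γ)) *
          δ ^ (-(k ^ 2 + 2 * k * γ * x + γ ^ 2 * (x + 1 / n)))) * X + ε / 2 * X := by
        rw [f3, hCt]
        ring
    _ ≤ Ct * δ ^ (η ^ 2 / (2 * n)) * X + ε / 2 * X := by
        refine add_le_add (mul_le_mul_of_nonneg_right (mul_le_mul_of_nonneg_left f4 hCtp.le) hX0.le) le_rfl
    _ ≤ ε / 2 * X + ε / 2 * X := add_le_add (mul_le_mul_of_nonneg_right hsm hX0.le) le_rfl
    _ = ε * X := by ring

/-- the means -/
lemma means (n : ℕ) (hn : 1 ≤ n) (k η W : ℝ) (hk : 0 < k) (hη : 0 < η) (hW : 2 * k ^ 2 + 1 ≤ W) (ε : ℝ)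
    (hε : 0 < ε) : Ev fun X δ => ∫ t in (0:ℝ)..X, FP k W δ t ≤ (1 + ε) * X ∧
      (1 - ε) * X ≤ ∫ t in (0:ℝ)..X, ff n k (k + η) W δ t := by
  have hn0 : (0:ℝ) < n := by exact_mod_cast hn
  have ha := akp k
  have ha2 := akp (2 * k)
  have hW0 : 0 < W := by nlinarith [sq_nonneg k]
  set e1 : ℝ := min (akR k * (ε / 4)) 1 with he1
  have he10 : 0 < e1 := lt_min (by positivity) one_pos
  have he11 : e1 ≤ akR k * (ε / 4) := min_le_left _ _
  have he12 : e1 ≤ 1 := min_le_right _ _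
  set C2 : ℝ := (2:ℝ) ^ (2 * k ^ 2) * (akR (2 * k) + 1) / akR k ^ 2 with hC2
  have hC20 : 0 < C2 := by positivity
  refine ((((cmr k (W + 1) e1 hk (by linarith) he10).and
    (beyond n hn k η W hk hη hW0.le (ε / (4 * n)) (by positivity))).and
    (Ev.of_le (show 0 < ε / 4 by positivity))).and
    (Ev.small (C := C2) (c := 1) (e := ε / 4) one_pos (by positivity))).mono ?_
  rintro X δ hX1 h0 h1 ⟨⟨⟨⟨N, n1, n2, n3, n4, n5⟩, hbey⟩, hδε⟩, hsm⟩
  rw [Real.rpow_one] at hsm
  have hX0 : 0 < X := by linarith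
  have hmzc : Continuous fun t => mz δ t := TMA.cont h1
  have hi1 : ∀ b : ℝ, 0 ≤ b → IntegrableOn (fun t => mz δ t ^ b) N := fun b hb =>
    ((hmzc.rpow_const fun t => Or.inr hb).integrableOn_Icc).mono_set n2
  set c0 : ℝ := (2 * δ) ^ (k ^ 2) / akR k with hc0
  have hc0p : 0 < c0 := div_pos (Real.rpow_pos_of_pos (by linarith) _) ha
  have hZi : ∫ t in N, Zk k δ t = c0 * ∫ t in N, mz δ t ^ (2 * k) := by
    unfold Zk
    exact integral_const_mul _ _
  have hZab : |(∫ t in N, Zk k δ t) - X| ≤ ε / 4 * X := by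
    have h2 : (∫ t in N, Zk k δ t) - X =
        ((2 * δ) ^ (k ^ 2) * (∫ t in N, mz δ t ^ (2 * k)) - X * akR k) / akR k := by
      rw [hZi, hc0]
      field_simp
    rw [h2, abs_div, abs_of_pos ha, div_le_iff₀ ha]
    refine n4.trans ?_
    nlinarith
  have hZN : IntegrableOn (fun t => Zk k δ t) N := ((Zk_cont hk.le h1).integrableOn_Icc).mono_set n2
  have f1 : δ ^ (-W) * (δ ^ (W + 1) * X) = δ * X := by
    rw [← mul_assoc, ← Real.rpow_add h0]
    have : -W + (W + 1) = 1 := by ring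
    rw [this, Real.rpow_one]
  constructor
  · have hmain := offN (g := fun t => FP k W δ t) (G := fun t => Zk k δ t) (N := N) (X := X) (B := δ ^ (-W))
      (c := 1) (v := δ ^ (W + 1) * X) hX0.le n1 n2 n3 (mul_nonneg (Real.rpow_nonneg h0.le _) hX0.le)
      (FP_cont hk.le h1) (fun t => FP_nn h0.le t) (fun t => FP_le' t) hZN (fun t _ => by
        rw [one_mul]
        exact FP_le t)
    rw [one_mul, f1] at hmain
    have := (abs_le.1 hZab).2
    nlinarith
  · -- the lower bound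
    have hFI : IntervalIntegrable (fun t => FP k W δ t) volume 0 X := (FP_cont hk.le h1).intervalIntegrable _ _
    have hfI : IntervalIntegrable (fun t => ff n k (k + η) W δ t) volume 0 X :=
      (ff_cont hk.le h1).intervalIntegrable _ _
    have hti : ∀ i : Fin n, IntervalIntegrable
        (fun t => FP k W δ t * (1 - psi (bar n (k + η) δ ((((i:ℕ):ℝ) + 1) / n) t))) volume 0 X := fun i =>
      ((FP_cont hk.le h1).mul (continuous_const.sub (psi_cont.comp (bar_cont h1)))).intervalIntegrable _ _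
    have g1 : (∫ t in (0:ℝ)..X, FP k W δ t) - (∫ t in (0:ℝ)..X, ff n k (k + η) W δ t) ≤
        ∑ i : Fin n, ∫ t in (0:ℝ)..X, FP k W δ t * (1 - psi (bar n (k + η) δ ((((i:ℕ):ℝ) + 1) / n) t)) := by
      rw [← intervalIntegral.integral_sub hFI hfI, ← intervalIntegral.integral_finsetSum fun i _ => hti i]
      refine intervalIntegral.integral_mono_on hX0.le (hFI.sub hfI) ?_ fun t _ => ?_
      · exact Continuous.intervalIntegrable (by
          refine continuous_finsetSum _ fun i _ => ?_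
          exact (FP_cont hk.le h1).mul (continuous_const.sub (psi_cont.comp (bar_cont h1)))) _ _
      · have h2 := one_sub_prod Finset.univ (fun i : Fin n => psi (bar n (k + η) δ ((((i:ℕ):ℝ) + 1) / n) t))
          (fun i => psi_nn _) (fun i => psi_le _)
        have h3 := FP_nn (k := k) (W := W) h0.le t
        rw [← Finset.mul_sum]
        unfold ff
        nlinarith
    have g2 : ∑ i : Fin n, ∫ t in (0:ℝ)..X, FP k W δ t * (1 - psi (bar n (k + η) δ ((((i:ℕ):ℝ) + 1) / n) t)) ≤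
        ε / 4 * X := by
      calc _ ≤ ∑ _i : Fin n, ε / (4 * n) * X := Finset.sum_le_sum fun i _ => hbey i
        _ = ε / 4 * X := by
            rw [Finset.sum_const, Finset.card_univ, Fintype.card_fin, nsmul_eq_mul]
            field_simp
    -- the lower bound for the truncated moment
    have hM0 : 0 < δ ^ (-W) := Real.rpow_pos_of_pos h0 _
    have g3 : (∫ t in N, Zk k δ t) - δ ^ W * (c0 ^ 2 * ∫ t in N, mz δ t ^ (2 * (2 * k))) ≤
        ∫ t in (0:ℝ)..X, FP k W δ t := by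
      have h2 : ∫ t in N, FP k W δ t ≤ ∫ t in (0:ℝ)..X, FP k W δ t := by
        rw [intervalIntegral.integral_of_le hX0.le, ← integral_Icc_eq_integral_Ioc]
        exact setIntegral_mono_set ((FP_cont hk.le h1).integrableOn_Icc)
          (Eventually.of_forall fun t => FP_nn h0.le t) n2.eventuallyLE
      refine le_trans ?_ h2
      rw [← integral_const_mul, ← integral_const_mul,
        ← integral_sub hZN (((hi1 _ (by positivity)).const_mul _).const_mul _)]
      refine setIntegral_mono_on (hZN.sub (((hi1 _ (by positivity)).const_mul _).const_mul _))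
        (((FP_cont hk.le h1).integrableOn_Icc).mono_set n2) n1 fun t _ => ?_
      have h3 : c0 ^ 2 * mz δ t ^ (2 * (2 * k)) = Zk k δ t ^ 2 := by
        unfold Zk
        rw [mul_pow, ← Real.rpow_natCast (mz δ t ^ (2 * k)) 2, ← Real.rpow_mul (TMA.mz_nn _ _)]
        congr 2
        push_cast
        ring
      rw [h3]
      have h4 : δ ^ W * δ ^ (-W) = 1 := by rw [← Real.rpow_add h0, add_neg_cancel, Real.rpow_zero]
      have hW1 : 0 < δ ^ W := Real.rpow_pos_of_pos h0 _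
      have hz := Zk_nn (k := k) h0.le t
      unfold FP
      rcases le_total (Zk k δ t) (δ ^ (-W)) with h5 | h5
      · rw [min_eq_left h5]
        have : 0 ≤ δ ^ W * Zk k δ t ^ 2 := by positivity
        linarith
      · rw [min_eq_right h5]
        -- b ≥ a - a^2/b
        have h6 : Zk k δ t - δ ^ W * Zk k δ t ^ 2 - δ ^ (-W) =
            -(δ ^ W * ((Zk k δ t - δ ^ (-W)) ^ 2 + Zk k δ t * δ ^ (-W))) := by
          have h7 : δ ^ W * ((Zk k δ t - δ ^ (-W)) ^ 2 + Zk k δ t * δ ^ (-W)) =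
              δ ^ W * Zk k δ t ^ 2 - (δ ^ W * δ ^ (-W)) * Zk k δ t + (δ ^ W * δ ^ (-W)) * δ ^ (-W) := by ring
          rw [h7, h4]
          ring
        have h8 : 0 ≤ δ ^ W * ((Zk k δ t - δ ^ (-W)) ^ 2 + Zk k δ t * δ ^ (-W)) := by positivity
        linarith
    have g4 : δ ^ W * (c0 ^ 2 * ∫ t in N, mz δ t ^ (2 * (2 * k))) ≤ ε / 4 * X := by
      have h2 := (abs_le.1 n5).2
      have h3 : (2 * δ) ^ ((2 * k) ^ 2) * (∫ t in N, mz δ t ^ (2 * (2 * k))) ≤ X * (akR (2 * k) + 1) := by nlinarith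
      have h4 : c0 ^ 2 * (∫ t in N, mz δ t ^ (2 * (2 * k))) =
          (2 * δ) ^ (-(2 * k ^ 2)) / akR k ^ 2 * ((2 * δ) ^ ((2 * k) ^ 2) * (∫ t in N, mz δ t ^ (2 * (2 * k)))) := by
        have h5 : (2 * δ) ^ (k ^ 2) * (2 * δ) ^ (k ^ 2) = (2 * δ) ^ (-(2 * k ^ 2)) * (2 * δ) ^ ((2 * k) ^ 2) := by
          rw [← Real.rpow_add (by linarith), ← Real.rpow_add (by linarith)]
          congr 1
          ring
        rw [hc0, div_pow, sq, h5]
        ring
      have h6 : (2 * δ) ^ (-(2 * k ^ 2)) ≤ δ ^ (-(2 * k ^ 2)) := by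
        refine Real.rpow_le_rpow_of_nonpos h0 (by linarith) ?_
        have : 0 ≤ 2 * k ^ 2 := by positivity
        linarith
      have h7 : δ ^ W * δ ^ (-(2 * k ^ 2)) ≤ δ := by
        rw [← Real.rpow_add h0]
        calc δ ^ (W + -(2 * k ^ 2)) ≤ δ ^ (1:ℝ) :=
              Real.rpow_le_rpow_of_exponent_ge h0 (by linarith) (by linarith)
          _ = δ := Real.rpow_one δ
      have h8 : (akR (2 * k) + 1) / akR k ^ 2 ≤ C2 := by
        rw [hC2, div_le_div_iff_of_pos_right (by positivity)]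
        have : 1 ≤ (2:ℝ) ^ (2 * k ^ 2) := Real.one_le_rpow (by norm_num) (by positivity)
        nlinarith
      rw [h4]
      have hW1 : 0 < δ ^ W := Real.rpow_pos_of_pos h0 _
      calc δ ^ W * ((2 * δ) ^ (-(2 * k ^ 2)) / akR k ^ 2 *
            ((2 * δ) ^ ((2 * k) ^ 2) * (∫ t in N, mz δ t ^ (2 * (2 * k)))))
          ≤ δ ^ W * (δ ^ (-(2 * k ^ 2)) / akR k ^ 2 * (X * (akR (2 * k) + 1))) := by
            refine mul_le_mul_of_nonneg_left ?_ hW1.le
            refine mul_le_mul (by gcongr) h3 ?_ ?_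
            · refine mul_nonneg (Real.rpow_nonneg (by linarith) _) (integral_nonneg fun t => ?_)
              exact Real.rpow_nonneg (TMA.mz_nn _ _) _
            · have := Real.rpow_nonneg h0.le (-(2 * k ^ 2))
              positivity
        _ = (δ ^ W * δ ^ (-(2 * k ^ 2))) * ((akR (2 * k) + 1) / akR k ^ 2) * X := by ring
        _ ≤ δ * C2 * X := by
            refine mul_le_mul_of_nonneg_right (mul_le_mul h7 h8 (by positivity) h0.le) hX0.le
        _ ≤ ε / 4 * X := by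
            refine mul_le_mul_of_nonneg_right ?_ hX0.le
            linarith
    have g5 := (abs_le.1 hZab).1
    have g6 : 0 < ε * X := by positivity
    linarith

end Run7.h291.WN
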