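import Mathlib

set_option autoImplicit false

/-! Mean squares of averages over windows of a bounded continuous function, in terms of its correlations -/

namespace Run7.h291.WN

open Filter MeasureTheory Topology

/-- the square of an integral -/
lemma sq_int {g : ℝ → ℝ} (hg : Continuous g) (H : ℝ) :
    (∫ x in (0:ℝ)..H, g x) ^ 2 = 2 * ∫ y in (0:ℝ)..H, g y * ∫ x in (0:ℝ)..y, g x := by
  have hd : ∀ y : ℝ, HasDerivAt (fun y => (∫ x in (0:ℝ)..y, g x) ^ 2) (2 * (g y * ∫ x in (0:ℝ)..y, g x)) y := by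
    intro y
    have h1 : HasDerivAt (fun y => ∫ x in (0:ℝ)..y, g x) (g y) y :=
      intervalIntegral.integral_hasDerivAt_right (hg.intervalIntegrable _ _)
        (hg.stronglyMeasurableAtFilter _ _) hg.continuousAt
    have h2 := h1.pow 2
    have h3 : 2 * (g y * ∫ x in (0:ℝ)..y, g x) = ((2:ℕ):ℝ) * (∫ x in (0:ℝ)..y, g x) ^ (2 - 1) * g y := by
      simp
      ring
    rw [h3]
    exact h2
  have hc : Continuous fun y => ∫ x in (0:ℝ)..y, g x :=
    intervalIntegral.continuous_primitive (fun a b => hg.intervalIntegrable a b) 0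
  have h3 := intervalIntegral.integral_eq_sub_of_hasDerivAt (a := 0) (b := H) (fun y _ => hd y)
    ((continuous_const.mul (hg.mul hc)).intervalIntegrable _ _)
  rw [intervalIntegral.integral_const_mul] at h3
  rw [h3]
  simp

/-- the change of the order of integration for continuous functions -/
lemma swap_c {F : ℝ → ℝ → ℝ} (hF : Continuous fun q : ℝ × ℝ => F q.1 q.2) (a b c d : ℝ) :
    ∫ x in a..b, ∫ y in c..d, F x y = ∫ y in c..d, ∫ x in a..b, F x y := by
  refine intervalIntegral_intervalIntegral_swap ?_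
  have h1 : IntegrableOn (Function.uncurry F) (Set.uIcc a b ×ˢ Set.uIcc c d) :=
    ContinuousOn.integrableOn_compact (isCompact_uIcc.prod isCompact_uIcc) hF.continuousOn
  exact h1.mono_set (Set.prod_mono Set.uIoc_subset_uIcc Set.uIoc_subset_uIcc)

/-- the correlations of two shifts -/
lemma corr_le {f : ℝ → ℝ} (hf : Continuous f) (h0 : ∀ x, 0 ≤ f x) {M X : ℝ} (hM : ∀ x, f x ≤ M)
    {x y : ℝ} (hx : 0 ≤ x) :
    ∫ t in (0:ℝ)..X, f (t + y) * f (t + x) ≤ (∫ t in (0:ℝ)..X, f t * f (t + (y - x))) + x * M ^ 2 := by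
  have hM0 : 0 ≤ M := (h0 0).trans (hM 0)
  have e1 : ∫ t in (0:ℝ)..X, f (t + y) * f (t + x) = ∫ u in (0 + x)..(X + x), f u * f (u + (y - x)) := by
    rw [← intervalIntegral.integral_comp_add_right (fun u => f u * f (u + (y - x)))]
    refine intervalIntegral.integral_congr fun t _ => ?_
    show f (t + y) * f (t + x) = f (t + x) * f (t + x + (y - x))
    rw [show t + x + (y - x) = t + y by ring]
    ring
  have hc : Continuous fun u => f u * f (u + (y - x)) := hf.mul (hf.comp (by fun_prop))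
  have hi : ∀ a b : ℝ, IntervalIntegrable (fun u => f u * f (u + (y - x))) volume a b := fun a b =>
    hc.intervalIntegrable a b
  rw [e1, zero_add]
  have e2 : ∫ u in x..(X + x), f u * f (u + (y - x)) =
      (∫ u in (0:ℝ)..X, f u * f (u + (y - x))) + (∫ u in X..(X + x), f u * f (u + (y - x))) -
        ∫ u in (0:ℝ)..x, f u * f (u + (y - x)) := by
    rw [intervalIntegral.integral_add_adjacent_intervals (hi _ _) (hi _ _),
      ← intervalIntegral.integral_add_adjacent_intervals (hi 0 x) (hi x (X + x))]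
    ring
  rw [e2]
  have i1 : 0 ≤ ∫ u in (0:ℝ)..x, f u * f (u + (y - x)) :=
    intervalIntegral.integral_nonneg hx fun u _ => mul_nonneg (h0 _) (h0 _)
  have i2 : ∫ u in X..(X + x), f u * f (u + (y - x)) ≤ x * M ^ 2 := by
    have h1 : ∫ u in X..(X + x), f u * f (u + (y - x)) ≤ ∫ u in X..(X + x), M ^ 2 := by
      refine intervalIntegral.integral_mono_on (by linarith) (hi _ _) (by simp) fun u _ => ?_
      rw [sq]
      exact mul_le_mul (hM _) (hM _) (h0 _) hM0
    rw [intervalIntegral.integral_const, smul_eq_mul] at h1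
    linarith
  linarith

/-- the mean square of the averages over windows -/
lemma msq_le {f : ℝ → ℝ} (hf : Continuous f) (h0 : ∀ x, 0 ≤ f x) {M X H : ℝ} (hM : ∀ x, f x ≤ M) (hX : 0 ≤ X)
    (hH : 0 ≤ H) :
    ∫ t in (0:ℝ)..X, (∫ x in (0:ℝ)..H, f (t + x)) ^ 2 ≤
      2 * (∫ y in (0:ℝ)..H, ∫ u in (0:ℝ)..y, ∫ t in (0:ℝ)..X, f t * f (t + u)) + H ^ 3 * M ^ 2 := by
  have hc1 : ∀ t, Continuous fun x => f (t + x) := fun t => hf.comp (by fun_prop)
  have e1 : ∀ t : ℝ, (∫ x in (0:ℝ)..H, f (t + x)) ^ 2 =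
      2 * ∫ y in (0:ℝ)..H, ∫ x in (0:ℝ)..y, f (t + y) * f (t + x) := by
    intro t
    rw [sq_int (hc1 t)]
    congr 1
    refine intervalIntegral.integral_congr fun y _ => ?_
    show f (t + y) * (∫ x in (0:ℝ)..y, f (t + x)) = ∫ x in (0:ℝ)..y, f (t + y) * f (t + x)
    rw [intervalIntegral.integral_const_mul]
  have hJ : Continuous fun q : ℝ × ℝ => ∫ x in (0:ℝ)..q.2, f (q.1 + q.2) * f (q.1 + x) := by
    refine intervalIntegral.continuous_parametric_intervalIntegral_of_continuous (f := fun (q : ℝ × ℝ) x =>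
      f (q.1 + q.2) * f (q.1 + x)) ?_ continuous_snd
    exact (hf.comp (by fun_prop)).mul (hf.comp (by fun_prop))
  simp_rw [e1]
  rw [intervalIntegral.integral_const_mul, swap_c (F := fun t y => ∫ x in (0:ℝ)..y, f (t + y) * f (t + x)) hJ]
  have e2 : ∀ y : ℝ, ∫ t in (0:ℝ)..X, ∫ x in (0:ℝ)..y, f (t + y) * f (t + x) =
      ∫ x in (0:ℝ)..y, ∫ t in (0:ℝ)..X, f (t + y) * f (t + x) := by
    intro y
    exact swap_c (F := fun t x => f (t + y) * f (t + x)) ((hf.comp (by fun_prop)).mul (hf.comp (by fun_prop))) _ _ _ _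
  simp_rw [e2]
  have hcor : Continuous fun u : ℝ => ∫ t in (0:ℝ)..X, f t * f (t + u) := by
    refine intervalIntegral.continuous_parametric_intervalIntegral_of_continuous (f := fun u t =>
      f t * f (t + u)) ?_ continuous_const
    exact (hf.comp continuous_snd).mul (hf.comp (by fun_prop))
  have hcor2 : Continuous fun q : ℝ × ℝ => ∫ t in (0:ℝ)..X, f (t + q.1) * f (t + q.2) := by
    refine intervalIntegral.continuous_parametric_intervalIntegral_of_continuous (f := fun (q : ℝ × ℝ) t =>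
      f (t + q.1) * f (t + q.2)) ?_ continuous_const
    exact (hf.comp (by fun_prop)).mul (hf.comp (by fun_prop))
  have h3 : ∀ y ∈ Set.Icc 0 H, ∫ x in (0:ℝ)..y, ∫ t in (0:ℝ)..X, f (t + y) * f (t + x) ≤
      (∫ u in (0:ℝ)..y, ∫ t in (0:ℝ)..X, f t * f (t + u)) + H ^ 2 * M ^ 2 / 2 := by
    intro y hy
    have h4 : ∫ x in (0:ℝ)..y, ∫ t in (0:ℝ)..X, f (t + y) * f (t + x) ≤
        ∫ x in (0:ℝ)..y, ((∫ t in (0:ℝ)..X, f t * f (t + (y - x))) + x * M ^ 2) := by
      refine intervalIntegral.integral_mono_on hy.1 ?_ ?_ fun x hx => corr_le hf h0 hM hx.1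
      · exact (hcor2.comp (g := fun q : ℝ × ℝ => ∫ t in (0:ℝ)..X, f (t + q.1) * f (t + q.2))
          (f := fun x => (y, x)) (by fun_prop)).intervalIntegrable _ _
      · exact ((hcor.comp (g := fun u : ℝ => ∫ t in (0:ℝ)..X, f t * f (t + u))
          (f := fun x => y - x) (by fun_prop)).add (by fun_prop)).intervalIntegrable _ _
    have h5 : ∫ x in (0:ℝ)..y, ((∫ t in (0:ℝ)..X, f t * f (t + (y - x))) + x * M ^ 2) =
        (∫ u in (0:ℝ)..y, ∫ t in (0:ℝ)..X, f t * f (t + u)) + y ^ 2 / 2 * M ^ 2 := by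
      have hq1 : Continuous fun x : ℝ => ∫ t in (0:ℝ)..X, f t * f (t + (y - x)) :=
        hcor.comp (g := fun u : ℝ => ∫ t in (0:ℝ)..X, f t * f (t + u)) (f := fun x => y - x) (by fun_prop)
      have hq2 : Continuous fun x : ℝ => x * M ^ 2 := by fun_prop
      rw [intervalIntegral.integral_add (hq1.intervalIntegrable _ _) (hq2.intervalIntegrable _ _),
        intervalIntegral.integral_comp_sub_left (fun u => ∫ t in (0:ℝ)..X, f t * f (t + u)),
        intervalIntegral.integral_mul_const, integral_id]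
      simp
    rw [h5] at h4
    refine h4.trans (add_le_add le_rfl ?_)
    have h6 : y ^ 2 ≤ H ^ 2 := by
      have := hy.1
      have := hy.2
      nlinarith
    nlinarith [sq_nonneg M]
  have hc5 : Continuous fun y : ℝ => ∫ x in (0:ℝ)..y, ∫ t in (0:ℝ)..X, f (t + y) * f (t + x) := by
    refine intervalIntegral.continuous_parametric_intervalIntegral_of_continuous (f := fun y x =>
      ∫ t in (0:ℝ)..X, f (t + y) * f (t + x)) ?_ continuous_id
    exact hcor2
  have hc6 : Continuous fun y : ℝ => (∫ u in (0:ℝ)..y, ∫ t in (0:ℝ)..X, f t * f (t + u)) + H ^ 2 * M ^ 2 / 2 := by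
    exact (intervalIntegral.continuous_primitive (fun a b => hcor.intervalIntegrable a b) 0).add continuous_const
  have h7 : ∫ y in (0:ℝ)..H, ∫ x in (0:ℝ)..y, ∫ t in (0:ℝ)..X, f (t + y) * f (t + x) ≤
      ∫ y in (0:ℝ)..H, ((∫ u in (0:ℝ)..y, ∫ t in (0:ℝ)..X, f t * f (t + u)) + H ^ 2 * M ^ 2 / 2) :=
    intervalIntegral.integral_mono_on hH (hc5.intervalIntegrable _ _) (hc6.intervalIntegrable _ _) h3
  rw [intervalIntegral.integral_add
    ((intervalIntegral.continuous_primitive (fun a b => hcor.intervalIntegrable a b) 0).intervalIntegrable _ _)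
    (by simp), intervalIntegral.integral_const, smul_eq_mul] at h7
  nlinarith

/-- the mean of the averages over windows -/
lemma mean_ge {f : ℝ → ℝ} (hf : Continuous f) (h0 : ∀ x, 0 ≤ f x) {M X H : ℝ} (hM : ∀ x, f x ≤ M)
    (hH : 0 ≤ H) :
    H * (∫ t in (0:ℝ)..X, f t) - H ^ 2 * M ≤ ∫ t in (0:ℝ)..X, ∫ x in (0:ℝ)..H, f (t + x) := by
  have hM0 : 0 ≤ M := (h0 0).trans (hM 0)
  rw [swap_c (F := fun t x => f (t + x)) (hf.comp (by fun_prop))]
  have h1 : ∀ x ∈ Set.Icc 0 H, (∫ t in (0:ℝ)..X, f t) - H * M ≤ ∫ t in (0:ℝ)..X, f (t + x) := by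
    intro x hx
    rw [intervalIntegral.integral_comp_add_right, zero_add]
    have hi : ∀ a b : ℝ, IntervalIntegrable f volume a b := fun a b => hf.intervalIntegrable a b
    have e2 : ∫ u in x..(X + x), f u = (∫ u in (0:ℝ)..X, f u) + (∫ u in X..(X + x), f u) - ∫ u in (0:ℝ)..x, f u := by
      rw [intervalIntegral.integral_add_adjacent_intervals (hi _ _) (hi _ _),
        ← intervalIntegral.integral_add_adjacent_intervals (hi 0 x) (hi x (X + x))]
      ring
    rw [e2]
    have i1 : 0 ≤ ∫ u in X..(X + x), f u := intervalIntegral.integral_nonneg (by linarith [hx.1]) fun u _ => h0 _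
    have i2 : ∫ u in (0:ℝ)..x, f u ≤ H * M := by
      have h2 : ∫ u in (0:ℝ)..x, f u ≤ ∫ u in (0:ℝ)..x, M :=
        intervalIntegral.integral_mono_on hx.1 (hi _ _) (by simp) fun u _ => hM _
      rw [intervalIntegral.integral_const, smul_eq_mul, sub_zero] at h2
      have := hx.2
      nlinarith
    linarith
  have hc : Continuous fun x : ℝ => ∫ t in (0:ℝ)..X, f (t + x) := by
    refine intervalIntegral.continuous_parametric_intervalIntegral_of_continuous (f := fun x t =>
      f (t + x)) ?_ continuous_const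
    exact hf.comp (by fun_prop)
  have h2 : ∫ x in (0:ℝ)..H, ((∫ t in (0:ℝ)..X, f t) - H * M) ≤ ∫ x in (0:ℝ)..H, ∫ t in (0:ℝ)..X, f (t + x) :=
    intervalIntegral.integral_mono_on hH (by simp) (hc.intervalIntegrable _ _) h1
  rw [intervalIntegral.integral_const, smul_eq_mul, sub_zero] at h2
  nlinarith

/-- the mean square of the deviation of the averages from `1` -/
lemma dev_le {f : ℝ → ℝ} (hf : Continuous f) (h0 : ∀ x, 0 ≤ f x) {M X H a b e : ℝ} (hM : ∀ x, f x ≤ M) (hX : 0 < X)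
    (hH : 0 < H)
    (hG : ∀ y ∈ Set.Icc 0 H, ∫ u in (0:ℝ)..y, ∫ t in (0:ℝ)..X, f t * f (t + u) ≤ X * (a * y + b))
    (hm : (1 - e) * X ≤ ∫ t in (0:ℝ)..X, f t) :
    ∫ t in (0:ℝ)..X, ((1 / H) * (∫ x in (0:ℝ)..H, f (t + x)) - 1) ^ 2 ≤
      X * (a + 2 * b / H + H * M ^ 2 / X - 1 + 2 * e + 2 * H * M / X) := by
  have hc1 : Continuous fun t : ℝ => ∫ x in (0:ℝ)..H, f (t + x) := by
    refine intervalIntegral.continuous_parametric_intervalIntegral_of_continuous (f := fun t x =>
      f (t + x)) ?_ continuous_const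
    exact hf.comp (by fun_prop)
  have e1 : ∀ t : ℝ, ((1 / H) * (∫ x in (0:ℝ)..H, f (t + x)) - 1) ^ 2 =
      (1 / H) ^ 2 * (∫ x in (0:ℝ)..H, f (t + x)) ^ 2 - 2 * (1 / H) * (∫ x in (0:ℝ)..H, f (t + x)) + 1 := by
    intro t
    ring
  simp_rw [e1]
  have hq1 : Continuous fun t : ℝ => (1 / H) ^ 2 * (∫ x in (0:ℝ)..H, f (t + x)) ^ 2 :=
    continuous_const.mul (hc1.pow 2)
  have hq2 : Continuous fun t : ℝ => 2 * (1 / H) * ∫ x in (0:ℝ)..H, f (t + x) := continuous_const.mul hc1
  have hq3 : Continuous fun t : ℝ => (1 / H) ^ 2 * (∫ x in (0:ℝ)..H, f (t + x)) ^ 2 -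
      2 * (1 / H) * ∫ x in (0:ℝ)..H, f (t + x) := hq1.sub hq2
  rw [intervalIntegral.integral_add (hq3.intervalIntegrable _ _)
    (by simp), intervalIntegral.integral_sub (hq1.intervalIntegrable _ _)
    (hq2.intervalIntegrable _ _), intervalIntegral.integral_const_mul,
    intervalIntegral.integral_const_mul, intervalIntegral.integral_const, smul_eq_mul, sub_zero, mul_one]
  have h2 := msq_le hf h0 hM hX.le hH.le
  have h3 := mean_ge (X := X) hf h0 hM hH.le
  have hcor : Continuous fun u : ℝ => ∫ t in (0:ℝ)..X, f t * f (t + u) := by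
    refine intervalIntegral.continuous_parametric_intervalIntegral_of_continuous (f := fun u t =>
      f t * f (t + u)) ?_ continuous_const
    exact (hf.comp continuous_snd).mul (hf.comp (by fun_prop))
  have h4 : ∫ y in (0:ℝ)..H, ∫ u in (0:ℝ)..y, ∫ t in (0:ℝ)..X, f t * f (t + u) ≤
      ∫ y in (0:ℝ)..H, X * (a * y + b) := by
    refine intervalIntegral.integral_mono_on hH.le
      ((intervalIntegral.continuous_primitive (fun a b => hcor.intervalIntegrable a b) 0).intervalIntegrable _ _)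
      ((by fun_prop : Continuous fun y : ℝ => X * (a * y + b)).intervalIntegrable _ _) hG
  have h5 : ∫ y in (0:ℝ)..H, X * (a * y + b) = X * (a * (H ^ 2 / 2) + b * H) := by
    rw [intervalIntegral.integral_const_mul, intervalIntegral.integral_add
      ((by fun_prop : Continuous fun y : ℝ => a * y).intervalIntegrable _ _) (by simp),
      intervalIntegral.integral_const_mul, integral_id, intervalIntegral.integral_const, smul_eq_mul]
    ring
  rw [h5] at h4
  have h6 : (1 / H) ^ 2 * ∫ t in (0:ℝ)..X, (∫ x in (0:ℝ)..H, f (t + x)) ^ 2 ≤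
      (1 / H) ^ 2 * (2 * (X * (a * (H ^ 2 / 2) + b * H)) + H ^ 3 * M ^ 2) :=
    mul_le_mul_of_nonneg_left (by linarith) (by positivity)
  have h7 : 2 * (1 / H) * (H * ((1 - e) * X) - H ^ 2 * M) ≤
      2 * (1 / H) * ∫ t in (0:ℝ)..X, ∫ x in (0:ℝ)..H, f (t + x) := by
    refine mul_le_mul_of_nonneg_left ?_ (by positivity)
    have := mul_le_mul_of_nonneg_left hm hH.le
    linarith
  have h8 : (1 / H) ^ 2 * (2 * (X * (a * (H ^ 2 / 2) + b * H)) + H ^ 3 * M ^ 2) -
      2 * (1 / H) * (H * ((1 - e) * X) - H ^ 2 * M) + X =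
      X * (a + 2 * b / H + H * M ^ 2 / X - 1 + 2 * e + 2 * H * M / X) := by
    field_simp
    ring
  linarith

end Run7.h291.WN
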