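import Pool.Agent.Run7.h291.WN.A7
import Pool.Agent.Run7.h291.WN.L2

set_option autoImplicit false

/-! The averages of the truncated weights over windows -/

namespace Run7.h291.WN

open Finset Filter MeasureTheory Topology Complex
open Pool.Agent.N748.MG Pool.Agent.N748.MJ

lemma aV_c (s r : Fin 2 → ℂ) : Continuous fun h : ℝ => aV s r ![0, h] := by
  have h2 : Continuous fun h : ℝ => (![0, h] : Fin 2 → ℝ) := by
    refine continuous_pi fun i => ?_
    fin_cases i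
    · exact continuous_const
    · exact continuous_id
  have h3 : Continuous fun h : ℝ => (s, r, (![0, h] : Fin 2 → ℝ)) :=
    continuous_const.prodMk (continuous_const.prodMk h2)
  have h7 : Continuous fun q : (Fin 2 → ℂ) × (Fin 2 → ℂ) × (Fin 2 → ℝ) => aV q.1 q.2.1 q.2.2 :=
    Pool.Agent.N748.MJ.conF 2
  have h8 := h7.comp h3
  simp only [Function.comp_def] at h8
  exact h8

lemma B2_cont {k δ : ℝ} (h0 : 0 < δ) : Continuous fun h => B2 k δ h := by
  unfold B2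
  have h1 : Continuous fun h : ℝ => aV (fun _ : Fin 2 => (k : ℂ)) (fun _ : Fin 2 => (k : ℂ)) ![0, h] := aV_c _ _
  have h3 : Continuous fun h : ℝ => riemannZeta (1 + 2 * δ + h * I) := by
    rw [continuous_iff_continuousAt]
    intro h
    have h4 : (1 + 2 * (δ:ℂ) + h * I) ≠ 1 := by
      intro h5
      have h6 := congrArg Complex.re h5
      simp at h6
      linarith
    have h5 : ContinuousAt riemannZeta (1 + 2 * (δ:ℂ) + h * I) := (differentiableAt_riemannZeta h4).continuousAt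
    exact ContinuousAt.comp (f := fun h : ℝ => (1 + 2 * (δ:ℂ) + h * I)) h5 (by fun_prop)
  exact ((Complex.continuous_re.comp h1).div_const _).mul (h3.norm.rpow_const fun h => Or.inr (by positivity))

/-- the primitive of the correlation function -/
lemma prim_le {n : ℕ} {k v W δ X C1 C2 ρ e : ℝ} (hk : 0 < k) (h0 : 0 < δ) (h1 : δ ≤ 1 / 16) (hX : 0 < X)
    (he : 0 < e) (hC1 : 0 < C1) (hC2 : 0 < C2)
    (E1 : ∀ x : ℝ, 0 ≤ x → x ≤ 1 → ∫ h in (0:ℝ)..x, cb n k v W δ X h ≤ C1 * (X * δ ^ (-ρ)))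
    (E2 : ∀ h : ℝ, 0 ≤ h → h ≤ X ^ ((1:ℝ) / 2) → cb n k v W δ X h ≤ X * ((1 + e) * B2 k δ h + e))
    (E3 : ∀ x : ℝ, 1 ≤ x → ∫ h in (1:ℝ)..x, B2 k δ h ≤ (1 + e) * x + C2) {y : ℝ} (hy : 0 ≤ y)
    (hyX : y ≤ X ^ ((1:ℝ) / 2)) :
    ∫ h in (0:ℝ)..y, cb n k v W δ X h ≤ X * (((1 + e) ^ 2 + e) * y + (C1 * δ ^ (-ρ) + (1 + e) * C2)) := by
  have hp : 0 < δ ^ (-ρ) := Real.rpow_pos_of_pos h0 _
  have hi : ∀ a b : ℝ, IntervalIntegrable (fun h => cb n k v W δ X h) volume a b := fun a b =>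
    (cb_cont hk.le h1).intervalIntegrable a b
  rcases le_total y 1 with hy1 | hy1
  · refine (E1 y hy hy1).trans ?_
    have h2 : 0 ≤ X * (((1 + e) ^ 2 + e) * y + (1 + e) * C2) := by positivity
    nlinarith
  · rw [← intervalIntegral.integral_add_adjacent_intervals (hi 0 1) (hi 1 y)]
    have h2 := E1 1 zero_le_one le_rfl
    have h3 : ∫ h in (1:ℝ)..y, cb n k v W δ X h ≤ ∫ h in (1:ℝ)..y, X * ((1 + e) * B2 k δ h + e) := by
      refine intervalIntegral.integral_mono_on hy1 (hi _ _) ?_ fun h hh => ?_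
      · exact (continuous_const.mul ((continuous_const.mul (B2_cont h0)).add continuous_const)).intervalIntegrable _ _
      · exact E2 h (by linarith [hh.1]) (hh.2.trans hyX)
    have h4 : ∫ h in (1:ℝ)..y, X * ((1 + e) * B2 k δ h + e) = X * ((1 + e) * (∫ h in (1:ℝ)..y, B2 k δ h) + (y - 1) * e) := by
      have hq : Continuous fun h : ℝ => (1 + e) * B2 k δ h := continuous_const.mul (B2_cont h0)
      rw [intervalIntegral.integral_const_mul, intervalIntegral.integral_add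
        (hq.intervalIntegrable _ _) (by simp),
        intervalIntegral.integral_const_mul, intervalIntegral.integral_const, smul_eq_mul]
    have h5 := E3 y hy1
    rw [h4] at h3
    have h6 : X * ((1 + e) * (∫ h in (1:ℝ)..y, B2 k δ h) + (y - 1) * e) ≤
        X * ((1 + e) * ((1 + e) * y + C2) + y * e) := by
      refine mul_le_mul_of_nonneg_left (add_le_add (mul_le_mul_of_nonneg_left h5 (by linarith)) ?_) hX.le
      nlinarith
    nlinarith

/-- the averages over windows -/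
noncomputable def Av (l : ℝ) (f : ℝ → ℝ) (t : ℝ) : ℝ := (1 / l) * ∫ x in (0:ℝ)..l, f (t + x)

/-- the mean square of the deviation of the averages of the truncated weights from `1` -/
lemma win2 (hM : S_MNB) (k θ : ℝ) (hk : 0 < k) (hθ : max 1 (k ^ 2) - 1 < θ) : ∃ (n : ℕ) (η : ℝ), 1 ≤ n ∧ 0 < η ∧
    ∀ W : ℝ, 2 * k ^ 2 + 1 ≤ W → ∀ ε : ℝ, 0 < ε → Ev fun X δ =>
    (∫ t in (0:ℝ)..X, (Av (δ ^ (-θ)) (ff n k (k + η) W δ) t - 1) ^ 2 ≤ ε * X) ∧
    (∫ t in (0:ℝ)..X, FP k W δ t ≤ (1 + ε) * X) ∧ (1 - ε) * X ≤ ∫ t in (0:ℝ)..X, ff n k (k + η) W δ t := by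
  set κ : ℝ := max 1 (k ^ 2) with hκ
  have hκ1 : 1 ≤ κ := le_max_left _ _
  set ρ : ℝ := (θ + (κ - 1)) / 2 with hρ
  have hρ1 : κ - 1 < ρ := by
    rw [hρ]
    linarith
  have hρ2 : ρ < θ := by
    rw [hρ]
    linarith
  have hθ0 : 0 < θ := by linarith
  obtain ⟨n, η, hn, hη, H1⟩ := cb_one k ρ hk hρ1
  refine ⟨n, η, hn, hη, fun W hW ε hε => ?_⟩
  have hW0 : 0 ≤ W := by nlinarith [sq_nonneg k]
  set e : ℝ := min (ε / 20) 1 with he
  have he0 : 0 < e := lt_min (by positivity) one_pos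
  have he1 : e ≤ 1 := min_le_right _ _
  have he2 : e ≤ ε / 20 := min_le_left _ _
  obtain ⟨C1, hC1, E1⟩ := H1 W hW0
  obtain ⟨C2, δ0, hC2, hδ0, E3⟩ := hM k hk e he0
  have E2 := tp_far n k (k + η) W hk hW0 e he0
  have E4 := means n hn k η W hk hη hW e he0
  have hθρ : 0 < θ - ρ := by linarith
  refine ((((((((E1.and E2).and E4).and (Ev.of_le hδ0)).and
    (Ev.win (D := θ) (c := 1) (e := (1:ℝ) / 2) one_pos (by norm_num))).and
    (Ev.win (D := θ + 2 * W) (c := e) (e := 1) he0 one_pos)).and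
    (Ev.win (D := θ + W) (c := e) (e := 1) he0 one_pos)).and
    (Ev.small (C := C1) (c := θ - ρ) (e := e) hθρ he0)).and
    (Ev.small (C := (1 + e) * C2) (c := θ) (e := e) hθ0 he0)).mono ?_
  rintro X δ hX1 h0 h1 ⟨⟨⟨⟨⟨⟨⟨⟨E1, E2⟩, E4a, E4b⟩, hδ⟩, w1⟩, w2⟩, w3⟩, s1⟩, s2⟩
  have hX0 : 0 < X := by linarith
  rw [Real.rpow_one] at w2 w3
  rw [one_mul] at w1
  set H : ℝ := δ ^ (-θ) with hH
  have hH0 : 0 < H := Real.rpow_pos_of_pos h0 _
  set M : ℝ := δ ^ (-W) with hMd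
  have hM0 : 0 < M := Real.rpow_pos_of_pos h0 _
  have hdev := dev_le (f := ff n k (k + η) W δ) (M := M) (X := X) (H := H) (a := (1 + e) ^ 2 + e)
    (b := C1 * δ ^ (-ρ) + (1 + e) * C2) (e := e) (ff_cont hk.le h1) (fun x => ff_nn h0.le x)
    (fun x => (ff_le h0.le x).trans (FP_le' x)) hX0 hH0
    (fun y hy => prim_le hk h0 h1 hX0 he0 hC1 hC2 E1 E2 (fun x hx => E3 δ h0 hδ x hx) hy.1 (hy.2.trans w1)) E4b
  refine ⟨?_, ?_, ?_⟩
  · unfold Av
    refine hdev.trans ?_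
    have g1 : 2 * (C1 * δ ^ (-ρ) + (1 + e) * C2) / H ≤ 4 * e := by
      have q1 : δ ^ (-ρ) / H = δ ^ (θ - ρ) := by
        rw [hH, ← Real.rpow_sub h0]
        congr 1
        ring
      have q2 : 1 / H = δ ^ θ := by
        rw [hH, Real.rpow_neg h0.le, one_div, inv_inv]
      have q3 : 2 * (C1 * δ ^ (-ρ) + (1 + e) * C2) / H = 2 * (C1 * (δ ^ (-ρ) / H)) + 2 * ((1 + e) * C2 * (1 / H)) := by
        ring
      rw [q3, q1, q2]
      linarith
    have g2 : H * M ^ 2 / X ≤ e := by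
      rw [div_le_iff₀ hX0]
      have : H * M ^ 2 = δ ^ (-(θ + 2 * W)) := by
        rw [hH, hMd, sq, ← Real.rpow_add h0, ← Real.rpow_add h0]
        congr 1
        ring
      rw [this]
      exact w2
    have g3 : 2 * H * M / X ≤ 2 * e := by
      rw [div_le_iff₀ hX0]
      have : H * M = δ ^ (-(θ + W)) := by
        rw [hH, hMd, ← Real.rpow_add h0]
        congr 1
        ring
      rw [mul_assoc, this]
      linarith
    have g4 : (1 + e) ^ 2 + e + 2 * (C1 * δ ^ (-ρ) + (1 + e) * C2) / H + H * M ^ 2 / X - 1 + 2 * e +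
        2 * H * M / X ≤ ε := by
      nlinarith
    calc X * ((1 + e) ^ 2 + e + 2 * (C1 * δ ^ (-ρ) + (1 + e) * C2) / H + H * M ^ 2 / X - 1 + 2 * e +
        2 * H * M / X) ≤ X * ε := mul_le_mul_of_nonneg_left g4 hX0.le
      _ = ε * X := mul_comm _ _
  · refine E4a.trans (mul_le_mul_of_nonneg_right ?_ hX0.le)
    linarith
  · refine le_trans (mul_le_mul_of_nonneg_right ?_ hX0.le) E4b
    linarith

end Run7.h291.WN
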